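import Pool.Agent.N922.PQ.Def

/-!
# Statements of the parts on the cubic field (lattices, geometry of numbers, primes, reciprocity)

Project PQ (helper922). In all of them `L = ℚ(θ)` is a cubic number field, `θ ^ 3 + a θ + b = 0`,
`O` the integral closure of `ℤ` in `L`.
-/

set_option autoImplicit false
set_option linter.all false

open IsDedekindDomain NumberField Matrix Polynomial
open scoped Classical

namespace Pool.Agent.N922.PQ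

open Pool.Agent.N874.PP (Tup chA chB gq tau Two Ev Sq1 U0)

/-! ### The cubic field -/

section cub

variable {L : Type} [Field L] [CharZero L]

/-- `L = ℚ(θ)` is of degree three over `ℚ` and `θ ^ 3 + a θ + b = 0`. -/
structure IsCub (a b : ℤ) (θ : L) : Prop where
  root : θ ^ 3 + (a : L) * θ + (b : L) = 0
  rank : Module.finrank ℚ L = 3
  gen : ∀ x : L, ∃ r s t : ℚ, x = (r : L) + (s : L) * θ + (t : L) * θ ^ 2

/-- `1`, `θ`, `θ ^ 2` -/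
def vec (θ : L) : Fin 3 → L := ![1, θ, θ ^ 2]

variable {a b : ℤ} {θ : L}

theorem IsCub.span (h : IsCub a b θ) : ⊤ ≤ Submodule.span ℚ (Set.range (vec θ)) := by
  intro x _
  obtain ⟨r, s, t, rfl⟩ := h.gen x
  refine Submodule.add_mem _ (Submodule.add_mem _ ?_ ?_) ?_
  · have : (r : L) = r • vec θ 0 := by simp [vec, Rat.smul_def]
    rw [this]
    exact Submodule.smul_mem _ _ (Submodule.subset_span ⟨0, rfl⟩)
  · have : (s : L) * θ = s • vec θ 1 := by simp [vec, Rat.smul_def]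
    rw [this]
    exact Submodule.smul_mem _ _ (Submodule.subset_span ⟨1, rfl⟩)
  · have : (t : L) * θ ^ 2 = t • vec θ 2 := by simp [vec, Rat.smul_def]
    rw [this]
    exact Submodule.smul_mem _ _ (Submodule.subset_span ⟨2, rfl⟩)

/-- The basis `1`, `θ`, `θ ^ 2`. -/
noncomputable def IsCub.basis (h : IsCub a b θ) : Module.Basis (Fin 3) ℚ L :=
  basisOfTopLeSpanOfCardEqFinrank (vec θ) h.span (by rw [h.rank]; rfl)

theorem IsCub.basis_apply (h : IsCub a b θ) (i : Fin 3) : h.basis i = vec θ i := by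
  rw [IsCub.basis, coe_basisOfTopLeSpanOfCardEqFinrank]

/-- The coordinates with respect to `1`, `θ`, `θ ^ 2`. -/
noncomputable def IsCub.co (h : IsCub a b θ) (i : Fin 3) : L →ₗ[ℚ] ℚ := h.basis.coord i

/-- `x = r + s θ + t θ ^ 2` with integers `r`, `s`, `t`. -/
def Crd (θ : L) (v : Fin 3 → ℤ) (x : L) : Prop :=
  x = (v 0 : L) + (v 1 : L) * θ + (v 2 : L) * θ ^ 2

/-- `e` is a basis of a lattice `I` with `I = {y | y I ⊆ α O}`. -/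
structure SD (e : Fin 3 → L) (α : L) : Prop where
  li : LinearIndependent ℚ e
  int : ∀ i j, IsIntegral ℤ (e i * e j / α)
  dual : ∀ y : L, (∀ i, IsIntegral ℤ (e i * y / α)) → ∃ c : Fin 3 → ℤ, y = ∑ i, (c i : L) * e i

/-- Two vectors of the lattice, independent modulo `Q`, with `x ^ 2 / α` in `ℤ + Q O`. -/
def TTV (Q : ℤ) (θ : L) (e : Fin 3 → L) (α : L) : Prop :=
  ∃ ξ ξ' : Fin 3 → ℤ, (∃ i j, ¬ Q ∣ ξ i * ξ' j - ξ j * ξ' i) ∧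
    (∃ v : Fin 3 → ℤ, Q ∣ v 1 ∧ Q ∣ v 2 ∧ Crd θ v ((∑ i, (ξ i : L) * e i) ^ 2 / α)) ∧
    (∃ v : Fin 3 → ℤ, Q ∣ v 1 ∧ Q ∣ v 2 ∧ Crd θ v ((∑ i, (ξ' i : L) * e i) ^ 2 / α))

end cub

/-- The prime `𝔓` divides `Q`. -/
def Ov {O : Type} [CommRing O] [IsDedekindDomain O] (Q : ℤ) (𝔓 : HeightOneSpectrum O) : Prop :=
  (Q : O) ∈ 𝔓.asIdeal

/-! ### Lattices -/

/-- Part INT. The ring of integers is `ℤ[θ]` (the discriminant is squarefree). -/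
def S_INT : Prop := ∀ (L : Type) [Field L] [NumberField L] (a b : ℤ) (θ : L),
  IsCub a b θ → Squarefree (dsc a b) → ∀ x : L, IsIntegral ℤ x ↔ ∃ v : Fin 3 → ℤ, Crd θ v x

/-- Part SD. The lattice `I` with `I ^ 2 = α O`. -/
def S_SD : Prop := ∀ (L O : Type) [Field L] [NumberField L] [CommRing O] [IsDedekindDomain O]
  [Algebra O L] [IsFractionRing O L] [IsIntegralClosure O ℤ L],
  Module.finrank ℚ L = 3 → ∀ α : L, α ≠ 0 → (∀ 𝔓 : HeightOneSpectrum O, Ev 𝔓 α) →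
  ∃ e : Fin 3 → L, SD e α

/-- Part TTV. Local squares give common isotropic vectors modulo `Q`. -/
def S_TTV : Prop := ∀ (L O : Type) [Field L] [NumberField L] [CommRing O] [IsDedekindDomain O]
  [Algebra O L] [IsFractionRing O L] [IsIntegralClosure O ℤ L] (a b : ℤ) (θ : L),
  IsCub a b θ → Squarefree (dsc a b) →
  ∀ (α : L) (e : Fin 3 → L), α ≠ 0 → SD e α → ∀ Q : ℤ, Prime Q → Q ∣ b →
    (∀ z : ℤ, ¬ Q ∣ z ^ 2 + a) → (∀ 𝔓 : HeightOneSpectrum O, Ov Q 𝔓 → Sq1 𝔓 α) →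
    TTV Q θ e α

/-- Part DET. The Gram matrix of `c₂(x y / α)` is integral of determinant `-1`, the matrix of
`c₁(x y / α)` is integral. -/
def S_DET : Prop := ∀ (L : Type) [Field L] [NumberField L] (a b : ℤ) (θ : L) (h : IsCub a b θ),
  Squarefree (dsc a b) → ∀ (α : L) (e : Fin 3 → L), α ≠ 0 → IsSquare (Algebra.norm ℚ α) →
  SD e α → ∃ G B : Matrix (Fin 3) (Fin 3) ℤ, G.det = -1 ∧ (∀ i j, (G i j : ℚ) = h.co 2 (e i * e j / α)) ∧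
    ∀ i j, (B i j : ℚ) = h.co 1 (e i * e j / α)

/-- Part MAJ. The majorant: a positive definite form `H` of the same determinant as
`c₂(x y / α)` up to sign, and `c₂(x y / α)` takes a positive value. -/
def S_MAJ : Prop := ∀ (L : Type) [Field L] [NumberField L] (a b : ℤ) (θ : L) (h : IsCub a b θ)
  (X : ℕ), 0 < a → a ≤ X ^ 2 → |b| ≤ X ^ 3 → ∀ (α : L) (e : Fin 3 → L), α ≠ 0 →
  0 < Algebra.norm ℚ α → LinearIndependent ℚ e →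
  ∃ H : Matrix (Fin 3) (Fin 3) ℝ, H.PosDef ∧
    H.det = |((Matrix.of fun i j => h.co 2 (e i * e j / α)).det : ℝ)| ∧
    (∀ u v : Fin 3 → ℝ, (∑ i, ∑ j, u i * v j * (h.co 2 (e i * e j / α) : ℝ)) ^ 2 ≤
      (u ⬝ᵥ H *ᵥ u) * (v ⬝ᵥ H *ᵥ v)) ∧
    (∀ u v : Fin 3 → ℝ, (∑ i, ∑ j, u i * v j * (h.co 1 (e i * e j / α) : ℝ)) ^ 2 ≤
      (2 * X) ^ 2 * ((u ⬝ᵥ H *ᵥ u) * (v ⬝ᵥ H *ᵥ v))) ∧
    ∃ v : Fin 3 → ℤ, 0 < ∑ i, ∑ j, (v i : ℚ) * (v j : ℚ) * h.co 2 (e i * e j / α)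

/-- Part RED. Reduction of positive definite ternary forms. -/
def S_RED : Prop := ∀ H : Matrix (Fin 3) (Fin 3) ℝ, H.PosDef → H.det = 1 →
  ∃ (U : Matrix (Fin 3) (Fin 3) ℤ) (h : Fin 3 → ℝ), IsUnit U.det ∧ (∀ i, 0 < h i) ∧ Monotone h ∧
    h 0 * h 1 * h 2 ≤ 8 ∧
    ∀ i, (fun j => (U i j : ℝ)) ⬝ᵥ H *ᵥ (fun j => (U i j : ℝ)) = h i ^ 2

/-- The Gram matrix of `2 x z + y ^ 2`. -/
def JJ : Matrix (Fin 3) (Fin 3) ℤ := !![0, 0, 1; 0, 1, 0; 1, 0, 0]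

/-- Part NRM. Indefinite unimodular ternary forms of determinant `-1` are equivalent. -/
def S_NRM : Prop := ∀ G : Matrix (Fin 3) (Fin 3) ℤ, G.IsSymm → G.det = -1 →
  (∃ v : Fin 3 → ℤ, 0 < v ⬝ᵥ G *ᵥ v) →
  ∃ U : Matrix (Fin 3) (Fin 3) ℤ, IsUnit U.det ∧ U * G * Uᵀ = JJ

/-- Part NF. The same with control of the size. -/
def S_NF : Prop := ∃ κ : ℝ, 0 < κ ∧ ∀ (G : Matrix (Fin 3) (Fin 3) ℤ) (h : Fin 3 → ℝ), G.IsSymm →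
  G.det = -1 → (∃ v : Fin 3 → ℤ, 0 < v ⬝ᵥ G *ᵥ v) → (∀ i, 0 < h i) → Monotone h →
  h 0 * h 1 * h 2 ≤ 8 → (∀ i j, |(G i j : ℝ)| ≤ h i * h j) →
  ∃ (m : ℕ) (U : Matrix (Fin 3) (Fin 3) ℤ), IsUnit U.det ∧ U * G * Uᵀ = JJ ∧
    (∑ j, |(U 0 j : ℝ)| * h j ≤ κ / 2 ^ m) ∧ (∑ j, |(U 1 j : ℝ)| * h j ≤ κ) ∧
    (∑ j, |(U 2 j : ℝ)| * h j ≤ κ * 2 ^ m)

/-- Part CHI. The characteristic polynomial of multiplication by `θ` in a normalised basis. -/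
def S_CHI : Prop := ∀ (L : Type) [Field L] [NumberField L] (a b : ℤ) (θ : L) (h : IsCub a b θ)
  (α : L) (e : Fin 3 → L), α ≠ 0 → LinearIndependent ℚ e →
  (∀ i j, h.co 2 (e i * e j / α) = (JJ i j : ℚ)) →
  ∀ B : Fin 3 → Fin 3 → ℤ, (∀ i j, h.co 1 (e i * e j / α) = (B i j : ℚ)) →
    B 1 1 = -2 * B 0 2 ∧ chA (⟨B 0 0, B 0 1, B 0 2, B 1 2, B 2 2⟩ : Tup ℤ) = a ∧
    chB (⟨B 0 0, B 0 1, B 0 2, B 1 2, B 2 2⟩ : Tup ℤ) = b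

/-- Part NZ. If the first vector of a normalised basis is isotropic for the second form too then
`α` is a square. -/
def S_NZ : Prop := ∀ (L : Type) [Field L] [NumberField L] (a b : ℤ) (θ : L) (h : IsCub a b θ)
  (α x : L), α ≠ 0 → x ≠ 0 → IsSquare (Algebra.norm ℚ α) → h.co 2 (x * x / α) = 0 →
  h.co 1 (x * x / α) = 0 → IsSquare α

/-- Part TTB. From `TTV` to `TT` in a normalised basis. -/
def S_TTB : Prop := ∀ (L : Type) [Field L] [NumberField L] (a b : ℤ) (θ : L) (h : IsCub a b θ),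
  Squarefree (dsc a b) → ∀ (α : L) (e e' : Fin 3 → L) (U : Matrix (Fin 3) (Fin 3) ℤ), α ≠ 0 →
  IsUnit U.det → (∀ i, e' i = ∑ j, (U i j : L) * e j) → LinearIndependent ℚ e →
  (∀ i j, h.co 2 (e' i * e' j / α) = (JJ i j : ℚ)) →
  ∀ B : Fin 3 → Fin 3 → ℤ, (∀ i j, h.co 1 (e' i * e' j / α) = (B i j : ℚ)) → B 1 1 = -2 * B 0 2 →
  ∀ Q : ℤ, Prime Q → ¬ Q ∣ 2 → TTV Q θ e α →
    TT Q (⟨B 0 0, B 0 1, B 0 2, B 1 2, B 2 2⟩ : Tup ℤ)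

/-- Part LB. From the lattice to the tuple. -/
def S_LB : Prop := ∃ κ : ℕ, ∀ (L : Type) [Field L] [NumberField L] (a b : ℤ) (θ : L) (X : ℕ)
  (S T : Finset ℤ) (s A B : ℤ → ℤ), IsCub a b θ → GoodS S s → Fam X S s T A B a b →
  ∀ (α : L) (e : Fin 3 → L), α ≠ 0 → IsSquare (Algebra.norm ℚ α) → ¬ IsSquare α → SD e α →
  (∀ Q ∈ S, TTV Q θ e α) → LBad κ X S s a b

/-! ### Primes, classes -/

/-- Part EXQ. The two primes over `Q`. -/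
def S_EXQ : Prop := ∀ (L O : Type) [Field L] [NumberField L] [CommRing O] [IsDedekindDomain O]
  [Algebra O L] [IsFractionRing O L] [IsIntegralClosure O ℤ L] (a b : ℤ) (θ : L),
  IsCub a b θ → Squarefree (dsc a b) →
  ∀ Q : ℤ, Prime Q → Q ∣ b → (∀ z : ℤ, ¬ Q ∣ z ^ 2 + a) →
  ∃ 𝔓₁ 𝔮 : HeightOneSpectrum O, Ov Q 𝔓₁ ∧ Ov Q 𝔮 ∧ 𝔓₁.valuation L θ < 1 ∧ 𝔮.valuation L θ = 1 ∧
    ¬ Ev 𝔮 ((Q : L) * θ) ∧ ∀ 𝔓 : HeightOneSpectrum O, Ov Q 𝔓 → 𝔓 = 𝔓₁ ∨ 𝔓 = 𝔮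

/-- Part CLS. Classes at a prime of odd residue characteristic form a group of order four. -/
def S_CLS : Prop := ∀ (L O : Type) [Field L] [NumberField L] [CommRing O] [IsDedekindDomain O]
  [Algebra O L] [IsFractionRing O L] [IsIntegralClosure O ℤ L]
  (Q : ℤ) (𝔓 : HeightOneSpectrum O) (ϖ : L), Prime Q → ¬ Q ∣ 2 → Ov Q 𝔓 → ϖ ≠ 0 → ¬ Ev 𝔓 ϖ →
  ∀ x y : L, x ≠ 0 → y ≠ 0 →
    (Ev 𝔓 (x * y) ↔ (Ev 𝔓 x ↔ Ev 𝔓 y)) ∧ (U0 𝔓 ϖ (x * y) ↔ (U0 𝔓 ϖ x ↔ U0 𝔓 ϖ y))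

/-- Part NS. The square class at the prime of degree one over `Q` from the norm. -/
def S_NS : Prop := ∀ (L O : Type) [Field L] [NumberField L] [CommRing O] [IsDedekindDomain O]
  [Algebra O L] [IsFractionRing O L] [IsIntegralClosure O ℤ L] (a b : ℤ) (θ : L),
  IsCub a b θ → Squarefree (dsc a b) →
  ∀ Q : ℤ, Prime Q → Q ∣ b → (∀ z : ℤ, ¬ Q ∣ z ^ 2 + a) →
  ∀ x : L, x ≠ 0 → IsSquare (Algebra.norm ℚ x) →
    (∀ 𝔓 : HeightOneSpectrum O, Ov Q 𝔓 → 𝔓.valuation L θ < 1 → Ev 𝔓 x) →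
    (∀ 𝔓 : HeightOneSpectrum O, Ov Q 𝔓 → 𝔓.valuation L θ = 1 → Sq1 𝔓 x) →
    ∀ 𝔓 : HeightOneSpectrum O, Ov Q 𝔓 → Sq1 𝔓 x

/-- Part P3. The parity at the prime over `P` if the cubic polynomial is irreducible modulo `P`. -/
def S_P3 : Prop := ∀ (L O : Type) [Field L] [NumberField L] [CommRing O] [IsDedekindDomain O]
  [Algebra O L] [IsFractionRing O L] [IsIntegralClosure O ℤ L] (a b : ℤ) (θ : L),
  IsCub a b θ → Squarefree (dsc a b) →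
  ∀ P : ℤ, Prime P → (∀ z : ℤ, ¬ P ∣ z ^ 3 + a * z + b) →
  ∀ x : L, x ≠ 0 → IsSquare (Algebra.norm ℚ x) →
    ∀ 𝔓 : HeightOneSpectrum O, Ov P 𝔓 → Ev 𝔓 x

/-! ### Reciprocity -/

/-- The ternary form `c₂(x ^ 2 / α)` is isotropic over `ℚ_p`. -/
def IsoAt {L : Type} [Field L] [CharZero L] {a b : ℤ} {θ : L} (h : IsCub a b θ)
    (p : ℕ) [Fact p.Prime] (α : L) : Prop :=
  ∃ x : Fin 3 → ℚ_[p], x ≠ 0 ∧
    ∑ i : Fin 3, ∑ j : Fin 3, ((h.co 2 (θ ^ (i : ℕ) * θ ^ (j : ℕ) / α) : ℚ) : ℚ_[p]) * x i * x j = 0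

/-- The quaternion algebra `(d, e)` over `F` splits. -/
def Spl {F : Type} [Field F] (d e : F) : Prop :=
  ∃ x y z : F, ¬ (x = 0 ∧ y = 0 ∧ z = 0) ∧ d * x ^ 2 + e * y ^ 2 = z ^ 2

/-- Part DIAG. Diagonalisation over `ℚ`; the form is isotropic over `ℝ`; isotropy over `ℚ_p` in
terms of the diagonal form. -/
def S_DIAG : Prop := ∀ (L : Type) [Field L] [NumberField L] (a b : ℤ) (θ : L) (h : IsCub a b θ),
  0 < a → ∀ α : L, α ≠ 0 → IsSquare (Algebra.norm ℚ α) →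
  ∃ d e : ℤ, d ≠ 0 ∧ e ≠ 0 ∧ Spl (d : ℝ) (e : ℝ) ∧
    ∀ (p : ℕ) [Fact p.Prime], IsoAt h p α ↔ Spl (d : ℚ_[p]) (e : ℚ_[p])

/-- Part HP. The product formula for the Hilbert symbol over `ℚ`. -/
def S_HP : Prop := ∀ d e : ℤ, d ≠ 0 → e ≠ 0 → Spl (d : ℝ) (e : ℝ) →
  {p : ℕ | ∃ _ : Fact p.Prime, ¬ Spl (d : ℚ_[p]) (e : ℚ_[p])}.Finite ∧
  Even {p : ℕ | ∃ _ : Fact p.Prime, ¬ Spl (d : ℚ_[p]) (e : ℚ_[p])}.ncard

/-- Part UNIM. Even valuations: the form is isotropic. -/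
def S_UNIM : Prop := ∀ (L O : Type) [Field L] [NumberField L] [CommRing O] [IsDedekindDomain O]
  [Algebra O L] [IsFractionRing O L] [IsIntegralClosure O ℤ L] (a b : ℤ) (θ : L)
  (h : IsCub a b θ), Squarefree (dsc a b) → ∀ (p : ℕ) [Fact p.Prime], p ≠ 2 →
  ∀ α : L, α ≠ 0 → (∀ 𝔓 : HeightOneSpectrum O, Ov (p : ℤ) 𝔓 → Ev 𝔓 α) → IsoAt h p α

/-- Part RAM. Odd valuation at the prime of degree two over `Q`. -/
def S_RAM : Prop := ∀ (L O : Type) [Field L] [NumberField L] [CommRing O] [IsDedekindDomain O]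
  [Algebra O L] [IsFractionRing O L] [IsIntegralClosure O ℤ L] (a b : ℤ) (θ : L)
  (h : IsCub a b θ), Squarefree (dsc a b) → ∀ (p : ℕ) [Fact p.Prime], p ≠ 2 → (p : ℤ) ∣ b →
  (∀ z : ℤ, ¬ (p : ℤ) ∣ z ^ 2 + a) →
  ∀ (𝔓₁ 𝔮 : HeightOneSpectrum O), Ov (p : ℤ) 𝔓₁ → Ov (p : ℤ) 𝔮 → 𝔓₁.valuation L θ < 1 →
    𝔮.valuation L θ = 1 → ∀ α : L, α ≠ 0 → Ev 𝔓₁ α → ¬ Ev 𝔮 α →
    (IsoAt h p α ↔ Sq1 𝔮 (α * ((p : L) * θ)))

/-- The class of the polynomial `h` is in the local image at `2` of `y ^ 2 = x ^ 3 + a x + b`. -/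
def PL2 (a b : ℤ) (h : ℚ_[2][X]) : Prop :=
  (∃ g : ℚ_[2][X], X ^ 3 + C (a : ℚ_[2]) * X + C (b : ℚ_[2]) ∣ h - g ^ 2) ∨
  ∃ x y : ℚ_[2], y ≠ 0 ∧ y ^ 2 = x ^ 3 + a * x + b ∧
    ∃ g : ℚ_[2][X], X ^ 3 + C (a : ℚ_[2]) * X + C (b : ℚ_[2]) ∣ (C x - X) * h - g ^ 2

/-- The local condition at `2` for elements of `L`. -/
def Loc2 {L : Type} [Field L] [CharZero L] (a b : ℤ) (θ α : L) : Prop :=
  ∀ h : ℚ[X], aeval θ h = α → PL2 a b (h.map (algebraMap ℚ ℚ_[2]))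

/-- Part PLM. The local image at `2` is a group. -/
def S_PLM : Prop := ∀ (a b : ℤ) (h h' : ℚ_[2][X]), (∀ z : ℤ, ¬ (2 : ℤ) ∣ z ^ 3 + a * z + b) →
  PL2 a b h → PL2 a b h' → PL2 a b (h * h')

/-- Part ISO2. The local condition at `2` implies isotropy. -/
def S_ISO2 : Prop := ∀ (L : Type) [Field L] [NumberField L] (a b : ℤ) (θ : L) (h : IsCub a b θ),
  (∀ z : ℤ, ¬ (2 : ℤ) ∣ z ^ 3 + a * z + b) → ∀ α : L, α ≠ 0 → Loc2 a b θ α → IsoAt h 2 α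

/-- Part REC. The reciprocity law. -/
def S_REC : Prop := ∀ (L O : Type) [Field L] [NumberField L] [CommRing O] [IsDedekindDomain O]
  [Algebra O L] [IsFractionRing O L] [IsIntegralClosure O ℤ L] (a b : ℤ) (θ : L) (X : ℕ)
  (S T : Finset ℤ) (s A B : ℤ → ℤ), IsCub a b θ → GoodS S s → GoodT T A B →
  Fam X S s T A B a b →
  ∀ 𝔮 : ℤ → HeightOneSpectrum O, (∀ Q ∈ S, Ov Q (𝔮 Q) ∧ (𝔮 Q).valuation L θ = 1) →
  ∀ α : L, α ≠ 0 → IsSquare (Algebra.norm ℚ α) → Loc2 a b θ α →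
    (∀ 𝔓 : HeightOneSpectrum O, (∀ Q ∈ S, 𝔓 ≠ 𝔮 Q) → Ev 𝔓 α) →
    Even (S.filter fun Q => ¬ Ev (𝔮 Q) α ∧ ¬ Sq1 (𝔮 Q) (α * ((Q : L) * θ))).card

end Pool.Agent.N922.PQ
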