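import Mathlib

/-! Finite groups with `G = 2 G` (copied from `N874/PP/Final.lean`, helper874). -/

set_option autoImplicit false

namespace Pool.Agent.N922.PQ

theorem odd_card {G : Type} [AddCommGroup G] [Finite G] (h : ∀ P : G, ∃ Q : G, P = (2 : ℕ) • Q) :
    Odd (Nat.card G) := by
  by_contra hodd
  rw [Nat.not_odd_iff_even, even_iff_two_dvd] at hodd
  haveI := Fact.mk Nat.prime_two
  obtain ⟨T, hT⟩ := exists_prime_addOrderOf_dvd_card' 2 hodd
  have hs : Function.Surjective (fun Q : G => (2 : ℕ) • Q) := fun P => by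
    obtain ⟨Q, hQ⟩ := h P
    exact ⟨Q, hQ.symm⟩
  have hi : Function.Injective (fun Q : G => (2 : ℕ) • Q) := Finite.injective_iff_surjective.2 hs
  have h1 : (2 : ℕ) • T = 0 := by
    rw [← hT]
    exact addOrderOf_nsmul_eq_zero T
  have h2 : T = 0 := hi (by simpa using h1)
  rw [h2, addOrderOf_zero] at hT
  norm_num at hT

end Pool.Agent.N922.PQ
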