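import Pool.Agent.N922.PQ.Core

/-!
# Conditions over the extension, descent

Project PQ (helper922), adapted from `Pool.Agent.N874.PM.Big`, `Big2` (helper874).
-/

set_option autoImplicit false
set_option linter.all false

open Polynomial IsDedekindDomain NumberField
open scoped Classical IntermediateField

namespace Pool.Agent.N922.PQ

open Pool.Agent.N874.PP (Tup chA chB gq tau Two Ev Sq1 U0)
open Pool.Agent.N874.PM (PLoc Lies SelR ShaR)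

section prel

variable {L Ω O O' : Type} [Field L] [Field Ω] [Algebra L Ω]
  [CommRing O] [IsDedekindDomain O] [Algebra O L] [IsFractionRing O L]
  [CommRing O'] [IsDedekindDomain O'] [Algebra O' Ω] [IsFractionRing O' Ω]

theorem ov_val (P : ℤ) (𝔓 : HeightOneSpectrum O) :
    Ov P 𝔓 ↔ 𝔓.valuation L (P : L) < 1 := by
  have e : (P : L) = algebraMap O L (P : O) := by rw [map_intCast]
  rw [e, HeightOneSpectrum.valuation_lt_one_iff_mem]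
  rfl

theorem val_le (P : ℤ) (𝔓 : HeightOneSpectrum O) : 𝔓.valuation L (P : L) ≤ 1 := by
  have e : (P : L) = algebraMap O L (P : O) := by rw [map_intCast]
  rw [e]
  exact 𝔓.valuation_le_one _

theorem val_eq_of (P : ℤ) (𝔓 : HeightOneSpectrum O) (h : ¬ Ov P 𝔓) :
    𝔓.valuation L (P : L) = 1 := by
  refine le_antisymm (val_le P 𝔓) ?_
  rw [← not_lt, ← ov_val]
  exact h

variable {𝔓 : HeightOneSpectrum O} {𝔓' : HeightOneSpectrum O'}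

theorem ov_down (hv : ∀ x : L, 𝔓'.valuation Ω (algebraMap L Ω x) = 𝔓.valuation L x) (P : ℤ) :
    Ov P 𝔓' ↔ Ov P 𝔓 := by
  rw [ov_val (L := Ω), ov_val (L := L), ← hv, map_intCast (algebraMap L Ω)]

theorem ev_down (hv : ∀ x : L, 𝔓'.valuation Ω (algebraMap L Ω x) = 𝔓.valuation L x) (x : L) :
    Ev 𝔓' (algebraMap L Ω x) ↔ Ev 𝔓 x := by
  constructor
  · rintro ⟨y, hy⟩
    obtain ⟨z, hz⟩ := 𝔓.valuation_surjective L (𝔓'.valuation Ω y)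
    exact ⟨z, by rw [hz, ← hy, hv]⟩
  · rintro ⟨y, hy⟩
    exact ⟨algebraMap L Ω y, by rw [hv, hv, hy]⟩

theorem sq_down (hv : ∀ x : L, 𝔓'.valuation Ω (algebraMap L Ω x) = 𝔓.valuation L x)
    (hd : ∀ s : Ω, s ≠ 0 → ∃ s₀ : L, 𝔓'.valuation Ω (s - algebraMap L Ω s₀) < 𝔓'.valuation Ω s)
    {x : L} (h : Sq1 𝔓' (algebraMap L Ω x)) : Sq1 𝔓 x := by
  obtain ⟨s, hs⟩ := h
  have h1 : 𝔓'.valuation Ω (s ^ 2) = 𝔓'.valuation Ω (algebraMap L Ω x) := by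
    have := Valuation.map_sub_eq_of_lt_left (𝔓'.valuation Ω) (x := algebraMap L Ω x)
      (y := algebraMap L Ω x - s ^ 2) hs
    rwa [sub_sub_cancel] at this
  have hx0 : 𝔓'.valuation Ω (algebraMap L Ω x) ≠ 0 := by
    intro h0
    rw [h0] at hs
    exact absurd hs (by simp)
  have hs0 : s ≠ 0 := by
    rintro rfl
    rw [zero_pow two_ne_zero, map_zero] at h1
    exact hx0 h1.symm
  obtain ⟨s₀, hs₀⟩ := hd s hs0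
  refine ⟨s₀, ?_⟩
  rw [← hv, ← hv, map_sub, map_pow]
  have e : algebraMap L Ω x - algebraMap L Ω s₀ ^ 2 = (algebraMap L Ω x - s ^ 2) +
      (s - algebraMap L Ω s₀) * (s + algebraMap L Ω s₀) := by ring
  rw [e]
  refine lt_of_le_of_lt (Valuation.map_add _ _ _) (max_lt hs ?_)
  have h2 : 𝔓'.valuation Ω (s + algebraMap L Ω s₀) ≤ 𝔓'.valuation Ω s := by
    have e2 : s + algebraMap L Ω s₀ = s + s - (s - algebraMap L Ω s₀) := by ring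
    rw [e2]
    refine (Valuation.map_sub _ _ _).trans (max_le ?_ hs₀.le)
    exact (Valuation.map_add _ _ _).trans (max_le le_rfl le_rfl)
  have hpos : 0 < 𝔓'.valuation Ω s := by
    rw [zero_lt_iff]
    exact (Valuation.ne_zero_iff _).2 hs0
  rw [map_mul, ← h1, map_pow, pow_two]
  calc _ ≤ 𝔓'.valuation Ω (s - algebraMap L Ω s₀) * 𝔓'.valuation Ω s := mul_le_mul' le_rfl h2
    _ < 𝔓'.valuation Ω s * 𝔓'.valuation Ω s := mul_lt_mul_of_pos_right hs₀ hpos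

end prel

section cond

variable {Ω : Type} [Field Ω] (O' : Type)
  [CommRing O'] [IsDedekindDomain O'] [Algebra O' Ω] [IsFractionRing O' Ω]

/-- The conditions. -/
structure Cnd (J T : Finset ℤ) (θ x : Ω) : Prop where
  ev : ∀ 𝔓 : HeightOneSpectrum O', (∀ P ∈ T, ¬ Ov P 𝔓) → (∀ Q ∈ J, ¬ Ov Q 𝔓) → Ev 𝔓 x
  u0 : ∀ Q ∈ J, ∀ 𝔓 : HeightOneSpectrum O', Ov Q 𝔓 → 𝔓.valuation Ω θ = 1 →
    U0 𝔓 ((Q : Ω) * θ) x
  eq : ∀ Q ∈ J, ∀ 𝔓 : HeightOneSpectrum O', Ov Q 𝔓 → 𝔓.valuation Ω θ < 1 → Ev 𝔓 x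

variable {O'} {J T : Finset ℤ} {θ : Ω}

theorem ev_sq (𝔓 : HeightOneSpectrum O') (x : Ω) : Ev 𝔓 (x ^ 2) := ⟨x, map_pow _ _ _⟩

theorem ev_mul {𝔓 : HeightOneSpectrum O'} {x y : Ω} (hx : Ev 𝔓 x) (hy : Ev 𝔓 y) :
    Ev 𝔓 (x * y) := by
  obtain ⟨u, hu⟩ := hx
  obtain ⟨v, hv⟩ := hy
  exact ⟨u * v, by rw [map_mul, map_mul, hu, hv, mul_pow]⟩

theorem cnd_sq {x : Ω} (hx : x ≠ 0) : Cnd O' J T θ (x ^ 2) where
  ev 𝔓 _ _ := ev_sq 𝔓 x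
  eq Q _ 𝔓 _ _ := ev_sq 𝔓 x
  u0 Q _ 𝔓 _ _ := by
    refine ⟨fun _ => ⟨x, ?_⟩, fun h => absurd (ev_sq 𝔓 x) h⟩
    rw [sub_self, map_zero, zero_lt_iff]
    exact (Valuation.ne_zero_iff _).2 (pow_ne_zero _ hx)

theorem cnd_mul [NumberField Ω] [IsIntegralClosure O' ℤ Ω] (hCLS : S_CLS)
    (hJ : ∀ Q ∈ J, Prime Q ∧ ¬ Q ∣ 2)
    (hϖ : ∀ Q ∈ J, ∀ 𝔓 : HeightOneSpectrum O', Ov Q 𝔓 → 𝔓.valuation Ω θ = 1 →
      ¬ Ev 𝔓 ((Q : Ω) * θ)) {x y : Ω} (hx : x ≠ 0) (hy : y ≠ 0)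
    (h : Cnd O' J T θ x) (h' : Cnd O' J T θ y) : Cnd O' J T θ (x * y) where
  ev 𝔓 h1 h2 := ev_mul (h.ev 𝔓 h1 h2) (h'.ev 𝔓 h1 h2)
  eq Q hQ 𝔓 h1 h2 := ev_mul (h.eq Q hQ 𝔓 h1 h2) (h'.eq Q hQ 𝔓 h1 h2)
  u0 Q hQ 𝔓 h1 h3 := by
    have h4 := hϖ Q hQ 𝔓 h1 h3
    have h5 : (Q : Ω) * θ ≠ 0 := by
      intro h0
      apply h4
      rw [h0]
      exact ⟨0, by simp⟩
    exact ((hCLS Ω O' Q 𝔓 _ (hJ Q hQ).1 (hJ Q hQ).2 h1 h5 h4 x y hx hy).2).2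
      ⟨fun _ => h'.u0 Q hQ 𝔓 h1 h3, fun _ => h.u0 Q hQ 𝔓 h1 h3⟩

theorem cnd_sig [NumberField Ω] [IsIntegralClosure O' ℤ Ω] (hSIG : S_SIG) {L : Type} [Field L]
    [Algebra L Ω] {θ₀ : L} (hθ : θ = algebraMap L Ω θ₀)
    (σ : Ω ≃ₐ[L] Ω) {x : Ω} (h : Cnd O' J T θ x) : Cnd O' J T θ (σ x) := by
  have hf : ∀ y : L, σ (algebraMap L Ω y) = algebraMap L Ω y := fun y => σ.commutes y
  have hp : ∀ P : ℤ, σ (P : Ω) = (P : Ω) := fun P => map_intCast σ P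
  have key := hSIG Ω O' (σ : Ω ≃+* Ω)
  have hev : ∀ (𝔓 𝔓' : HeightOneSpectrum O'), (∀ y : Ω, 𝔓'.valuation Ω y = 𝔓.valuation Ω (σ y)) →
      ∀ y : Ω, Ev 𝔓' y ↔ Ev 𝔓 (σ y) := by
    intro 𝔓 𝔓' hv y
    constructor
    · rintro ⟨z, hz⟩
      exact ⟨σ z, by rw [← hv, ← hv, hz]⟩
    · rintro ⟨z, hz⟩
      refine ⟨σ.symm z, ?_⟩
      rw [hv, hv, σ.apply_symm_apply, hz]
  have hsq : ∀ (𝔓 𝔓' : HeightOneSpectrum O'), (∀ y : Ω, 𝔓'.valuation Ω y = 𝔓.valuation Ω (σ y)) →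
      ∀ y : Ω, Sq1 𝔓' y → Sq1 𝔓 (σ y) := by
    rintro 𝔓 𝔓' hv y ⟨z, hz⟩
    refine ⟨σ z, ?_⟩
    rw [hv, hv, map_sub, map_pow] at hz
    exact hz
  refine ⟨fun 𝔓 h1 h2 => ?_, fun Q hQ 𝔓 h1 h2 => ?_, fun Q hQ 𝔓 h1 h2 => ?_⟩
  · obtain ⟨𝔓', hv, hO⟩ := key 𝔓
    exact (hev 𝔓 𝔓' hv x).1 (h.ev 𝔓' (fun P hP hc => h1 P hP ((hO P).1 hc))
      (fun Q hQ hc => h2 Q hQ ((hO Q).1 hc)))
  · obtain ⟨𝔓', hv, hO⟩ := key 𝔓
    have hv' : ∀ y : Ω, 𝔓'.valuation Ω y = 𝔓.valuation Ω (σ y) := hv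
    have h3 := h.u0 Q hQ 𝔓' ((hO Q).2 h1) (by rw [hv', hθ, hf, ← hθ]; exact h2)
    refine ⟨fun h4 => hsq 𝔓 𝔓' hv' x (h3.1 ((hev 𝔓 𝔓' hv' x).2 h4)), fun h4 => ?_⟩
    have h5 := hsq 𝔓 𝔓' hv' _ (h3.2 fun h6 => h4 ((hev 𝔓 𝔓' hv' x).1 h6))
    rw [map_mul, map_mul, hp, hθ, hf, ← hθ] at h5
    exact h5
  · obtain ⟨𝔓', hv, hO⟩ := key 𝔓
    have hv' : ∀ y : Ω, 𝔓'.valuation Ω y = 𝔓.valuation Ω (σ y) := hv
    exact (hev 𝔓 𝔓' hv' x).1 (h.eq Q hQ 𝔓' ((hO Q).2 h1) (by rw [hv', hθ, hf, ← hθ]; exact h2))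

end cond

section base

variable {L Ω : Type} (O O' : Type) [Field L] [CharZero L] [Field Ω] [Algebra L Ω]
  [CommRing O] [IsDedekindDomain O] [Algebra O L] [IsFractionRing O L]
  [CommRing O'] [IsDedekindDomain O'] [Algebra O' Ω] [IsFractionRing O' Ω]

theorem base_sq {θ : L} {a b : ℤ} {J T : Finset ℤ} {δ : ℤ}
    (hsel : ∀ α : L, α ≠ 0 → IsSquare (Algebra.norm ℚ α) → Loc2 a b θ α →
      (∀ 𝔓 : HeightOneSpectrum O, (∀ Q ∈ J, ¬ Ov Q 𝔓) → Ev 𝔓 α) →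
      (∀ Q ∈ J, ∀ 𝔓 : HeightOneSpectrum O, Ov Q 𝔓 → 𝔓.valuation L θ = 1 →
        U0 𝔓 ((Q : L) * θ) α) →
      (∀ Q ∈ J, ∀ 𝔓 : HeightOneSpectrum O, Ov Q 𝔓 → 𝔓.valuation L θ < 1 → Ev 𝔓 α) →
      IsSquare α)
    (hUR : ∀ 𝔓 : HeightOneSpectrum O, ¬ Ov δ 𝔓 → ∃ 𝔓' : HeightOneSpectrum O',
      ∀ x : L, 𝔓'.valuation Ω (algebraMap L Ω x) = 𝔓.valuation L x)
    (hSP : ∀ Q ∈ J, ∀ 𝔓' : HeightOneSpectrum O', Ov Q 𝔓' → ¬ Ov δ 𝔓' → ∀ s : Ω, s ≠ 0 →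
      ∃ s₀ : L, 𝔓'.valuation Ω (s - algebraMap L Ω s₀) < 𝔓'.valuation Ω s)
    (hT : ∀ P ∈ T, ∀ x : L, x ≠ 0 → IsSquare (Algebra.norm ℚ x) →
      ∀ 𝔓 : HeightOneSpectrum O, Ov P 𝔓 → Ev 𝔓 x)
    (hδ : ∀ 𝔓 : HeightOneSpectrum O, Ov δ 𝔓 → ∃ P ∈ T, Ov P 𝔓)
    (hJδ : ∀ Q ∈ J, ∀ 𝔓 : HeightOneSpectrum O, Ov Q 𝔓 → ¬ Ov δ 𝔓)
    {x : L} (hx : x ≠ 0) (hC : Cnd O' J T (algebraMap L Ω θ) (algebraMap L Ω x))
    (hl2 : Loc2 a b θ x)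
    (hN : IsSquare (Algebra.norm ℚ x)) : IsSquare x := by
  refine hsel x hx hN hl2 (fun 𝔓 h𝔓 => ?_) (fun Q hQ 𝔓 h1 h2 => ?_) (fun Q hQ 𝔓 h1 h2 => ?_)
  · by_cases hP : ∃ P ∈ T, Ov P 𝔓
    · obtain ⟨P, hPT, hP𝔓⟩ := hP
      exact hT P hPT x hx hN 𝔓 hP𝔓
    · obtain ⟨𝔓', hv⟩ := hUR 𝔓 fun h => hP (hδ 𝔓 h)
      rw [← ev_down hv]
      exact hC.ev 𝔓' (fun P hPT h => hP ⟨P, hPT, (ov_down hv P).1 h⟩)
        (fun Q hQ h => h𝔓 Q hQ ((ov_down hv Q).1 h))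
  · obtain ⟨𝔓', hv⟩ := hUR 𝔓 (hJδ Q hQ 𝔓 h1)
    have hQ' : Ov Q 𝔓' := (ov_down hv Q).2 h1
    have hd := hSP Q hQ 𝔓' hQ' (fun h => hJδ Q hQ 𝔓 h1 ((ov_down hv δ).1 h))
    have h3 := hC.u0 Q hQ 𝔓' hQ' (by rw [hv]; exact h2)
    refine ⟨fun h4 => sq_down hv hd (h3.1 ((ev_down hv x).2 h4)), fun h4 => ?_⟩
    have h5 := h3.2 fun h6 => h4 ((ev_down hv x).1 h6)
    have e : algebraMap L Ω x * ((Q : Ω) * algebraMap L Ω θ) =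
        algebraMap L Ω (x * ((Q : L) * θ)) := by
      rw [map_mul, map_mul, map_intCast]
    rw [e] at h5
    exact sq_down hv hd h5
  · obtain ⟨𝔓', hv⟩ := hUR 𝔓 (hJδ Q hQ 𝔓 h1)
    rw [← ev_down hv]
    exact hC.eq Q hQ 𝔓' ((ov_down hv Q).2 h1) (by rw [hv]; exact h2)

end base

section vals

/-- Squarefree numbers have valuation at most one. -/
theorem val_sqfree {r : ℤ} (hr : Squarefree r) (v : HeightOneSpectrum ℤ) :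
    WithZero.exp (-1 : ℤ) ≤ v.valuation ℚ (r : ℚ) := by
  have ecast : (r : ℚ) = algebraMap ℤ ℚ r := by simp
  rw [ecast]
  by_contra hlt
  rw [not_le] at hlt
  have hr0 : r ≠ 0 := hr.ne_zero
  have h0 : v.valuation ℚ (algebraMap ℤ ℚ r) ≠ 0 := by
    rw [Valuation.ne_zero_iff]
    rw [Ne, IsFractionRing.to_map_eq_zero_iff]
    exact hr0
  have h2 : v.valuation ℚ (algebraMap ℤ ℚ r) ≤ WithZero.exp (-((2 : ℕ) : ℤ)) := by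
    rw [← WithZero.exp_log h0, WithZero.exp_lt_exp] at hlt
    rw [← WithZero.exp_log h0, WithZero.exp_le_exp]
    push_cast
    omega
  rw [HeightOneSpectrum.valuation_of_algebraMap, HeightOneSpectrum.intValuation_le_pow_iff_dvd]
    at h2
  obtain ⟨g, hg⟩ := (IsPrincipalIdealRing.principal v.asIdeal).principal
  have hg' : v.asIdeal = Ideal.span {g} := hg
  rw [hg', Ideal.span_singleton_pow, Ideal.dvd_span_singleton, Ideal.mem_span_singleton, sq] at h2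
  have hu := hr g h2
  apply v.isPrime.ne_top
  rw [hg', Ideal.span_singleton_eq_top]
  exact hu

theorem val_le_exp {R M : Type} [CommRing R] [IsDedekindDomain R] [Field M] [Algebra R M]
    [IsFractionRing R M] (w : HeightOneSpectrum R) {x : M} (hx : x ≠ 0)
    (h : w.valuation M x < 1) : w.valuation M x ≤ WithZero.exp (-1 : ℤ) := by
  have h0 : w.valuation M x ≠ 0 := (Valuation.ne_zero_iff _).2 hx
  rw [← WithZero.exp_log h0, ← WithZero.exp_zero, WithZero.exp_lt_exp] at h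
  rw [← WithZero.exp_log h0, WithZero.exp_le_exp]
  omega

end vals

end Pool.Agent.N922.PQ
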