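import Pool.Agent.N922.PQ.Big
import Pool.Agent.N42.PQ.Cls

/-!
# Conditions over the extension: the top

Project PQ (helper922), adapted from `Pool.Agent.N874.PM.Big3` (helper874).
-/

set_option autoImplicit false
set_option linter.all false

open Polynomial IsDedekindDomain NumberField
open scoped Classical IntermediateField

namespace Pool.Agent.N922.PQ

open Pool.Agent.N874.PP (Tup chA chB gq tau Two Ev Sq1 U0)
open Pool.Agent.N874.PM (PLoc Lies SelR ShaR S_LOC1M S_LOC2M)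

section approx

variable {A K : Type} [CommRing A] [IsDedekindDomain A] [IsPrincipalIdealRing A] [Field K]
  [Algebra A K] [IsFractionRing A K]

theorem poly_approx (v : HeightOneSpectrum A) {z : K} (hz : v.valuation K z ≤ 1) :
    ∃ z₁ : A, v.valuation K (z - algebraMap A K z₁) < 1 := by
  obtain ⟨n, d, hco, hnd⟩ := IsFractionRing.exists_reduced_fraction (A := A) z
  have hz' : z * algebraMap A K d = algebraMap A K n := by
    rw [← hnd]
    exact IsLocalization.mk'_spec K n d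
  have hd : (d : A) ∉ v.asIdeal := by
    intro hd
    have hn : n ∈ v.asIdeal := by
      rw [← HeightOneSpectrum.valuation_lt_one_iff_mem (K := K)]
      change v.valuation K (algebraMap A K n) < 1
      rw [← hz', map_mul]
      refine lt_of_le_of_lt (mul_le_mul' hz le_rfl) ?_
      rw [one_mul, HeightOneSpectrum.valuation_lt_one_iff_mem]
      exact hd
    obtain ⟨u, w, huw⟩ := hco.isCoprime
    apply v.isPrime.ne_top
    rw [Ideal.eq_top_iff_one, ← huw]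
    exact Ideal.add_mem _ (Ideal.mul_mem_left _ _ hn) (Ideal.mul_mem_left _ _ hd)
  haveI := v.isMaximal
  obtain ⟨e, he⟩ := Ideal.Quotient.exists_inv (I := v.asIdeal) (a := (Ideal.Quotient.mk v.asIdeal d))
    (by rwa [Ne, Ideal.Quotient.eq_zero_iff_mem])
  obtain ⟨e, rfl⟩ := Ideal.Quotient.mk_surjective e
  rw [← map_mul, ← map_one (Ideal.Quotient.mk v.asIdeal), Ideal.Quotient.eq] at he
  refine ⟨n * e, ?_⟩
  have e1 : z - algebraMap A K (n * e) = - (z * algebraMap A K (d * e - 1)) := by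
    rw [map_mul, ← hz', map_sub, map_mul, map_one]
    ring
  rw [e1, Valuation.map_neg, map_mul]
  refine lt_of_le_of_lt (mul_le_mul' hz le_rfl) ?_
  rw [one_mul, HeightOneSpectrum.valuation_lt_one_iff_mem]
  exact he

end approx

section small

variable {M R : Type} [Field M] [CommRing R] [IsDedekindDomain R]
  [Algebra R M] [IsFractionRing R M]

theorem ov_mul {P Q : ℤ} {w : HeightOneSpectrum R} (h : Ov (P * Q) w) : Ov P w ∨ Ov Q w := by
  unfold Ov at *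
  rw [Int.cast_mul] at h
  exact w.isPrime.mem_or_mem h

theorem ov_prod {J : Finset ℤ} {w : HeightOneSpectrum R} (h : Ov (∏ Q ∈ J, Q) w) :
    ∃ Q ∈ J, Ov Q w := by
  unfold Ov at *
  rw [Int.cast_prod] at h
  haveI := w.isPrime
  exact (Ideal.IsPrime.prod_mem_iff).1 h

theorem val_six {w : HeightOneSpectrum R} (h2 : ¬ Ov 2 w) (h3 : ¬ Ov 3 w) :
    w.valuation M 6 = 1 := by
  have e : (6 : M) = ((6 : ℤ) : M) := by norm_num
  rw [e]
  refine val_eq_of _ w fun h => ?_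
  have : (6 : ℤ) = 2 * 3 := by norm_num
  rw [this] at h
  rcases ov_mul h with h | h
  · exact h2 h
  · exact h3 h

theorem val_two {w : HeightOneSpectrum R} (h2 : ¬ Ov 2 w) : w.valuation M 2 = 1 := by
  have e : (2 : M) = ((2 : ℤ) : M) := by norm_num
  rw [e]
  exact val_eq_of _ w h2

/-- Primes dividing `δ` are in `T`. -/
theorem ov_delta {O : Type} [CommRing O] [IsDedekindDomain O]
    [Algebra.IsIntegral ℤ O] [CharZero O] {T : Finset ℤ} {δ : ℤ}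
    (hδ : ∀ P : ℤ, IsPr P → P ∣ δ → P ∈ T) {𝔓 : HeightOneSpectrum O}
    (h : Ov δ 𝔓) : ∃ P ∈ T, Ov P 𝔓 := by
  obtain ⟨P, hP1, hP3⟩ := exists_below 𝔓
  refine ⟨P, hδ P hP1 ?_, hP3⟩
  by_contra hnd
  exact one_mem_of ((hP1.2.irreducible.coprime_iff_not_dvd).2 hnd) hP3 h

theorem not_ov_delta {O : Type} [CommRing O] [IsDedekindDomain O]
    [Algebra.IsIntegral ℤ O] [CharZero O] {S T : Finset ℤ} {s : ℤ → ℤ} {δ : ℤ}
    (hδ : ∀ P : ℤ, IsPr P → P ∣ δ → P ∈ T) (hS : GoodS S s)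
    (hT : ∀ P ∈ T, IsPr P) (hdis : Disjoint S T) {Q : ℤ} (hQ : Q ∈ S)
    {𝔓 : HeightOneSpectrum O} (h : Ov Q 𝔓) : ¬ Ov δ 𝔓 := by
  intro h'
  obtain ⟨P, hP, hP'⟩ := ov_delta hδ h'
  have : Q = P := below_unique (hS Q hQ).1 (hT P hP) h hP'
  exact Finset.disjoint_left.1 hdis hQ (this ▸ hP)

theorem not_ov_T {O : Type} [CommRing O] [IsDedekindDomain O] {S T : Finset ℤ} {s : ℤ → ℤ}
    (hS : GoodS S s) (hT : ∀ P ∈ T, IsPr P) (hdis : Disjoint S T) {Q P : ℤ} (hQ : Q ∈ S)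
    (hP : P ∈ T) {𝔓 : HeightOneSpectrum O} (h : Ov Q 𝔓) : ¬ Ov P 𝔓 := by
  intro h'
  have : Q = P := below_unique (hS Q hQ).1 (hT P hP) h h'
  exact Finset.disjoint_left.1 hdis hQ (this ▸ hP)

end small

section top

variable {L M Ω : Type} (O O' R : Type) [Field L] [NumberField L] [Field M] [NumberField M]
  [Field Ω] [NumberField Ω] [Algebra L Ω] [Algebra M Ω]
  [CommRing O] [IsDedekindDomain O] [Algebra O L] [IsFractionRing O L] [IsIntegralClosure O ℤ L]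
  [CommRing O'] [IsDedekindDomain O'] [Algebra O' Ω] [IsFractionRing O' Ω]
  [IsIntegralClosure O' ℤ Ω]
  [CommRing R] [IsDedekindDomain R] [Algebra R M] [IsFractionRing R M] [IsIntegralClosure R ℤ M]

include O in
/-- The element `Q θ` has odd valuation. -/
theorem odd_top (hEXQ : S_EXQ) (hUR : S_UR) {a b : ℤ} {θ : L}
    (hc : IsCub a b θ) (hsq : Squarefree (dsc a b)) {γ : Ω} {g : ℤ[X]} {δ : ℤ}
    (hG : Gen L γ g δ) {Q : ℤ} (hQ : Prime Q) (hb : Q ∣ b)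
    (hns : ∀ z : ℤ, ¬ Q ∣ z ^ 2 + a) (𝔓 : HeightOneSpectrum O') (h1 : Ov Q 𝔓)
    (hδ : ¬ Ov δ 𝔓) (h2 : 𝔓.valuation Ω (algebraMap L Ω θ) = 1) :
    ¬ Ev 𝔓 ((Q : Ω) * algebraMap L Ω θ) := by
  obtain ⟨𝔭, hv⟩ := (hUR L Ω O O' γ g δ hG).1 𝔓 hδ
  obtain ⟨𝔓₁, 𝔮, h3, h4, h5, h7, h8, h9⟩ := hEXQ L O a b θ hc hsq Q hQ hb hns
  have e : (Q : Ω) * algebraMap L Ω θ = algebraMap L Ω ((Q : L) * θ) := by
    rw [map_mul, map_intCast]
  rw [e, ev_down hv]
  rcases h9 𝔭 ((ov_down hv Q).1 h1) with rfl | rfl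
  · rw [hv] at h2
    exact absurd h2 h5.ne
  · exact h8

/-- `- a` is not a square in the residue field. -/
theorem ns_top (hUR : S_UR) (hSPD : S_SPD) {a : ℤ} {γ : M} {g : ℤ[X]} {δ : ℤ}
    (hG : Gen ℚ γ g δ) {Q : ℤ} (hQ : Prime Q) (hsp : SplitMod Q g)
    (hns : ∀ z : ℤ, ¬ Q ∣ z ^ 2 + a) (w : HeightOneSpectrum R) (h1 : Ov Q w) (hδ : ¬ Ov δ w)
    (z : M) (hz : w.valuation M z ≤ 1) :
    ¬ w.valuation M (z ^ 2 + (a : M)) < 1 := by
  intro hlt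
  obtain ⟨v, hv⟩ := (hUR ℚ M ℤ R γ g δ hG).1 w hδ
  -- a rational number close to `z`
  obtain ⟨z₀, hz₀⟩ : ∃ z₀ : ℚ, w.valuation M (z - algebraMap ℚ M z₀) < 1 := by
    by_cases h0 : z = 0
    · exact ⟨0, by rw [h0, map_zero, sub_zero, map_zero]; exact zero_lt_one⟩
    · obtain ⟨z₀, h⟩ := hSPD ℚ M R γ g δ hG Q hQ hsp w h1 hδ z h0
      exact ⟨z₀, lt_of_lt_of_le h hz⟩
  have hz0 : v.valuation ℚ z₀ ≤ 1 := by
    rw [← hv]
    have e : algebraMap ℚ M z₀ = z - (z - algebraMap ℚ M z₀) := by ring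
    rw [e]
    exact (Valuation.map_sub _ _ _).trans (max_le hz hz₀.le)
  obtain ⟨z₁, hz₁⟩ := poly_approx v hz0
  have h2 : w.valuation M (z - (z₁ : M)) < 1 := by
    have e : z - (z₁ : M) = (z - algebraMap ℚ M z₀) +
        algebraMap ℚ M (z₀ - algebraMap ℤ ℚ z₁) := by
      rw [map_sub]
      simp
    rw [e]
    refine lt_of_le_of_lt (Valuation.map_add _ _ _) (max_lt hz₀ ?_)
    rw [hv]
    exact hz₁
  have h3 : w.valuation M (((z₁ ^ 2 + a : ℤ)) : M) < 1 := by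
    have e : (((z₁ ^ 2 + a : ℤ)) : M) = (z ^ 2 + (a : M)) -
        (z - (z₁ : M)) * (z + (z₁ : M)) := by
      push_cast
      ring
    rw [e]
    refine lt_of_le_of_lt (Valuation.map_sub _ _ _) (max_lt hlt ?_)
    rw [map_mul]
    have h4 : w.valuation M (z + (z₁ : M)) ≤ 1 :=
      (Valuation.map_add _ _ _).trans (max_le hz (val_le z₁ w))
    exact lt_of_le_of_lt (mul_le_mul' le_rfl h4) (by rwa [mul_one])
  have h5 : Ov (z₁ ^ 2 + a) w := (ov_val (L := M) _ w).2 h3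
  -- hence `Q` divides it
  apply hns z₁
  by_contra hnd
  exact one_mem_of ((hQ.irreducible.coprime_iff_not_dvd).2 hnd) h1 h5

theorem charZero_of (O L : Type) [Field L] [CharZero L] [CommRing O] [Algebra O L] :
    CharZero O :=
  ⟨fun m n h => by
    have h2 := congrArg (algebraMap O L) h
    simpa using h2⟩

include O in
theorem cnd_top (hEXQ : S_EXQ) (hUR : S_UR) (hSPD : S_SPD) (hLIE : S_LIE) (hLOC1M : S_LOC1M)
    (hLOC2M : S_LOC2M) {a b : ℤ} {θ : L} {X' : ℕ} {S J T : Finset ℤ}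
    {s A B : ℤ → ℤ} (hc : IsCub a b θ) (hS : GoodS S s)
    (hF : Fam X' S s T A B a b) {γ : M} {g : ℤ[X]} {δ : ℤ} (hG : Gen ℚ γ g δ)
    (hG' : Gen L (algebraMap M Ω γ) g δ) (hsp : ∀ Q ∈ S, SplitMod Q g)
    (hT : GoodT T A B)
    (hδ : ∀ P : ℤ, IsPr P → P ∣ δ → P ∈ T) (hdis : Disjoint S T)
    (hJ : J ⊆ S) {h : M[X]}
    (hloc : ∀ w : HeightOneSpectrum R, ¬ Ov 2 w → PLoc (w.adicCompletion M)
      (((a * (∏ Q ∈ J, Q) ^ 2 : ℤ)) : M) (((b * (∏ Q ∈ J, Q) ^ 3 : ℤ)) : M) h)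
    (h0 : aeval (((∏ Q ∈ J, Q : ℤ) : Ω) * algebraMap L Ω θ) h ≠ 0) :
    Cnd O' J T (algebraMap L Ω θ) (aeval (((∏ Q ∈ J, Q : ℤ) : Ω) * algebraMap L Ω θ) h)
    := by
  haveI : Algebra.IsIntegral ℤ R := IsIntegralClosure.isIntegral_algebra ℤ M
  haveI : Algebra.IsIntegral ℤ O' := IsIntegralClosure.isIntegral_algebra ℤ Ω
  haveI : CharZero R := charZero_of R M
  haveI : CharZero O' := charZero_of O' Ω
  have hT' : ∀ P ∈ T, IsPr P := fun P hP => (hT.2.2 P hP).1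
  have hroot : (algebraMap L Ω θ) ^ 3 + algebraMap M Ω (a : M) * algebraMap L Ω θ +
      algebraMap M Ω (b : M) = 0 := by
    have h1 := congrArg (algebraMap L Ω) hc.root
    rw [map_zero, map_add, map_add, map_mul, map_pow, map_intCast, map_intCast] at h1
    rw [map_intCast, map_intCast]
    exact h1
  -- at the primes in `J`
  have key : ∀ Q ∈ J, ∀ 𝔓 : HeightOneSpectrum O', Ov Q 𝔓 →
      (𝔓.valuation Ω (algebraMap L Ω θ) = 1 → U0 𝔓 ((Q : Ω) * algebraMap L Ω θ)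
        (aeval (((∏ Q ∈ J, Q : ℤ) : Ω) * algebraMap L Ω θ) h)) ∧
      (𝔓.valuation Ω (algebraMap L Ω θ) < 1 →
        Ev 𝔓 (aeval (((∏ Q ∈ J, Q : ℤ) : Ω) * algebraMap L Ω θ) h)) := by
    intro Q hQ 𝔓 h𝔓
    have hQS := hJ hQ
    obtain ⟨w, hw, hO⟩ := hLIE M Ω R O' 𝔓
    have hQw : Ov Q w := (hO Q).2 h𝔓
    have hδw : ¬ Ov δ w := not_ov_delta hδ hS hT' hdis hQS hQw
    have hδ𝔓 : ¬ Ov δ 𝔓 := fun h => hδw ((hO δ).2 h)
    have h2w : ¬ Ov 2 w := not_ov_T hS hT' hdis hQS hT.1 hQw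
    have h3w : ¬ Ov 3 w := not_ov_T hS hT' hdis hQS hT.2.1 hQw
    obtain ⟨v, hv⟩ := (hUR ℚ M ℤ R γ g δ hG).1 w hδw
    haveI : Finite (R ⧸ w.asIdeal) :=
      Pool.Agent.N42.PQ.finite_residue (L := M) (hS Q hQS).1.2.ne_zero hQw
    have hprod : (∏ P ∈ J, P) = Q * ∏ P ∈ J.erase Q, P := (Finset.mul_prod_erase J id hQ).symm
    have hvQ : w.valuation M (Q : M) = v.valuation ℚ (Q : ℚ) := by
      rw [← hv, map_intCast (algebraMap ℚ M)]
    have hϖ : w.valuation M (Q : M) = WithZero.exp (-1 : ℤ) := by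
      refine le_antisymm (val_le_exp w ?_ ((ov_val Q w).1 hQw)) ?_
      · exact_mod_cast (hS Q hQS).1.2.ne_zero
      · rw [hvQ]
        exact val_sqfree (hS Q hQS).1.2.irreducible.squarefree v
    have hD' : w.valuation M (((∏ P ∈ J.erase Q, P : ℤ)) : M) = 1 := by
      refine val_eq_of _ w fun h => ?_
      obtain ⟨P, hP, hP'⟩ := ov_prod h
      have hPS := hJ (Finset.mem_of_mem_erase hP)
      exact Finset.ne_of_mem_erase hP (below_unique (hS P hPS).1 (hS Q hQS).1 hP' hQw)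
    have hb1 : w.valuation M (b : M) < 1 := by
      rw [← ov_val]
      obtain ⟨c, hc⟩ := hF.rb Q hQS
      unfold Ov at hQw ⊢
      rw [hc, Int.cast_mul]
      exact Ideal.mul_mem_right _ _ hQw
    have hns := fun z hz => ns_top R hUR hSPD (a := a) hG (hS Q hQS).1.2 (hsp Q hQS)
      (fam_ns hS hF hQS) w hQw hδw z hz
    have e1 : (((a * (∏ Q ∈ J, Q) ^ 2 : ℤ)) : M) = (a : M) *
        ((Q : M) * (((∏ P ∈ J.erase Q, P : ℤ)) : M)) ^ 2 := by
      rw [hprod]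
      simp only [Int.cast_mul, Int.cast_pow]
    have e2 : (((b * (∏ Q ∈ J, Q) ^ 3 : ℤ)) : M) = (b : M) *
        ((Q : M) * (((∏ P ∈ J.erase Q, P : ℤ)) : M)) ^ 3 := by
      rw [hprod]
      simp only [Int.cast_mul, Int.cast_pow]
    have e3 : algebraMap M Ω ((Q : M) * (((∏ P ∈ J.erase Q, P : ℤ)) : M)) =
        (((∏ P ∈ J, P : ℤ)) : Ω) := by
      rw [hprod, map_mul, map_intCast, map_intCast, Int.cast_mul]
    have hl := hloc w h2w
    rw [e1, e2] at hl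
    have h2 := hLOC2M M Ω R O' w 𝔓 hw (a : M) (b : M)
      (Q : M) (((∏ P ∈ J.erase Q, P : ℤ)) : M) (algebraMap L Ω θ) h hroot
      (val_six h2w h3w) (val_le a w) hb1 hϖ hD' hns hl (by rw [e3]; exact h0)
    rw [e3, map_intCast (algebraMap M Ω)] at h2
    refine ⟨fun h3 => h2.1 h3 ?_, h2.2⟩
    exact odd_top O O' hEXQ hUR hc hF.sq hG' (hS Q hQS).1.2 (hF.rb Q hQS) (fam_ns hS hF hQS) 𝔓
      h𝔓 hδ𝔓 h3
  refine ⟨fun 𝔓 h1 h2 => ?_, fun Q hQ 𝔓 h1 h2 => (key Q hQ 𝔓 h1).1 h2,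
    fun Q hQ 𝔓 h1 h2 => (key Q hQ 𝔓 h1).2 h2⟩
  obtain ⟨w, hw, hO⟩ := hLIE M Ω R O' 𝔓
  have hnT : ∀ P ∈ T, ¬ Ov P w := fun P hP h => h1 P hP ((hO P).1 h)
  have hδw : ¬ Ov δ w := by
    intro h
    obtain ⟨P, hP, hP'⟩ := ov_delta hδ h
    exact hnT P hP hP'
  obtain ⟨v, hv⟩ := (hUR ℚ M ℤ R γ g δ hG).1 w hδw
  have hD : w.valuation M (((∏ Q ∈ J, Q : ℤ)) : M) = 1 := by
    refine val_eq_of _ w fun h => ?_
    obtain ⟨Q, hQ, h'⟩ := ov_prod h
    exact h2 Q hQ ((hO Q).1 h')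
  have hdisc : WithZero.exp (-1 : ℤ) ≤ w.valuation M (4 * (a : M) ^ 3 +
      27 * (b : M) ^ 2) := by
    have e : 4 * (a : M) ^ 3 + 27 * (b : M) ^ 2 =
        algebraMap ℚ M ((dsc a b : ℤ) : ℚ) := by
      rw [map_intCast]
      simp [dsc]
    rw [e, hv]
    exact val_sqfree hF.sq v
  have e3 : algebraMap M Ω (((∏ P ∈ J, P : ℤ)) : M) = (((∏ P ∈ J, P : ℤ)) : Ω) :=
    map_intCast _ _
  have hl := hloc w (hnT 2 hT.1)
  have hl' : PLoc (w.adicCompletion M) ((a : M) * (((∏ Q ∈ J, Q : ℤ)) : M) ^ 2)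
      ((b : M) * (((∏ Q ∈ J, Q : ℤ)) : M) ^ 3) h := by
    have e1 : (((a * (∏ Q ∈ J, Q) ^ 2 : ℤ)) : M) = (a : M) * (((∏ Q ∈ J, Q : ℤ)) : M) ^ 2 := by
      simp only [Int.cast_mul, Int.cast_pow]
    have e2 : (((b * (∏ Q ∈ J, Q) ^ 3 : ℤ)) : M) = (b : M) * (((∏ Q ∈ J, Q : ℤ)) : M) ^ 3 := by
      simp only [Int.cast_mul, Int.cast_pow]
    rw [← e1, ← e2]
    exact hl
  have h3 := hLOC1M M Ω R O' w 𝔓 hw (a : M) (b : M)
    (((∏ P ∈ J, P : ℤ)) : M) (algebraMap L Ω θ) h hroot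
    (val_six (hnT 2 hT.1) (hnT 3 hT.2.1)) (val_le a w) (val_le b w) hD hdisc hl'
    (by rw [e3]; exact h0)
  rw [e3] at h3
  exact h3

end top

end Pool.Agent.N922.PQ
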