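import Pool.Agent.N922.PQ.Big3

/-!
# The 2-Selmer group over the extension

Project PQ (helper922), adapted from `Pool.Agent.N874.PM.Big4` (helper874).
-/

set_option autoImplicit false
set_option linter.all false

open Polynomial IsDedekindDomain WeierstrassCurve WeierstrassCurve.Affine NumberField
open Pool.Agent.TH115.GD
open scoped Classical IntermediateField

namespace Pool.Agent.N922.PQ

open Pool.Agent.N874.PP (Tup chA chB gq tau Two Ev Sq1 U0 sW IsBeta Rt)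
open Pool.Agent.N874.PM (PLoc Lies SelR ShaR)

/-- The statement `S_LB` for a given constant. -/
def LBk (κ : ℕ) : Prop := ∀ (L : Type) [Field L] [NumberField L] (a b : ℤ) (θ : L) (X : ℕ)
  (S T : Finset ℤ) (s A B : ℤ → ℤ), IsCub a b θ → GoodS S s → Fam X S s T A B a b →
  ∀ (α : L) (e : Fin 3 → L), α ≠ 0 → IsSquare (Algebra.norm ℚ α) → ¬ IsSquare α → SD e α →
  (∀ Q ∈ S, TTV Q θ e α) → LBad κ X S s a b

/-- All the parts which are used in the theorem on the Selmer group. -/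
structure Parts : Prop where
  cls : S_CLS
  exq : S_EXQ
  ns : S_NS
  lin : Pool.Agent.N874.PP.S_LIN
  recp : S_REC
  plm : S_PLM
  sd : S_SD
  ttv : S_TTV
  gb : Pool.Agent.N874.PP.S_GB
  gn : Pool.Agent.N874.PP.S_GN
  gt : Pool.Agent.N874.PP.S_GT
  glr : Pool.Agent.N874.PM.S_GLR
  glr2 : S_GLR2
  ur : S_UR
  spd : S_SPD
  sig : S_SIG
  p3 : S_P3
  tow : Pool.Agent.N874.PM.S_TOW
  lie : S_LIE
  loc1 : Pool.Agent.N874.PM.S_LOC1M
  loc2 : Pool.Agent.N874.PM.S_LOC2M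
  emb : S_EMB
  tw2 : S_TW2
  c2p : S_C2P

section two

/-- The cubic polynomial has no zero in `ℚ_2`. -/
theorem no_root2 {a b : ℤ} (h2 : ∀ z : ℤ, ¬ (2 : ℤ) ∣ z ^ 3 + a * z + b) (u : ℚ_[2]) :
    u ^ 3 + (a : ℚ_[2]) * u + (b : ℚ_[2]) ≠ 0 := by
  intro h0
  have hu : ‖u‖ ≤ 1 := by
    by_contra hlt
    rw [not_le] at hlt
    have ha : ‖(a : ℚ_[2])‖ ≤ 1 := Padic.norm_int_le_one a
    have hb : ‖(b : ℚ_[2])‖ ≤ 1 := Padic.norm_int_le_one b
    have h1 : u ^ 3 = - ((a : ℚ_[2]) * u + (b : ℚ_[2])) := by linear_combination h0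
    have h3 : ‖u‖ ^ 3 ≤ ‖u‖ := by
      rw [← norm_pow, h1, norm_neg]
      refine (Padic.nonarchimedean _ _).trans (max_le ?_ (hb.trans hlt.le))
      rw [norm_mul]
      exact mul_le_of_le_one_left (norm_nonneg _) ha
    have h4 : ‖u‖ < ‖u‖ ^ 3 := by
      have : ‖u‖ ^ 3 = ‖u‖ * (‖u‖ * ‖u‖) := by ring
      rw [this]
      have h5 : 1 < ‖u‖ * ‖u‖ := by nlinarith
      nlinarith
    linarith
  let v : ℤ_[2] := ⟨u, hu⟩
  have hv : v ^ 3 + (a : ℤ_[2]) * v + (b : ℤ_[2]) = 0 := by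
    apply Subtype.ext
    push_cast
    exact h0
  have h1 := congrArg (PadicInt.toZMod (p := 2)) hv
  rw [map_zero, map_add, map_add, map_mul, map_pow, map_intCast, map_intCast] at h1
  obtain ⟨z, hz⟩ := ZMod.intCast_surjective (PadicInt.toZMod v)
  rw [← hz] at h1
  apply h2 z
  have h3 : ((z ^ 3 + a * z + b : ℤ) : ZMod 2) = 0 := by
    push_cast
    exact h1
  have h4 := (ZMod.intCast_zmod_eq_zero_iff_dvd _ 2).1 h3
  exact_mod_cast h4

/-- The twisted polynomial has no zero in a field which embeds in `ℚ_2`. -/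
theorem no_root_tw {F : Type} [Field F] (j : F →+* ℚ_[2]) {a b : ℤ}
    (h2 : ∀ z : ℤ, ¬ (2 : ℤ) ∣ z ^ 3 + a * z + b) {D : ℤ} (hD : D ≠ 0) (t : F) :
    t ^ 3 + (((a * D ^ 2 : ℤ)) : F) * t + (((b * D ^ 3 : ℤ)) : F) ≠ 0 := by
  intro h
  have hD' : (D : ℚ_[2]) ≠ 0 := by exact_mod_cast hD
  have h1 := congrArg j h
  rw [map_zero, map_add, map_add, map_mul, map_pow, map_intCast, map_intCast] at h1
  apply no_root2 h2 (j t / D)
  push_cast at h1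
  field_simp
  linear_combination h1

theorem irr_tw {F : Type} [Field F] (j : F →+* ℚ_[2]) {a b : ℤ}
    (h2 : ∀ z : ℤ, ¬ (2 : ℤ) ∣ z ^ 3 + a * z + b) {D : ℤ} (hD : D ≠ 0) :
    Irreducible (X ^ 3 + C ((((a * D ^ 2 : ℤ)) : F)) * X + C ((((b * D ^ 3 : ℤ)) : F)) : F[X]) := by
  have hm : (X ^ 3 + C ((((a * D ^ 2 : ℤ)) : F)) * X + C ((((b * D ^ 3 : ℤ)) : F)) : F[X]).Monic :=
    by monicity!
  have hd : (X ^ 3 + C ((((a * D ^ 2 : ℤ)) : F)) * X +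
      C ((((b * D ^ 3 : ℤ)) : F)) : F[X]).natDegree = 3 := by
    compute_degree!
  rw [Monic.irreducible_iff_roots_eq_zero_of_degree_le_three hm (by omega) (by omega)]
  rw [Multiset.eq_zero_iff_forall_notMem]
  intro t ht
  have ht' := (mem_roots hm.ne_zero).1 ht
  apply no_root_tw j h2 hD t
  simpa [IsRoot.def] using ht'

end two

theorem prod_mod8 {J : Finset ℤ} (h : ∀ Q ∈ J, Q % 8 = 1) : (∏ Q ∈ J, Q) % 8 = 1 := by
  induction J using Finset.induction_on with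
  | empty => simp
  | insert Q J hQ ih =>
    rw [Finset.prod_insert hQ, Int.mul_emod, h Q (Finset.mem_insert_self _ _),
      ih fun P hP => h P (Finset.mem_insert_of_mem hP)]
    norm_num

section sel2

variable {M Ω : Type} (R : Type) [Field M] [NumberField M] [Field Ω] [Algebra M Ω]
  [CommRing R] [IsDedekindDomain R] [Algebra R M] [IsFractionRing R M] [IsIntegralClosure R ℤ M]

/-- The element of a Selmer class satisfies the condition at `2`. -/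
theorem c2_sel (hEMB : S_EMB) (hGLR2 : S_GLR2) (hTW2 : S_TW2) {a b D : ℤ} (hD : 0 < D)
    (hD8 : D % 8 = 1) (h2 : ∀ z : ℤ, ¬ (2 : ℤ) ∣ z ^ 3 + a * z + b) {t : Ω}
    (hmin : minpoly M t = ff M a b)
    (hdisc : 4 * (((a * D ^ 2 : ℤ)) : M) ^ 3 + 27 * (((b * D ^ 3 : ℤ)) : M) ^ 2 ≠ 0)
    (f : (Sep M ≃ₐ[M] Sep M) → Pt (sW (((a * D ^ 2 : ℤ)) : M) (((b * D ^ 3 : ℤ)) : M)) (Sep M))
    (hf : IsCoc (sW (((a * D ^ 2 : ℤ)) : M) (((b * D ^ 3 : ℤ)) : M)) f)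
    (h2f : ∀ σ, (2 : ℕ) • f σ = 0) (β : Sep M → Sep M) (h : M[X])
    (hβ : IsBeta (((a * D ^ 2 : ℤ)) : M) (((b * D ^ 3 : ℤ)) : M) f β)
    (hh : ∀ t : Sep M, Rt (((a * D ^ 2 : ℤ)) : M) (((b * D ^ 3 : ℤ)) : M) t → aeval t h = β t ^ 2)
    (hloc : ∀ v : HeightOneSpectrum R, LocTriv (sW (((a * D ^ 2 : ℤ)) : M) (((b * D ^ 3 : ℤ)) : M))
      (Comp R M v) (Sep (Comp R M v)) f) :
    C2 M a b t (aeval ((D : Ω) * t) h) := by
  intro φ h' hh'
  obtain ⟨w, j, hj⟩ := hEMB M R φ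
  have h6M : (6 : M) ≠ 0 := by norm_num
  have hPL := hGLR2 M R _ _ h6M hdisc f hf h2f β h hβ hh w (fun t ht => by
    apply no_root_tw j h2 hD.ne' t
    rw [map_intCast, map_intCast] at ht
    exact ht) (hloc w)
  have h3 := hTW2 M (w.adicCompletion M) j φ hj a b D hD hD8 h hPL
  refine pl2_congr ?_ h3
  have h4 : ff M a b ∣ h.comp (C (D : M) * X) - h' := by
    rw [← hmin]
    apply minpoly.dvd
    rw [map_sub, hh', aeval_comp, map_mul, aeval_X, aeval_C, map_intCast, sub_self]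
  have h5 := Polynomial.map_dvd φ h4
  rw [ff_map, Polynomial.map_sub] at h5
  exact h5

end sel2

section abs

variable {L M Ω : Type} (O O' R : Type) [Field L] [NumberField L] [Field M] [NumberField M]
  [Field Ω] [NumberField Ω] [Algebra L Ω] [Algebra M Ω]
  [CommRing O] [IsDedekindDomain O] [Algebra O L] [IsFractionRing O L] [IsIntegralClosure O ℤ L]
  [CommRing O'] [IsDedekindDomain O'] [Algebra O' Ω] [IsFractionRing O' Ω]
  [IsIntegralClosure O' ℤ Ω]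
  [CommRing R] [IsDedekindDomain R] [Algebra R M] [IsFractionRing R M] [IsIntegralClosure R ℤ M]
  [IsGalois ℚ M]

include Ω O O' in
theorem selR_abs (H : Parts) {κ : ℕ} (hLB : LBk κ) {a b : ℤ} {θ : L} {X' : ℕ} {S T : Finset ℤ}
    {s A B : ℤ → ℤ} (hc : IsCub a b θ) (hS : GoodS S s)
    (hF : Fam X' S s T A B a b) (hnb : ¬ LBad κ X' S s a b) (hT : GoodT T A B)
    {γ : M} {g : ℤ[X]} {δ : ℤ} (hG : Gen ℚ γ g δ)
    (hG' : Gen L (algebraMap M Ω γ) g δ) (hsp : ∀ Q ∈ S, SplitMod Q g)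
    (hδ : ∀ P : ℤ, IsPr P → P ∣ δ → P ∈ T) (hdis : Disjoint S T)
    {n : ℕ} (hM : Module.finrank ℚ M = 2 ^ n) (hΩ : Module.finrank M Ω = 3)
    (htop : M⟮algebraMap L Ω θ⟯ = ⊤) (hemb : Nonempty (M →+* ℚ_[2])) :
    ∃ J ⊆ S, SelR R (sW (((a * (∏ Q ∈ J, Q) ^ 2 : ℤ)) : M) (((b * (∏ Q ∈ J, Q) ^ 3 : ℤ)) : M)) := by
  haveI : Algebra.IsIntegral ℤ R := IsIntegralClosure.isIntegral_algebra ℤ M
  haveI : Algebra.IsIntegral ℤ O' := IsIntegralClosure.isIntegral_algebra ℤ Ω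
  haveI : Algebra.IsIntegral ℤ O := IsIntegralClosure.isIntegral_algebra ℤ L
  haveI : CharZero R := charZero_of R M
  haveI : CharZero O' := charZero_of O' Ω
  haveI : CharZero O := charZero_of O L
  have h6M : (6 : M) ≠ 0 := by norm_num
  have h2K : (2 : ℚ) ≠ 0 := by norm_num
  have hT' : ∀ P ∈ T, IsPr P := fun P hP => (hT.2.2 P hP).1
  have hnt2 : ∀ z : ℤ, ¬ (2 : ℤ) ∣ z ^ 3 + a * z + b := fam_nt hT hF hT.1
  obtain ⟨J, hJ, hsel⟩ := core2 (L := L) O H.cls H.exq H.ns H.lin H.recp H.plm H.sd H.ttv hLB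
    hc hS hT hF hnb
  refine ⟨J, hJ, ?_⟩
  have hD1 : 0 < (∏ Q ∈ J, Q) := Finset.prod_pos fun Q hQ => (hS Q (hJ hQ)).1.1
  have hD0 : (∏ Q ∈ J, Q) ≠ 0 := hD1.ne'
  have hD8 : (∏ Q ∈ J, Q) % 8 = 1 := prod_mod8 fun Q hQ => (hS Q (hJ hQ)).2.1
  intro f hf h2f hloc
  have hirrD := irr_tw hemb.some hnt2 hD0
  have hdisc : 4 * (((a * (∏ Q ∈ J, Q) ^ 2 : ℤ)) : M) ^ 3 +
      27 * (((b * (∏ Q ∈ J, Q) ^ 3 : ℤ)) : M) ^ 2 ≠ 0 := by
    have e : 4 * (((a * (∏ Q ∈ J, Q) ^ 2 : ℤ)) : M) ^ 3 +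
      27 * (((b * (∏ Q ∈ J, Q) ^ 3 : ℤ)) : M) ^ 2 =
        (((∏ Q ∈ J, Q) ^ 6 * dsc a b : ℤ) : M) := by
      simp only [dsc, Int.cast_mul, Int.cast_add, Int.cast_pow, Int.cast_ofNat]
      ring
    rw [e, Int.cast_ne_zero]
    exact mul_ne_zero (pow_ne_zero _ hD0) hF.sq.ne_zero
  have hroot : (algebraMap L Ω θ) ^ 3 + (a : Ω) * algebraMap L Ω θ + (b : Ω) = 0 := by
    have h1 := congrArg (algebraMap L Ω) hc.root
    rw [map_zero, map_add, map_add, map_mul, map_pow, map_intCast, map_intCast] at h1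
    exact h1
  have hmin : minpoly M (algebraMap L Ω θ) = ff M a b := by
    haveI : FiniteDimensional M Ω := FiniteDimensional.of_finrank_pos (by rw [hΩ]; norm_num)
    have hint : IsIntegral M (algebraMap L Ω θ) := Algebra.IsIntegral.isIntegral _
    have hd : minpoly M (algebraMap L Ω θ) ∣ ff M a b := by
      apply minpoly.dvd
      simp only [ff, map_add, map_mul, map_pow, aeval_X, aeval_C, map_intCast]
      exact hroot
    have hdeg : (minpoly M (algebraMap L Ω θ)).natDegree = 3 := by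
      rw [(Field.primitive_element_iff_minpoly_natDegree_eq M _).1 htop, hΩ]
    exact (Polynomial.eq_of_monic_of_dvd_of_natDegree_le (minpoly.monic hint) (ff_monic M a b) hd
      (by rw [hdeg, ff_deg])).symm
  obtain ⟨β, hβ⟩ := H.gb M _ _ h6M hdisc hirrD f hf h2f
  obtain ⟨h, hh, hn⟩ := H.gn M _ _ h6M hdisc hirrD f hf h2f β hβ
  have hRt : Rt (((a * (∏ Q ∈ J, Q) ^ 2 : ℤ)) : M)
      (((b * (∏ Q ∈ J, Q) ^ 3 : ℤ)) : M)
      (((∏ Q ∈ J, Q : ℤ) : Ω) * algebraMap L Ω θ) := by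
    unfold Rt
    rw [map_intCast, map_intCast]
    simp only [Int.cast_mul, Int.cast_pow]
    linear_combination ((∏ Q ∈ J, Q : ℤ) : Ω) ^ 3 * hroot
  have hn2 := hn Ω _ hRt hΩ
  have hcnd := cnd_top O O' R H.exq H.ur H.spd H.lie H.loc1 H.loc2 hc hS hF hG hG' hsp hT hδ
    hdis hJ (h := h)
    (fun w hw => H.glr M R _ _ h6M hdisc f hf h2f β h hβ hh w (val_two hw) (hloc w)) hn2.1
  have hc2 := c2_sel R H.emb H.glr2 H.tw2 hD1 hD8 hnt2 hmin hdisc f hf h2f β h hβ hh hloc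
  obtain ⟨c1, c2, c3, c4⟩ := H.c2p L M Ω a b θ hnt2 hc hΩ htop
  have hsq := H.tow n ℚ L M Ω h2K hM hc.rank hΩ
    (fun x => Cnd O' J T (algebraMap L Ω θ) x ∧ C2 M a b (algebraMap L Ω θ) x)
    (fun x hx => ⟨cnd_sq hx, c1 x⟩)
    (fun x y hx hy h h' => ⟨cnd_mul H.cls (fun Q hQ => ⟨(hS Q (hJ hQ)).1.2,
        not_dvd_two (hS Q (hJ hQ)).2.1 (hS Q (hJ hQ)).1.1 (hS Q (hJ hQ)).1.2⟩)
      (fun Q hQ 𝔓 h1 h2 => odd_top O O' H.exq H.ur hc hF.sq hG' (hS Q (hJ hQ)).1.2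
        (hF.rb Q (hJ hQ)) (fam_ns hS hF (hJ hQ)) 𝔓 h1
        (not_ov_delta hδ hS hT' hdis (hJ hQ) h1) h2) hx hy h.1 h'.1, c2 x y h.2 h'.2⟩)
    (fun σ x h => ⟨cnd_sig H.sig rfl σ h.1, c3 σ x h.2⟩)
    (fun x hx hC hN => base_sq O O' hsel (H.ur L Ω O O' _ g δ hG').2
      (fun Q hQ => H.spd L Ω O' _ g δ hG' Q (hS Q (hJ hQ)).1.2 (hsp Q (hJ hQ)))
      (fun P hP => H.p3 L O a b θ hc hF.sq P (hT' P hP).2 (fam_nt hT hF hP))
      (fun 𝔓 h => ov_delta hδ h)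
      (fun Q hQ 𝔓 h => not_ov_delta hδ hS hT' hdis (hJ hQ) h) hx hC.1 (c4 hemb x hC.2) hN)
    _ hn2.1 ⟨hcnd, hc2⟩ hn2.2
  exact H.gt M _ _ h6M hdisc hirrD f hf h2f β h hβ hh _ _ hRt hΩ hsq

end abs

end Pool.Agent.N922.PQ
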