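import Pool.Agent.N922.PQ.Big4

/-!
# The 2-Selmer group over the extension: the fields

Project PQ (helper922), adapted from `Pool.Agent.N874.PM.Big5` (helper874).
-/

set_option autoImplicit false
set_option linter.all false

open Polynomial IsDedekindDomain WeierstrassCurve WeierstrassCurve.Affine NumberField
open Pool.Agent.TH115.GD
open scoped Classical IntermediateField

namespace Pool.Agent.N922.PQ

open Pool.Agent.N874.PP (Tup chA chB gq tau Two Ev Sq1 U0 sW IsBeta Rt)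
open Pool.Agent.N874.PM (PLoc Lies SelR ShaR)

/-- `γ` generates `Ω` over `L`. -/
theorem top_up {K L M Ω : Type} [Field K] [Field L] [Field M] [Field Ω] [Algebra K L]
    [Algebra K M] [Algebra L Ω] [Algebra M Ω] [Algebra K Ω] [IsScalarTower K L Ω]
    [IsScalarTower K M Ω] {γ : M} (hγ : K⟮γ⟯ = ⊤) {θ : L} (hθ : M⟮algebraMap L Ω θ⟯ = ⊤) :
    L⟮algebraMap M Ω γ⟯ = ⊤ := by
  let E : IntermediateField K Ω := (L⟮algebraMap M Ω γ⟯).restrictScalars K
  have h1 : ∀ x : M, algebraMap M Ω x ∈ E := by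
    have h2 : K⟮γ⟯ ≤ E.comap (IsScalarTower.toAlgHom K M Ω) := by
      rw [IntermediateField.adjoin_simple_le_iff]
      exact IntermediateField.mem_adjoin_simple_self L (algebraMap M Ω γ)
    intro x
    have h3 : x ∈ K⟮γ⟯ := by rw [hγ]; trivial
    exact h2 h3
  let E' : IntermediateField M Ω :=
    { E.toSubfield with
      algebraMap_mem' := h1 }
  have h4 : M⟮algebraMap L Ω θ⟯ ≤ E' := by
    rw [IntermediateField.adjoin_simple_le_iff]
    exact (L⟮algebraMap M Ω γ⟯).algebraMap_mem θ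
  rw [hθ] at h4
  rw [eq_top_iff]
  intro x _
  exact h4 (show x ∈ (⊤ : IntermediateField M Ω) from trivial)

/-- Adjoining a zero of a cubic polynomial. -/
theorem exists_field {M : Type} [Field M] {p : M[X]} (hp : Irreducible p) (hm : p.Monic)
    (hd : p.natDegree = 3) : ∃ (Ω : Type) (_ : Field Ω) (_ : Algebra M Ω) (t : Ω),
      aeval t p = 0 ∧ Module.finrank M Ω = 3 ∧ M⟮t⟯ = ⊤ ∧ FiniteDimensional M Ω := by
  haveI hf : Fact (Irreducible p) := ⟨hp⟩
  haveI : FiniteDimensional M (AdjoinRoot p) := hm.finite_adjoinRoot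
  have hr : Module.finrank M (AdjoinRoot p) = 3 := by
    rw [(AdjoinRoot.powerBasis hm.ne_zero).finrank, AdjoinRoot.powerBasis_dim, hd]
  have h0 : aeval (AdjoinRoot.root p) p = 0 := by
    rw [aeval_def]
    exact AdjoinRoot.eval₂_root _
  have hmin : minpoly M (AdjoinRoot.root p) = p :=
    (minpoly.eq_of_irreducible_of_monic hp h0 hm).symm
  refine ⟨AdjoinRoot p, inferInstance, inferInstance, AdjoinRoot.root p, h0, hr, ?_, inferInstance⟩
  rw [Field.primitive_element_iff_minpoly_natDegree_eq, hmin, hd, hr]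

theorem eval_ff {F : Type} [CommRing F] (f : ℚ →+* F) (x : F) (a b : ℤ) :
    (ff ℚ a b).eval₂ f x = x ^ 3 + (a : F) * x + (b : F) := by
  simp only [ff, eval₂_add, eval₂_mul, eval₂_pow, eval₂_X, eval₂_C]
  rw [map_intCast, map_intCast]

/-- The cubic field. -/
theorem exists_cub {a b : ℤ} (h : Irreducible (ff ℚ a b)) :
    ∃ (L : Type) (_ : Field L) (_ : NumberField L) (θ : L), IsCub a b θ ∧
      ∀ (Ω : Type) [Field Ω] [CharZero Ω] (t : Ω), t ^ 3 + (a : Ω) * t + (b : Ω) = 0 →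
        ∃ φ : L →+* Ω, φ θ = t := by
  haveI hf : Fact (Irreducible (ff ℚ a b)) := ⟨h⟩
  have hm := ff_monic ℚ a b
  have hd := ff_deg ℚ a b
  refine ⟨AdjoinRoot (ff ℚ a b), inferInstance, inferInstance, AdjoinRoot.root (ff ℚ a b),
    ⟨?_, ?_, ?_⟩, ?_⟩
  · have h0 := AdjoinRoot.eval₂_root (ff ℚ a b)
    rw [eval_ff] at h0
    exact h0
  · have hr : @Module.finrank ℚ (AdjoinRoot (ff ℚ a b)) _ _
        (AdjoinRoot.instAlgebra (ff ℚ a b)).toModule = 3 := by
      rw [(AdjoinRoot.powerBasis hm.ne_zero).finrank, AdjoinRoot.powerBasis_dim, hd]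
    convert hr using 2
  · intro x
    obtain ⟨p, rfl⟩ := AdjoinRoot.mk_surjective x
    have h1 : AdjoinRoot.mk (ff ℚ a b) p = AdjoinRoot.mk (ff ℚ a b) (p %ₘ ff ℚ a b) := by
      rw [AdjoinRoot.mk_eq_mk, modByMonic_eq_sub_mul_div p (ff ℚ a b)]
      rw [sub_sub_cancel]
      exact dvd_mul_right _ _
    have hd' : (p %ₘ ff ℚ a b).natDegree < 3 := by
      rw [← hd]
      exact natDegree_modByMonic_lt p hm (by
        intro h
        rw [h] at hd
        simp at hd)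
    refine ⟨(p %ₘ ff ℚ a b).coeff 0, (p %ₘ ff ℚ a b).coeff 1, (p %ₘ ff ℚ a b).coeff 2, ?_⟩
    rw [h1]
    conv_lhs => rw [(p %ₘ ff ℚ a b).as_sum_range_C_mul_X_pow' hd']
    have hC : ∀ q : ℚ, AdjoinRoot.mk (ff ℚ a b) (C q) = (q : AdjoinRoot (ff ℚ a b)) := by
      intro q
      exact map_ratCast ((AdjoinRoot.mk (ff ℚ a b)).comp (C : ℚ →+* ℚ[X])) q
    rw [Finset.sum_range_succ, Finset.sum_range_succ, Finset.sum_range_one, map_add, map_add,
      map_mul, map_mul, map_mul, hC, hC, hC, map_pow, map_pow, map_pow, pow_zero, pow_one, mul_one,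
      AdjoinRoot.mk_X]
  · intro Ω _ _ t ht
    have h2 : (ff ℚ a b).eval₂ (algebraMap ℚ Ω) t = 0 := by
      simp only [ff, eval₂_add, eval₂_mul, eval₂_pow, eval₂_X, eval₂_C]
      simpa using ht
    exact ⟨AdjoinRoot.lift (algebraMap ℚ Ω) t h2, AdjoinRoot.lift_root h2⟩

/-- The theorem on the Selmer group over `M`. -/
theorem selR (H : Parts) {κ : ℕ} (hLB : LBk κ) (M : Type) [Field M] [NumberField M]
    [IsGalois ℚ M] (R : Type) [CommRing R] [IsDedekindDomain R] [Algebra R M]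
    [IsFractionRing R M] [IsIntegralClosure R ℤ M] {n : ℕ}
    (hM : Module.finrank ℚ M = 2 ^ n) (hemb : Nonempty (M →+* ℚ_[2])) {a b : ℤ} {X' : ℕ}
    {S T : Finset ℤ} {s A B : ℤ → ℤ} (hS : GoodS S s)
    (hF : Fam X' S s T A B a b) (hnb : ¬ LBad κ X' S s a b) (hT : GoodT T A B)
    {γ : M} {g : ℤ[X]} {δ : ℤ} (hG : Gen ℚ γ g δ) (hsp : ∀ Q ∈ S, SplitMod Q g)
    (hδ : ∀ P : ℤ, IsPr P → P ∣ δ → P ∈ T) (hdis : Disjoint S T) :
    ∃ J ⊆ S, SelR R (sW (((a * (∏ Q ∈ J, Q) ^ 2 : ℤ)) : M) (((b * (∏ Q ∈ J, Q) ^ 3 : ℤ)) : M)) := by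
  have hnt2 : ∀ z : ℤ, ¬ (2 : ℤ) ∣ z ^ 3 + a * z + b := fam_nt hT hF hT.1
  have hone : ∀ (F : Type) [Field F], (X ^ 3 + C ((((a * 1 ^ 2 : ℤ)) : F)) * X +
      C ((((b * 1 ^ 3 : ℤ)) : F)) : F[X]) = ff F a b := by
    intro F _
    rw [one_pow, one_pow, mul_one, mul_one]
    rfl
  have hirr : Irreducible (ff ℚ a b) := by
    rw [← hone]
    exact irr_tw (algebraMap ℚ ℚ_[2]) hnt2 one_ne_zero
  have hirrM : Irreducible (ff M a b) := by
    rw [← hone]
    exact irr_tw hemb.some hnt2 one_ne_zero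
  obtain ⟨L, iF, iN, θ, hc, hu⟩ := exists_cub hirr
  obtain ⟨Ω, iF', iA', t, ht, hr, htop, hfin⟩ := exists_field hirrM (ff_monic M a b) (ff_deg M a b)
  haveI : CharZero Ω := charZero_of_injective_algebraMap (algebraMap M Ω).injective
  haveI : FiniteDimensional ℚ Ω := FiniteDimensional.trans ℚ M Ω
  haveI : NumberField Ω := ⟨⟩
  have ht' : t ^ 3 + (a : Ω) * t + (b : Ω) = 0 := by
    simp only [ff, map_add, map_mul, map_pow, aeval_X, aeval_C, map_intCast] at ht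
    exact ht
  obtain ⟨φ, hφ⟩ := hu Ω t ht'
  letI : Algebra L Ω := φ.toAlgebra
  have hroot : algebraMap L Ω θ = t := hφ
  have htop' : M⟮algebraMap L Ω θ⟯ = ⊤ := by rw [hroot]; exact htop
  have hG' : Gen L (algebraMap M Ω γ) g δ := by
    refine ⟨top_up (K := ℚ) hG.top htop', hG.monic, ?_, hG.ne, hG.comb⟩
    rw [aeval_algebraMap_apply, hG.root, map_zero]
  exact selR_abs (𝓞 L) (𝓞 Ω) R H hLB hc hS hF hnb hT hG hG' hsp hδ hdis hM hr htop' hemb

end Pool.Agent.N922.PQ
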