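import Pool.Agent.N922.PQ.Big5

/-!
# A positive proportion over a Galois 2-extension of `ℚ`: counting

Project PQ (helper922), adapted from `Pool.Agent.N874.PM.Cnt` (helper874).
-/

set_option autoImplicit false
set_option linter.all false

open Polynomial IsDedekindDomain WeierstrassCurve WeierstrassCurve.Affine NumberField
open Pool.Agent.TH115.GD
open scoped Classical IntermediateField

namespace Pool.Agent.N922.PQ

open Pool.Agent.N874.PP (Tup chA chB gq tau Two Ev Sq1 U0 sW IsBeta Rt)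
open Pool.Agent.N874.PM (PLoc Lies SelR ShaR)

/-- Counting with a choice of a subset. -/
theorem card_fib {α β γ : Type} [DecidableEq γ] {G : Set α} {H : Set β}
    (hH : H.Finite) (S : Finset γ) (f : Finset γ → α → β)
    (hex : ∀ x ∈ G, ∃ J ⊆ S, f J x ∈ H) (hinj : ∀ J ⊆ S, ∀ x ∈ G, ∀ y ∈ G, f J x = f J y → x = y) :
    G.ncard ≤ 2 ^ S.card * H.ncard := by
  choose! J hJ hf using hex
  have hT : ((fun x => (J x, f (J x) x)) '' G) ⊆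
      ((S.powerset : Set (Finset γ)) ×ˢ H) := by
    rintro _ ⟨x, hx, rfl⟩
    refine ⟨?_, hf x hx⟩
    rw [Finset.mem_coe, Finset.mem_powerset]
    exact hJ x hx
  have hi : Set.InjOn (fun x => (J x, f (J x) x)) G := by
    intro x hx y hy h
    simp only [Prod.mk.injEq] at h
    refine hinj (J x) (hJ x hx) x hx y hy ?_
    rw [h.2, h.1]
  rw [← Set.ncard_image_of_injOn hi]
  refine (Set.ncard_le_ncard hT ((Finset.finite_toSet _).prod hH)).trans ?_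
  rw [Set.ncard_prod, Set.ncard_coe_finset, Finset.card_powerset]

theorem twist_inj {a b a' b' D : ℤ} (hD : D ≠ 0) (h1 : a * D ^ 2 = a' * D ^ 2)
    (h2 : b * D ^ 3 = b' * D ^ 3) : (a, b) = (a', b') := by
  rw [Prod.mk.injEq]
  exact ⟨mul_right_cancel₀ (pow_ne_zero _ hD) h1, mul_right_cancel₀ (pow_ne_zero _ hD) h2⟩

theorem crv_fin (H : ℕ) : {p : ℤ × ℤ | Crv H p.1 p.2}.Finite := by
  have hf : (Set.Icc (-(H : ℤ)) H ×ˢ Set.Icc (-(H : ℤ)) H : Set (ℤ × ℤ)).Finite :=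
    (Set.finite_Icc _ _).prod (Set.finite_Icc _ _)
  refine hf.subset ?_
  rintro ⟨A, B⟩ hp
  have hA := hp.hA
  have hB := hp.hB
  simp only at hA hB
  have h1 : |A| ≤ H := by
    by_cases h0 : |A| = 0
    · rw [h0]; positivity
    · have h1 : 1 ≤ |A| := by
        have := abs_nonneg A
        omega
      have h2 : |A| ≤ |A| ^ 3 := by
        calc |A| = |A| ^ 1 := (pow_one _).symm
          _ ≤ |A| ^ 3 := pow_le_pow_right₀ h1 (by norm_num)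
      linarith
  have h2 : |B| ≤ H := by
    by_cases h0 : |B| = 0
    · rw [h0]; positivity
    · have h1 : 1 ≤ |B| := by
        have := abs_nonneg B
        omega
      have h2 : |B| ≤ |B| ^ 2 := by
        calc |B| = |B| ^ 1 := (pow_one _).symm
          _ ≤ |B| ^ 2 := pow_le_pow_right₀ h1 (by norm_num)
      rw [sq_abs] at h2
      linarith
  exact ⟨⟨(abs_le.1 h1).1, (abs_le.1 h1).2⟩, ⟨(abs_le.1 h2).1, (abs_le.1 h2).2⟩⟩

/-- Many curves of the family are not bad. -/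
theorem good_card (hFAM : S_FAM) (hBAD : S_BAD) (κ : ℕ) {T : Finset ℤ} {A B : ℤ → ℤ}
    (hT : GoodT T A B) (Φ : ℤ → Prop)
    (hEX : ∀ r : ℕ, ∃ (S : Finset ℤ) (s : ℤ → ℤ), GoodS S s ∧ S.card = r ∧ Disjoint S T ∧
      ∀ Q ∈ S, Φ Q) :
    ∃ (S : Finset ℤ) (s : ℤ → ℤ) (c : ℝ), GoodS S s ∧ Disjoint S T ∧ (∀ Q ∈ S, Φ Q) ∧
      0 < c ∧ ∃ X₀ : ℕ, ∀ X ≥ X₀,
      c * (X : ℝ) ^ 5 ≤ ({p : ℤ × ℤ | Fam X S s T A B p.1 p.2 ∧
        ¬ LBad κ X S s p.1 p.2}.ncard : ℝ) := by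
  obtain ⟨c, hc, hfam⟩ := hFAM T A B hT
  obtain ⟨K, hK⟩ := hBAD κ
  obtain ⟨r, hr⟩ : ∃ r : ℕ, 2 * (K : ℝ) / c < 2 ^ r :=
    pow_unbounded_of_one_lt _ (by norm_num)
  obtain ⟨S, s, hS, hcard, hdis, hΦ⟩ := hEX r
  obtain ⟨X₁, h1⟩ := hfam S s hS hdis
  obtain ⟨X₂, h2⟩ := hK S s hS
  set P : ℝ := ∏ Q ∈ S, (Q : ℝ) ^ 2 with hP
  have hP0 : 0 < P := Finset.prod_pos fun Q hQ => by
    have : (0 : ℝ) < Q := by exact_mod_cast (hS Q hQ).1.1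
    positivity
  refine ⟨S, s, c / (2 * P), hS, hdis, hΦ, by positivity, max X₁ X₂, fun X hX => ?_⟩
  have hF := h1 X ((le_max_left _ _).trans hX)
  obtain ⟨hfin, hB⟩ := h2 X ((le_max_right _ _).trans hX)
  have hd := Set.le_ncard_diff {p : ℤ × ℤ | LBad κ X S s p.1 p.2}
    {p : ℤ × ℤ | Fam X S s T A B p.1 p.2} hfin
  have e : {p : ℤ × ℤ | Fam X S s T A B p.1 p.2} \
      {p : ℤ × ℤ | LBad κ X S s p.1 p.2} =
      {p : ℤ × ℤ | Fam X S s T A B p.1 p.2 ∧ ¬ LBad κ X S s p.1 p.2} := rfl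
  rw [e] at hd
  set F : ℕ := {p : ℤ × ℤ | Fam X S s T A B p.1 p.2}.ncard
  set Bd : ℕ := {p : ℤ × ℤ | LBad κ X S s p.1 p.2}.ncard
  set G : ℕ := {p : ℤ × ℤ | Fam X S s T A B p.1 p.2 ∧ ¬ LBad κ X S s p.1 p.2}.ncard
  have hd' : (F : ℝ) ≤ Bd + G := by
    have : F ≤ Bd + G := by omega
    exact_mod_cast this
  have hB' : (2 : ℝ) ^ r * P * Bd ≤ K * (X : ℝ) ^ 5 := by
    rw [hcard] at hB
    have h3 : ((2 ^ r * (∏ Q ∈ S, Q) ^ 2 * (Bd : ℤ) : ℤ) : ℝ) ≤ ((K * X ^ 5 : ℤ) : ℝ) := by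
      exact_mod_cast hB
    have e2 : ((2 ^ r * (∏ Q ∈ S, Q) ^ 2 * (Bd : ℤ) : ℤ) : ℝ) = (2 : ℝ) ^ r * P * Bd := by
      rw [hP, Finset.prod_pow]
      push_cast
      ring
    rw [e2] at h3
    refine h3.trans (le_of_eq ?_)
    push_cast
    ring
  have hF' : c * (X : ℝ) ^ 5 ≤ P * F := hF
  rw [div_lt_iff₀ hc] at hr
  have hPB : P * (Bd : ℝ) ≤ c / 2 * (X : ℝ) ^ 5 := by
    have h2r : (0 : ℝ) < 2 ^ r := by positivity
    rw [← mul_le_mul_iff_right₀ h2r]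
    calc 2 ^ r * (P * (Bd : ℝ)) = 2 ^ r * P * Bd := by ring
      _ ≤ K * (X : ℝ) ^ 5 := hB'
      _ = (2 * (K : ℝ)) * ((X : ℝ) ^ 5 / 2) := by ring
      _ ≤ (2 ^ r * c) * ((X : ℝ) ^ 5 / 2) := by gcongr
      _ = 2 ^ r * (c / 2 * (X : ℝ) ^ 5) := by ring
  have hPG : c / 2 * (X : ℝ) ^ 5 ≤ P * G := by
    have : (P : ℝ) * F ≤ P * Bd + P * G := by
      rw [← mul_add]
      exact mul_le_mul_of_nonneg_left hd' hP0.le
    linarith
  calc c / (2 * P) * (X : ℝ) ^ 5 = c / 2 * (X : ℝ) ^ 5 / P := by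
        field_simp
    _ ≤ P * G / P := by gcongr
    _ = G := by field_simp

/-- The 2-Selmer group over `M` is zero, the points over `M` are divisible by two, there are finitely
many of them, and the 2-primary part of the Tate-Shafarevich group over `M` is zero. -/
def GoodM {M : Type} [Field M] (R : Type) [CommRing R]
    [IsDedekindDomain R] [Algebra R M] [IsFractionRing R M] (p : ℤ × ℤ) : Prop :=
  SelR R (sW (p.1 : M) (p.2 : M)) ∧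
  (∀ P : Pt (sW (p.1 : M) (p.2 : M)) M, ∃ Q : Pt (sW (p.1 : M) (p.2 : M)) M, P = (2 : ℕ) • Q) ∧
  Finite (Pt (sW (p.1 : M) (p.2 : M)) M) ∧ ShaR R (sW (p.1 : M) (p.2 : M))

/-- The main theorem from the parts. -/
theorem mainQ (H : Parts) (hLB : S_LB) (hFAM : S_FAM) (hBAD : S_BAD)
    (hTCH : S_TCH) (hGEN : S_GEN) (hSPL : S_SPL) (hGFR : Pool.Agent.N874.PM.S_GFR)
    (hFINM : S_FINM) (hCRV : S_CRV) (hCNT : S_CNT)
    (M : Type) [Field M] [NumberField M]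
    [IsGalois ℚ M] (R : Type) [CommRing R] [IsDedekindDomain R] [Algebra R M]
    [IsFractionRing R M] [IsIntegralClosure R ℤ M] {n : ℕ}
    (hM : Module.finrank ℚ M = 2 ^ n) (hemb : Nonempty (M →+* ℚ_[2])) :
    ∃ c : ℝ, 0 < c ∧ ∃ H₀ : ℕ, ∀ H ≥ H₀, {p : ℤ × ℤ | Crv H p.1 p.2}.Finite ∧
    c * ({p : ℤ × ℤ | Crv H p.1 p.2}.ncard : ℝ) ≤
      ({p : ℤ × ℤ | Crv H p.1 p.2 ∧ GoodM (M := M) R p}.ncard : ℝ) := by
  obtain ⟨κ, hLB'⟩ := hLB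
  obtain ⟨γ, g, δ, hG, hdeg⟩ := hGEN M
  -- the prime divisors of `δ`
  obtain ⟨T₀, hT₀, hδ₀⟩ : ∃ T : Finset ℤ, (∀ P ∈ T, IsPr P) ∧
      ∀ P : ℤ, IsPr P → P ∣ δ → P ∈ T := by
    have hf : {P : ℤ | IsPr P ∧ P ∣ δ}.Finite := by
      refine (Set.finite_Icc (-|δ|) |δ|).subset ?_
      rintro P ⟨-, h⟩
      have h3 : |P| ≤ |δ| := Int.le_of_dvd (abs_pos.2 hG.ne) ((abs_dvd_abs P δ).2 h)
      exact abs_le.1 h3
    refine ⟨hf.toFinset, fun P hP => ?_, fun P h1 h2 => ?_⟩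
    · exact (hf.mem_toFinset.1 hP).1
    · exact hf.mem_toFinset.2 ⟨h1, h2⟩
  obtain ⟨T, A, B, hTT, hT⟩ := hTCH T₀ hT₀
  have hδ : ∀ P : ℤ, IsPr P → P ∣ δ → P ∈ T := fun P h1 h2 => hTT (hδ₀ P h1 h2)
  obtain ⟨S, s, c, hS, hdis, hsp, hc, X₀, hX₀⟩ := good_card hFAM hBAD κ hT
    (fun Q => SplitMod Q g) (hSPL M γ g δ hG hdeg T)
  have hSpos : 0 < ∏ Q ∈ S, Q := Finset.prod_pos fun Q hQ => (hS Q hQ).1.1
  refine hCNT (fun p => GoodM (M := M) R p) (∏ Q ∈ S, Q).toNat X₀ (c / 2 ^ S.card)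
    (by positivity) (by omega) fun X hX Hh hHh => ?_
  have hN := hX₀ X hX
  set Hs := {p : ℤ × ℤ | Crv Hh p.1 p.2 ∧ GoodM (M := M) R p} with hH
  set G := {p : ℤ × ℤ | Fam X S s T A B p.1 p.2 ∧ ¬ LBad κ X S s p.1 p.2} with hG'
  have hHf : Hs.Finite := (crv_fin Hh).subset fun p hp => hp.1
  have hbd : 27 * ((X : ℤ) * ∏ Q ∈ S, Q) ^ 6 ≤ Hh := by
    have h1 : ((27 * (X * (∏ Q ∈ S, Q).toNat) ^ 6 : ℕ) : ℤ) ≤ Hh := by exact_mod_cast hHh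
    have e1 : (((∏ Q ∈ S, Q).toNat : ℕ) : ℤ) = ∏ Q ∈ S, Q := Int.toNat_of_nonneg hSpos.le
    rw [Nat.cast_mul, Nat.cast_pow, Nat.cast_mul, e1] at h1
    exact_mod_cast h1
  have hcard := card_fib hHf S
    (fun (J : Finset ℤ) (p : ℤ × ℤ) => (p.1 * (∏ Q ∈ J, Q) ^ 2, p.2 * (∏ Q ∈ J, Q) ^ 3)) (G := G) (by
      intro p hp
      obtain ⟨J, hJ, hsel⟩ := selR H hLB' M R hM hemb hS hp.1 hp.2 hT hG hsp hδ hdis
      refine ⟨J, hJ, ?_⟩
      have hcrv := hCRV X Hh S T s A B p.1 p.2 hS hT hp.1 J hJ hbd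
      have h6M : (6 : M) ≠ 0 := by norm_num
      have hdM : 4 * (((p.1 * (∏ Q ∈ J, Q) ^ 2 : ℤ)) : M) ^ 3 +
          27 * (((p.2 * (∏ Q ∈ J, Q) ^ 3 : ℤ)) : M) ^ 2 ≠ 0 := by
        have h1 := hcrv.disc
        exact_mod_cast h1
      obtain ⟨h2, h3⟩ := hGFR M R _ _ h6M hdM hsel
      exact ⟨hcrv, hsel, h2, hFINM M _ _ hdM h2, h3⟩) (by
      intro J hJ x hx y hy hxy
      have hD0 : (∏ Q ∈ J, Q) ≠ 0 := by
        rw [Finset.prod_ne_zero_iff]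
        exact fun Q hQ => (hS Q (hJ hQ)).1.2.ne_zero
      rw [Prod.mk.injEq] at hxy
      exact twist_inj hD0 hxy.1 hxy.2)
  have hcard' : (G.ncard : ℝ) ≤ 2 ^ S.card * Hs.ncard := by exact_mod_cast hcard
  calc c / 2 ^ S.card * (X : ℝ) ^ 5
      = c * (X : ℝ) ^ 5 / 2 ^ S.card := by ring
    _ ≤ (G.ncard : ℝ) / 2 ^ S.card := by gcongr
    _ ≤ (2 ^ S.card * Hs.ncard) / 2 ^ S.card := by gcongr
    _ = Hs.ncard := by field_simp

end Pool.Agent.N922.PQ
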