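import Pool.Agent.N922.PQ.Stm2
import Pool.Agent.N922.PQ.Cnt

/-!
# The 2-Selmer group over an extension in which `2` is unramified

Project PV (helper922).
-/

set_option autoImplicit false
set_option linter.all false

open Polynomial IsDedekindDomain WeierstrassCurve WeierstrassCurve.Affine NumberField
open Pool.Agent.TH115.GD
open scoped Classical IntermediateField

namespace Pool.Agent.N922.PQ

open Pool.Agent.N874.PP (Tup chA chB gq tau Two Ev Sq1 U0 sW IsBeta Rt)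
open Pool.Agent.N874.PM (PLoc Lies SelR ShaR)

/-- The further parts. -/
structure Parts2 : Prop where
  p : Parts
  nr : S_NR
  sqd : S_SQD
  twg : S_TWG
  c2w : S_C2W
  ud : S_UD

theorem pl_congr {F : Type} [Field F] {a b : ℤ} {h h' : F[X]} (hd : ff F a b ∣ h - h')
    (H : PL F a b h) : PL F a b h' := by
  rcases H with ⟨g, hg⟩ | ⟨x, y, hy, hxy, g, hg⟩
  · left
    refine ⟨g, ?_⟩
    have e : h' - g ^ 2 = (h - g ^ 2) - (h - h') := by ring
    rw [e]
    exact dvd_sub hg hd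
  · right
    refine ⟨x, y, hy, hxy, g, ?_⟩
    have e : (C x - X) * h' - g ^ 2 = ((C x - X) * h - g ^ 2) - (C x - X) * (h - h') := by ring
    rw [e]
    exact dvd_sub hg (dvd_mul_of_dvd_right hd _)

theorem no_root_tw' {F : Type} [Field F] [CharZero F] {a b : ℤ}
    (h2 : ∀ t : F, t ^ 3 + (a : F) * t + (b : F) ≠ 0) {D : ℤ} (hD : D ≠ 0) (t : F) :
    t ^ 3 + (((a * D ^ 2 : ℤ)) : F) * t + (((b * D ^ 3 : ℤ)) : F) ≠ 0 := by
  intro h1
  have hD' : (D : F) ≠ 0 := by exact_mod_cast hD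
  apply h2 (t / D)
  push_cast at h1
  field_simp
  linear_combination h1

theorem irr_tw' {F : Type} [Field F] {a b : ℤ}
    (h2 : ∀ t : F, t ^ 3 + (a : F) * t + (b : F) ≠ 0) :
    Irreducible (X ^ 3 + C (a : F) * X + C (b : F) : F[X]) := by
  have hm : (X ^ 3 + C (a : F) * X + C (b : F) : F[X]).Monic := by monicity!
  have hd : (X ^ 3 + C (a : F) * X + C (b : F) : F[X]).natDegree = 3 := by
    compute_degree!
  rw [Monic.irreducible_iff_roots_eq_zero_of_degree_le_three hm (by omega) (by omega)]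
  rw [Multiset.eq_zero_iff_forall_notMem]
  intro t ht
  have ht' := (mem_roots hm.ne_zero).1 ht
  apply h2 t
  simpa [IsRoot.def] using ht'

/-- There is a prime over `2`. -/
theorem exists_over (R : Type) [CommRing R] [IsDedekindDomain R] [Algebra.IsIntegral ℤ R]
    [CharZero R] : ∃ w : HeightOneSpectrum R, Ov 2 w := by
  haveI : (Ideal.span {(2 : ℤ)}).IsMaximal :=
    PrincipalIdealRing.isMaximal_of_irreducible Int.prime_two.irreducible
  have hker : RingHom.ker (algebraMap ℤ R) ≤ Ideal.span {(2 : ℤ)} := by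
    have hinj : Function.Injective (algebraMap ℤ R) := by
      intro m n h
      simpa using h
    rw [(RingHom.injective_iff_ker_eq_bot _).1 hinj]
    exact bot_le
  obtain ⟨Q, hQ, hQ'⟩ := Ideal.exists_ideal_over_maximal_of_isIntegral (S := R)
    (Ideal.span {(2 : ℤ)}) hker
  have h2 : (2 : R) ∈ Q := by
    have h3 : (2 : ℤ) ∈ Q.comap (algebraMap ℤ R) := by
      rw [hQ']
      exact Ideal.mem_span_singleton_self _
    simpa using h3
  refine ⟨⟨Q, hQ.isPrime, ?_⟩, ?_⟩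
  · rintro rfl
    rw [Ideal.mem_bot] at h2
    exact two_ne_zero h2
  · unfold Ov
    exact_mod_cast h2

section sel2

variable {M Ω : Type} (R : Type) [Field M] [NumberField M] [Field Ω] [Algebra M Ω]
  [CommRing R] [IsDedekindDomain R] [Algebra R M] [IsFractionRing R M] [IsIntegralClosure R ℤ M]

instance charZero_comp (w : HeightOneSpectrum R) : CharZero (w.adicCompletion M) :=
  charZero_of_injective_algebraMap (algebraMap M (w.adicCompletion M)).injective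

/-- The element of a Selmer class satisfies the condition at the primes over `2`. -/
theorem c2w_sel (hGLR2 : S_GLR2) (hSQD : S_SQD) (hTWG : S_TWG) {a b D : ℤ} (hD : D ≠ 0)
    (hD8 : D % 8 = 1) (h2 : ∀ w : HeightOneSpectrum R, Ov 2 w → ∀ t : w.adicCompletion M,
      t ^ 3 + (a : w.adicCompletion M) * t + (b : w.adicCompletion M) ≠ 0) {t : Ω}
    (hmin : minpoly M t = ff M a b)
    (hdisc : 4 * (((a * D ^ 2 : ℤ)) : M) ^ 3 + 27 * (((b * D ^ 3 : ℤ)) : M) ^ 2 ≠ 0)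
    (f : (Sep M ≃ₐ[M] Sep M) → Pt (sW (((a * D ^ 2 : ℤ)) : M) (((b * D ^ 3 : ℤ)) : M)) (Sep M))
    (hf : IsCoc (sW (((a * D ^ 2 : ℤ)) : M) (((b * D ^ 3 : ℤ)) : M)) f)
    (h2f : ∀ σ, (2 : ℕ) • f σ = 0) (β : Sep M → Sep M) (h : M[X])
    (hβ : IsBeta (((a * D ^ 2 : ℤ)) : M) (((b * D ^ 3 : ℤ)) : M) f β)
    (hh : ∀ t : Sep M, Rt (((a * D ^ 2 : ℤ)) : M) (((b * D ^ 3 : ℤ)) : M) t → aeval t h = β t ^ 2)
    (hloc : ∀ v : HeightOneSpectrum R, LocTriv (sW (((a * D ^ 2 : ℤ)) : M) (((b * D ^ 3 : ℤ)) : M))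
      (Comp R M v) (Sep (Comp R M v)) f) :
    C2w M R a b t (aeval ((D : Ω) * t) h) := by
  intro w hw h' hh'
  have h6M : (6 : M) ≠ 0 := by norm_num
  have hPL := hGLR2 M R _ _ h6M hdisc f hf h2f β h hβ hh w (fun t ht => by
    apply no_root_tw' (h2 w hw) hD t
    rw [map_intCast, map_intCast] at ht
    exact ht) (hloc w)
  have h3 := hTWG M (w.adicCompletion M) a b D hD (hSQD M R w hw D hD8) h hPL
  refine pl_congr ?_ h3
  have h4 : ff M a b ∣ h.comp (C (D : M) * X) - h' := by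
    rw [← hmin]
    apply minpoly.dvd
    rw [map_sub, hh', aeval_comp, map_mul, aeval_X, aeval_C, map_intCast, sub_self]
  have h5 := Polynomial.map_dvd (algebraMap M (w.adicCompletion M)) h4
  rw [ff_map, Polynomial.map_sub] at h5
  exact h5

end sel2

section abs

variable {L M Ω : Type} (O O' R : Type) [Field L] [NumberField L] [Field M] [NumberField M]
  [Field Ω] [NumberField Ω] [Algebra L Ω] [Algebra M Ω]
  [CommRing O] [IsDedekindDomain O] [Algebra O L] [IsFractionRing O L] [IsIntegralClosure O ℤ L]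
  [CommRing O'] [IsDedekindDomain O'] [Algebra O' Ω] [IsFractionRing O' Ω]
  [IsIntegralClosure O' ℤ Ω]
  [CommRing R] [IsDedekindDomain R] [Algebra R M] [IsFractionRing R M] [IsIntegralClosure R ℤ M]
  [IsGalois ℚ M]

/-- The base of the descent. -/
theorem base_two (hUD : S_UD) {a b : ℤ} {θ : L} (hc : IsCub a b θ) (ha : Odd a)
    (h4 : (4 : ℤ) ∣ a - b)
    (hur : ∀ w : HeightOneSpectrum R, Ov 2 w → w.valuation M 2 = WithZero.exp (-1 : ℤ))
    {x : L} (hx : x ≠ 0) (hN : IsSquare (Algebra.norm ℚ x))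
    (hC : C2w M R a b (algebraMap L Ω θ) (algebraMap L Ω x)) : Loc2 a b θ x := by
  haveI : Algebra.IsIntegral ℤ R := IsIntegralClosure.isIntegral_algebra ℤ M
  haveI : CharZero R := charZero_of R M
  obtain ⟨w, hw⟩ := exists_over R
  have hv2 : Valued.v (2 : w.adicCompletion M) = WithZero.exp (-1 : ℤ) := by
    have h1 := HeightOneSpectrum.valuedAdicCompletion_eq_valuation' (K := M) w (2 : M)
    rw [hur w hw] at h1
    have e : ((2 : M) : w.adicCompletion M) = 2 := by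
      have := map_ofNat (algebraMap M (w.adicCompletion M)) 2
      exact this
    rw [e] at h1
    exact h1
  refine hUD L a b θ hc ha h4 x hx hN (w.adicCompletion M) (WithZero (Multiplicative ℤ)) Valued.v
    ?_ ?_ ?_
  · rw [hv2, ← WithZero.exp_zero, WithZero.exp_lt_exp]
    norm_num
  · intro z hz
    rw [hv2]
    by_cases h0 : Valued.v z = 0
    · rw [h0]
      exact zero_le'
    · rw [← WithZero.exp_log h0, ← WithZero.exp_zero, WithZero.exp_lt_exp] at hz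
      rw [← WithZero.exp_log h0, WithZero.exp_le_exp]
      omega
  · intro h hh
    have h1 := hC w hw (h.map (algebraMap ℚ M)) (by
      rw [aeval_map_algebraMap, aeval_algebraMap_apply, hh])
    rw [Polynomial.map_map] at h1
    have e : (algebraMap M (w.adicCompletion M)).comp (algebraMap ℚ M) =
        algebraMap ℚ (w.adicCompletion M) := RingHom.ext_rat _ _
    rw [e] at h1
    exact h1

include Ω O O' in
theorem selR_abs2 (H : Parts2) {κ : ℕ} (hLB : LBk κ) {a b : ℤ} {θ : L} {X' : ℕ}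
    {S T : Finset ℤ} {s A B : ℤ → ℤ} (hc : IsCub a b θ) (hS : GoodS S s)
    (hF : Fam X' S s T A B a b) (h4 : (4 : ℤ) ∣ a - b) (hnb : ¬ LBad κ X' S s a b)
    (hT : GoodT T A B)
    {γ : M} {g : ℤ[X]} {δ : ℤ} (hG : Gen ℚ γ g δ)
    (hG' : Gen L (algebraMap M Ω γ) g δ) (hsp : ∀ Q ∈ S, SplitMod Q g)
    (hδ : ∀ P : ℤ, IsPr P → P ∣ δ → P ∈ T) (hdis : Disjoint S T)
    {n : ℕ} (hM : Module.finrank ℚ M = 2 ^ n) (hΩ : Module.finrank M Ω = 3)
    (htop : M⟮algebraMap L Ω θ⟯ = ⊤) (ha : Odd a) (hb : Odd b)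
    (hur : ∀ w : HeightOneSpectrum R, Ov 2 w → w.valuation M 2 = WithZero.exp (-1 : ℤ)) :
    ∃ J ⊆ S, SelR R (sW (((a * (∏ Q ∈ J, Q) ^ 2 : ℤ)) : M) (((b * (∏ Q ∈ J, Q) ^ 3 : ℤ)) : M)) := by
  haveI : Algebra.IsIntegral ℤ R := IsIntegralClosure.isIntegral_algebra ℤ M
  haveI : Algebra.IsIntegral ℤ O' := IsIntegralClosure.isIntegral_algebra ℤ Ω
  haveI : Algebra.IsIntegral ℤ O := IsIntegralClosure.isIntegral_algebra ℤ L
  haveI : CharZero R := charZero_of R M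
  haveI : CharZero O' := charZero_of O' Ω
  haveI : CharZero O := charZero_of O L
  have h6M : (6 : M) ≠ 0 := by norm_num
  have h2K : (2 : ℚ) ≠ 0 := by norm_num
  have hT' : ∀ P ∈ T, IsPr P := fun P hP => (hT.2.2 P hP).1
  have hnr : ∀ w : HeightOneSpectrum R, Ov 2 w → ∀ t : w.adicCompletion M,
      t ^ 3 + (a : w.adicCompletion M) * t + (b : w.adicCompletion M) ≠ 0 :=
    fun w hw => H.nr M R n hM w hw a b ha hb
  obtain ⟨J, hJ, hsel⟩ := core2 (L := L) O H.p.cls H.p.exq H.p.ns H.p.lin H.p.recp H.p.plm H.p.sd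
    H.p.ttv hLB hc hS hT hF hnb
  refine ⟨J, hJ, ?_⟩
  have hD1 : 0 < (∏ Q ∈ J, Q) := Finset.prod_pos fun Q hQ => (hS Q (hJ hQ)).1.1
  have hD0 : (∏ Q ∈ J, Q) ≠ 0 := hD1.ne'
  have hD8 : (∏ Q ∈ J, Q) % 8 = 1 := prod_mod8 fun Q hQ => (hS Q (hJ hQ)).2.1
  intro f hf h2f hloc
  obtain ⟨w₀, hw₀⟩ := exists_over R
  have hirrD := irr_tw' (F := M) (a := a * (∏ Q ∈ J, Q) ^ 2) (b := b * (∏ Q ∈ J, Q) ^ 3)
    (fun t ht => by
      apply no_root_tw' (hnr w₀ hw₀) hD0 (algebraMap M _ t)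
      have h1 := congrArg (algebraMap M (w₀.adicCompletion M)) ht
      rw [map_zero, map_add, map_add, map_mul, map_pow, map_intCast, map_intCast] at h1
      exact h1)
  have hdisc : 4 * (((a * (∏ Q ∈ J, Q) ^ 2 : ℤ)) : M) ^ 3 +
      27 * (((b * (∏ Q ∈ J, Q) ^ 3 : ℤ)) : M) ^ 2 ≠ 0 := by
    have e : 4 * (((a * (∏ Q ∈ J, Q) ^ 2 : ℤ)) : M) ^ 3 +
      27 * (((b * (∏ Q ∈ J, Q) ^ 3 : ℤ)) : M) ^ 2 =
        (((∏ Q ∈ J, Q) ^ 6 * dsc a b : ℤ) : M) := by
      simp only [dsc, Int.cast_mul, Int.cast_add, Int.cast_pow, Int.cast_ofNat]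
      ring
    rw [e, Int.cast_ne_zero]
    exact mul_ne_zero (pow_ne_zero _ hD0) hF.sq.ne_zero
  have hroot : (algebraMap L Ω θ) ^ 3 + (a : Ω) * algebraMap L Ω θ + (b : Ω) = 0 := by
    have h1 := congrArg (algebraMap L Ω) hc.root
    rw [map_zero, map_add, map_add, map_mul, map_pow, map_intCast, map_intCast] at h1
    exact h1
  have hmin : minpoly M (algebraMap L Ω θ) = ff M a b := by
    haveI : FiniteDimensional M Ω := FiniteDimensional.of_finrank_pos (by rw [hΩ]; norm_num)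
    have hint : IsIntegral M (algebraMap L Ω θ) := Algebra.IsIntegral.isIntegral _
    have hd : minpoly M (algebraMap L Ω θ) ∣ ff M a b := by
      apply minpoly.dvd
      simp only [ff, map_add, map_mul, map_pow, aeval_X, aeval_C, map_intCast]
      exact hroot
    have hdeg : (minpoly M (algebraMap L Ω θ)).natDegree = 3 := by
      rw [(Field.primitive_element_iff_minpoly_natDegree_eq M _).1 htop, hΩ]
    exact (Polynomial.eq_of_monic_of_dvd_of_natDegree_le (minpoly.monic hint) (ff_monic M a b) hd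
      (by rw [hdeg, ff_deg])).symm
  obtain ⟨β, hβ⟩ := H.p.gb M _ _ h6M hdisc hirrD f hf h2f
  obtain ⟨h, hh, hn⟩ := H.p.gn M _ _ h6M hdisc hirrD f hf h2f β hβ
  have hRt : Rt (((a * (∏ Q ∈ J, Q) ^ 2 : ℤ)) : M)
      (((b * (∏ Q ∈ J, Q) ^ 3 : ℤ)) : M)
      (((∏ Q ∈ J, Q : ℤ) : Ω) * algebraMap L Ω θ) := by
    unfold Rt
    rw [map_intCast, map_intCast]
    simp only [Int.cast_mul, Int.cast_pow]
    linear_combination ((∏ Q ∈ J, Q : ℤ) : Ω) ^ 3 * hroot
  have hn2 := hn Ω _ hRt hΩ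
  have hcnd := cnd_top O O' R H.p.exq H.p.ur H.p.spd H.p.lie H.p.loc1 H.p.loc2 hc hS hF hG hG' hsp
    hT hδ hdis hJ (h := h)
    (fun w hw => H.p.glr M R _ _ h6M hdisc f hf h2f β h hβ hh w (val_two hw) (hloc w)) hn2.1
  have hc2 := c2w_sel R H.p.glr2 H.sqd H.twg hD0 hD8 hnr hmin hdisc f hf h2f β h hβ hh hloc
  obtain ⟨c1, c2, c3⟩ := H.c2w L M Ω R a b θ hF.sq.ne_zero hnr hc hΩ htop
  have hsq := H.p.tow n ℚ L M Ω h2K hM hc.rank hΩ
    (fun x => Cnd O' J T (algebraMap L Ω θ) x ∧ C2w M R a b (algebraMap L Ω θ) x)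
    (fun x hx => ⟨cnd_sq hx, c1 x⟩)
    (fun x y hx hy h h' => ⟨cnd_mul H.p.cls (fun Q hQ => ⟨(hS Q (hJ hQ)).1.2,
        not_dvd_two (hS Q (hJ hQ)).2.1 (hS Q (hJ hQ)).1.1 (hS Q (hJ hQ)).1.2⟩)
      (fun Q hQ 𝔓 h1 h2 => odd_top O O' H.p.exq H.p.ur hc hF.sq hG' (hS Q (hJ hQ)).1.2
        (hF.rb Q (hJ hQ)) (fam_ns hS hF (hJ hQ)) 𝔓 h1
        (not_ov_delta hδ hS hT' hdis (hJ hQ) h1) h2) hx hy h.1 h'.1, c2 x y h.2 h'.2⟩)
    (fun σ x h => ⟨cnd_sig H.p.sig rfl σ h.1, c3 σ x h.2⟩)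
    (fun x hx hC hN => base_sq O O' hsel (H.p.ur L Ω O O' _ g δ hG').2
      (fun Q hQ => H.p.spd L Ω O' _ g δ hG' Q (hS Q (hJ hQ)).1.2 (hsp Q (hJ hQ)))
      (fun P hP => H.p.p3 L O a b θ hc hF.sq P (hT' P hP).2 (fam_nt hT hF hP))
      (fun 𝔓 h => ov_delta hδ h)
      (fun Q hQ 𝔓 h => not_ov_delta hδ hS hT' hdis (hJ hQ) h) hx hC.1
      (base_two R H.ud hc ha h4 hur hx hN hC.2) hN)
    _ hn2.1 ⟨hcnd, hc2⟩ hn2.2
  exact H.p.gt M _ _ h6M hdisc hirrD f hf h2f β h hβ hh _ _ hRt hΩ hsq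

end abs

/-- Oddness of `a` and `b`. -/
theorem odd_of {a b : ℤ} (h : ∀ z : ℤ, ¬ (2 : ℤ) ∣ z ^ 3 + a * z + b) : Odd a ∧ Odd b := by
  have h0 := h 0
  have h1 := h 1
  have e0 : (0 : ℤ) ^ 3 + a * 0 + b = b := by ring
  have e1 : (1 : ℤ) ^ 3 + a * 1 + b = 1 + a + b := by ring
  rw [e0] at h0
  rw [e1] at h1
  constructor
  · rw [Int.odd_iff]
    omega
  · rw [Int.odd_iff]
    omega

/-- The theorem on the Selmer group over `M`. -/
theorem selR2 (H : Parts2) {κ : ℕ} (hLB : LBk κ) (M : Type) [Field M] [NumberField M]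
    [IsGalois ℚ M] (R : Type) [CommRing R] [IsDedekindDomain R] [Algebra R M]
    [IsFractionRing R M] [IsIntegralClosure R ℤ M] {n : ℕ}
    (hM : Module.finrank ℚ M = 2 ^ n)
    (hur : ∀ w : HeightOneSpectrum R, Ov 2 w → w.valuation M 2 = WithZero.exp (-1 : ℤ))
    {a b : ℤ} {X' : ℕ}
    {S T : Finset ℤ} {s A B : ℤ → ℤ} (hS : GoodS S s)
    (hF : Fam X' S s T A B a b) (h4 : (4 : ℤ) ∣ a - b) (hnb : ¬ LBad κ X' S s a b)
    (hT : GoodT T A B)
    {γ : M} {g : ℤ[X]} {δ : ℤ} (hG : Gen ℚ γ g δ) (hsp : ∀ Q ∈ S, SplitMod Q g)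
    (hδ : ∀ P : ℤ, IsPr P → P ∣ δ → P ∈ T) (hdis : Disjoint S T) :
    ∃ J ⊆ S, SelR R (sW (((a * (∏ Q ∈ J, Q) ^ 2 : ℤ)) : M) (((b * (∏ Q ∈ J, Q) ^ 3 : ℤ)) : M)) := by
  haveI : Algebra.IsIntegral ℤ R := IsIntegralClosure.isIntegral_algebra ℤ M
  haveI : CharZero R := charZero_of R M
  have hnt2 : ∀ z : ℤ, ¬ (2 : ℤ) ∣ z ^ 3 + a * z + b := fam_nt hT hF hT.1
  obtain ⟨ha, hb⟩ := odd_of hnt2
  obtain ⟨w₀, hw₀⟩ := exists_over R
  have hnr := H.nr M R n hM w₀ hw₀ a b ha hb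
  have hnrM : ∀ t : M, t ^ 3 + (a : M) * t + (b : M) ≠ 0 := by
    intro t ht
    apply hnr (algebraMap M _ t)
    have h1 := congrArg (algebraMap M (w₀.adicCompletion M)) ht
    rw [map_zero, map_add, map_add, map_mul, map_pow, map_intCast, map_intCast] at h1
    exact h1
  have hirrM : Irreducible (ff M a b) := irr_tw' hnrM
  have hirr : Irreducible (ff ℚ a b) := by
    refine irr_tw' fun t ht => hnrM (algebraMap ℚ M t) ?_
    have h1 := congrArg (algebraMap ℚ M) ht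
    rw [map_zero, map_add, map_add, map_mul, map_pow, map_intCast, map_intCast] at h1
    exact h1
  obtain ⟨L, iF, iN, θ, hc, hu⟩ := exists_cub hirr
  obtain ⟨Ω, iF', iA', t, ht, hr, htop, hfin⟩ := exists_field hirrM (ff_monic M a b) (ff_deg M a b)
  haveI : CharZero Ω := charZero_of_injective_algebraMap (algebraMap M Ω).injective
  haveI : FiniteDimensional ℚ Ω := FiniteDimensional.trans ℚ M Ω
  haveI : NumberField Ω := ⟨⟩
  have ht' : t ^ 3 + (a : Ω) * t + (b : Ω) = 0 := by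
    simp only [ff, map_add, map_mul, map_pow, aeval_X, aeval_C, map_intCast] at ht
    exact ht
  obtain ⟨φ, hφ⟩ := hu Ω t ht'
  letI : Algebra L Ω := φ.toAlgebra
  have hroot : algebraMap L Ω θ = t := hφ
  have htop' : M⟮algebraMap L Ω θ⟯ = ⊤ := by rw [hroot]; exact htop
  have hG' : Gen L (algebraMap M Ω γ) g δ := by
    refine ⟨top_up (K := ℚ) hG.top htop', hG.monic, ?_, hG.ne, hG.comb⟩
    rw [aeval_algebraMap_apply, hG.root, map_zero]
  exact selR_abs2 (𝓞 L) (𝓞 Ω) R H hLB hc hS hF h4 hnb hT hG hG' hsp hδ hdis hM hr htop' ha hb hur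

end Pool.Agent.N922.PQ
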