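import Pool.Agent.N922.PQ.Big6
import Pool.Agent.N922.PQ.Odd

/-!
# A positive proportion over a Galois 2-extension of `ℚ` in which `2` is unramified: counting

Project PV (helper922).
-/

set_option autoImplicit false
set_option linter.all false

open Polynomial IsDedekindDomain WeierstrassCurve WeierstrassCurve.Affine NumberField
open Pool.Agent.TH115.GD
open scoped Classical IntermediateField

namespace Pool.Agent.N922.PQ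

open Pool.Agent.N874.PP (Tup chA chB gq tau Two Ev Sq1 U0 sW IsBeta Rt)
open Pool.Agent.N874.PM (PLoc Lies SelR ShaR)

/-- Many curves of the family are not bad. -/
theorem good_card2 (hFAM : S_FAM2) (hBAD : S_BAD) (κ : ℕ) {T : Finset ℤ} {A B : ℤ → ℤ}
    (hT : GoodT T A B) (Φ : ℤ → Prop)
    (hEX : ∀ r : ℕ, ∃ (S : Finset ℤ) (s : ℤ → ℤ), GoodS S s ∧ S.card = r ∧ Disjoint S T ∧
      ∀ Q ∈ S, Φ Q) :
    ∃ (S : Finset ℤ) (s : ℤ → ℤ) (c : ℝ), GoodS S s ∧ Disjoint S T ∧ (∀ Q ∈ S, Φ Q) ∧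
      0 < c ∧ ∃ X₀ : ℕ, ∀ X ≥ X₀,
      c * (X : ℝ) ^ 5 ≤ ({p : ℤ × ℤ | (Fam X S s T A B p.1 p.2 ∧ (4 : ℤ) ∣ p.1 - p.2) ∧
        ¬ LBad κ X S s p.1 p.2}.ncard : ℝ) := by
  obtain ⟨c, hc, hfam⟩ := hFAM T A B hT
  obtain ⟨K, hK⟩ := hBAD κ
  obtain ⟨r, hr⟩ : ∃ r : ℕ, 2 * (K : ℝ) / c < 2 ^ r :=
    pow_unbounded_of_one_lt _ (by norm_num)
  obtain ⟨S, s, hS, hcard, hdis, hΦ⟩ := hEX r
  obtain ⟨X₁, h1⟩ := hfam S s hS hdis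
  obtain ⟨X₂, h2⟩ := hK S s hS
  set P : ℝ := ∏ Q ∈ S, (Q : ℝ) ^ 2 with hP
  have hP0 : 0 < P := Finset.prod_pos fun Q hQ => by
    have : (0 : ℝ) < Q := by exact_mod_cast (hS Q hQ).1.1
    positivity
  refine ⟨S, s, c / (2 * P), hS, hdis, hΦ, by positivity, max X₁ X₂, fun X hX => ?_⟩
  have hF := h1 X ((le_max_left _ _).trans hX)
  obtain ⟨hfin, hB⟩ := h2 X ((le_max_right _ _).trans hX)
  have hd := Set.le_ncard_diff {p : ℤ × ℤ | LBad κ X S s p.1 p.2}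
    {p : ℤ × ℤ | Fam X S s T A B p.1 p.2 ∧ (4 : ℤ) ∣ p.1 - p.2} hfin
  have e : {p : ℤ × ℤ | Fam X S s T A B p.1 p.2 ∧ (4 : ℤ) ∣ p.1 - p.2} \
      {p : ℤ × ℤ | LBad κ X S s p.1 p.2} =
      {p : ℤ × ℤ | (Fam X S s T A B p.1 p.2 ∧ (4 : ℤ) ∣ p.1 - p.2) ∧
        ¬ LBad κ X S s p.1 p.2} := rfl
  rw [e] at hd
  set F : ℕ := {p : ℤ × ℤ | Fam X S s T A B p.1 p.2 ∧ (4 : ℤ) ∣ p.1 - p.2}.ncard
  set Bd : ℕ := {p : ℤ × ℤ | LBad κ X S s p.1 p.2}.ncard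
  set G : ℕ := {p : ℤ × ℤ | (Fam X S s T A B p.1 p.2 ∧ (4 : ℤ) ∣ p.1 - p.2) ∧
    ¬ LBad κ X S s p.1 p.2}.ncard
  have hd' : (F : ℝ) ≤ Bd + G := by
    have : F ≤ Bd + G := by omega
    exact_mod_cast this
  have hB' : (2 : ℝ) ^ r * P * Bd ≤ K * (X : ℝ) ^ 5 := by
    rw [hcard] at hB
    have h3 : ((2 ^ r * (∏ Q ∈ S, Q) ^ 2 * (Bd : ℤ) : ℤ) : ℝ) ≤ ((K * X ^ 5 : ℤ) : ℝ) := by
      exact_mod_cast hB
    have e2 : ((2 ^ r * (∏ Q ∈ S, Q) ^ 2 * (Bd : ℤ) : ℤ) : ℝ) = (2 : ℝ) ^ r * P * Bd := by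
      rw [hP, Finset.prod_pow]
      push_cast
      ring
    rw [e2] at h3
    refine h3.trans (le_of_eq ?_)
    push_cast
    ring
  have hF' : c * (X : ℝ) ^ 5 ≤ P * F := hF
  rw [div_lt_iff₀ hc] at hr
  have hPB : P * (Bd : ℝ) ≤ c / 2 * (X : ℝ) ^ 5 := by
    have h2r : (0 : ℝ) < 2 ^ r := by positivity
    rw [← mul_le_mul_iff_right₀ h2r]
    calc 2 ^ r * (P * (Bd : ℝ)) = 2 ^ r * P * Bd := by ring
      _ ≤ K * (X : ℝ) ^ 5 := hB'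
      _ = (2 * (K : ℝ)) * ((X : ℝ) ^ 5 / 2) := by ring
      _ ≤ (2 ^ r * c) * ((X : ℝ) ^ 5 / 2) := by gcongr
      _ = 2 ^ r * (c / 2 * (X : ℝ) ^ 5) := by ring
  have hPG : c / 2 * (X : ℝ) ^ 5 ≤ P * G := by
    have : (P : ℝ) * F ≤ P * Bd + P * G := by
      rw [← mul_add]
      exact mul_le_mul_of_nonneg_left hd' hP0.le
    linarith
  calc c / (2 * P) * (X : ℝ) ^ 5 = c / 2 * (X : ℝ) ^ 5 / P := by
        field_simp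
    _ ≤ P * G / P := by gcongr
    _ = G := by field_simp

/-- The 2-Selmer group over `M` is zero, there are no points over `M` but the point at infinity, and the
2-primary part of the Tate-Shafarevich group over `M` is zero. -/
def GoodV {M : Type} [Field M] (R : Type) [CommRing R]
    [IsDedekindDomain R] [Algebra R M] [IsFractionRing R M] (p : ℤ × ℤ) : Prop :=
  SelR R (sW (p.1 : M) (p.2 : M)) ∧ Subsingleton (Pt (sW (p.1 : M) (p.2 : M)) M) ∧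
    ShaR R (sW (p.1 : M) (p.2 : M))

/-- The main theorem from the parts; with a bound of order `X ^ 5`. -/
theorem mainV (H : Parts2) (hLB : S_LB) (hFAM : S_FAM2) (hBAD : S_BAD)
    (hTCH : S_TCH) (hGEN : S_GEN) (hSPL : S_SPL) (hGFR : Pool.Agent.N874.PM.S_GFR)
    (hFINM : S_FINM) (hTOR : S_TOR) (hCRV : S_CRV)
    (M : Type) [Field M] [NumberField M]
    [IsGalois ℚ M] (R : Type) [CommRing R] [IsDedekindDomain R] [Algebra R M]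
    [IsFractionRing R M] [IsIntegralClosure R ℤ M] {n : ℕ}
    (hM : Module.finrank ℚ M = 2 ^ n)
    (hur : ∀ w : HeightOneSpectrum R, Ov 2 w → w.valuation M 2 = WithZero.exp (-1 : ℤ)) :
    ∃ (P X₀ : ℕ) (c : ℝ), 0 < c ∧ 1 ≤ P ∧ ∀ X : ℕ, X₀ ≤ X → ∀ H : ℕ, 27 * (X * P) ^ 6 ≤ H →
      c * (X : ℝ) ^ 5 ≤ ({p : ℤ × ℤ | Crv H p.1 p.2 ∧ GoodV (M := M) R p}.ncard : ℝ) := by
  haveI : Algebra.IsIntegral ℤ R := IsIntegralClosure.isIntegral_algebra ℤ M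
  haveI : CharZero R := charZero_of R M
  obtain ⟨w₀, hw₀⟩ := exists_over R
  obtain ⟨κ, hLB'⟩ := hLB
  obtain ⟨γ, g, δ, hG, hdeg⟩ := hGEN M
  -- the prime divisors of `δ`
  obtain ⟨T₀, hT₀, hδ₀⟩ : ∃ T : Finset ℤ, (∀ P ∈ T, IsPr P) ∧
      ∀ P : ℤ, IsPr P → P ∣ δ → P ∈ T := by
    have hf : {P : ℤ | IsPr P ∧ P ∣ δ}.Finite := by
      refine (Set.finite_Icc (-|δ|) |δ|).subset ?_
      rintro P ⟨-, h⟩
      have h3 : |P| ≤ |δ| := Int.le_of_dvd (abs_pos.2 hG.ne) ((abs_dvd_abs P δ).2 h)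
      exact abs_le.1 h3
    refine ⟨hf.toFinset, fun P hP => ?_, fun P h1 h2 => ?_⟩
    · exact (hf.mem_toFinset.1 hP).1
    · exact hf.mem_toFinset.2 ⟨h1, h2⟩
  obtain ⟨T, A, B, hTT, hT⟩ := hTCH T₀ hT₀
  have hδ : ∀ P : ℤ, IsPr P → P ∣ δ → P ∈ T := fun P h1 h2 => hTT (hδ₀ P h1 h2)
  obtain ⟨S, s, c, hS, hdis, hsp, hc, X₀, hX₀⟩ := good_card2 hFAM hBAD κ hT
    (fun Q => SplitMod Q g) (hSPL M γ g δ hG hdeg T)
  have hSpos : 0 < ∏ Q ∈ S, Q := Finset.prod_pos fun Q hQ => (hS Q hQ).1.1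
  refine ⟨(∏ Q ∈ S, Q).toNat, X₀, c / 2 ^ S.card,
    by positivity, by omega, fun X hX Hh hHh => ?_⟩
  have hN := hX₀ X hX
  set Hs := {p : ℤ × ℤ | Crv Hh p.1 p.2 ∧ GoodV (M := M) R p} with hH
  set G := {p : ℤ × ℤ | (Fam X S s T A B p.1 p.2 ∧ (4 : ℤ) ∣ p.1 - p.2) ∧
    ¬ LBad κ X S s p.1 p.2} with hG'
  have hHf : Hs.Finite := (crv_fin Hh).subset fun p hp => hp.1
  have hbd : 27 * ((X : ℤ) * ∏ Q ∈ S, Q) ^ 6 ≤ Hh := by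
    have h1 : ((27 * (X * (∏ Q ∈ S, Q).toNat) ^ 6 : ℕ) : ℤ) ≤ Hh := by exact_mod_cast hHh
    have e1 : (((∏ Q ∈ S, Q).toNat : ℕ) : ℤ) = ∏ Q ∈ S, Q := Int.toNat_of_nonneg hSpos.le
    rw [Nat.cast_mul, Nat.cast_pow, Nat.cast_mul, e1] at h1
    exact_mod_cast h1
  have hcard := card_fib hHf S
    (fun (J : Finset ℤ) (p : ℤ × ℤ) => (p.1 * (∏ Q ∈ J, Q) ^ 2, p.2 * (∏ Q ∈ J, Q) ^ 3)) (G := G) (by
      rintro p ⟨⟨hpF, hp4⟩, hnb⟩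
      obtain ⟨J, hJ, hsel⟩ := selR2 H hLB' M R hM hur hS hpF hp4 hnb hT hG hsp hδ hdis
      refine ⟨J, hJ, ?_⟩
      have hcrv := hCRV X Hh S T s A B p.1 p.2 hS hT hpF J hJ hbd
      have h6M : (6 : M) ≠ 0 := by norm_num
      have hdM : 4 * (((p.1 * (∏ Q ∈ J, Q) ^ 2 : ℤ)) : M) ^ 3 +
          27 * (((p.2 * (∏ Q ∈ J, Q) ^ 3 : ℤ)) : M) ^ 2 ≠ 0 := by
        have h1 := hcrv.disc
        exact_mod_cast h1
      obtain ⟨h2, h3⟩ := hGFR M R _ _ h6M hdM hsel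
      have hfin := hFINM M _ _ hdM h2
      have hD8 : (∏ Q ∈ J, Q) % 8 = 1 := prod_mod8 fun Q hQ => (hS Q (hJ hQ)).2.1
      obtain ⟨ha, hb⟩ := odd_of (fam_nt hT hpF hT.1)
      have hAodd : Odd (p.1 * (∏ Q ∈ J, Q) ^ 2) := by
        refine ha.mul (Odd.pow ?_)
        rw [Int.odd_iff]
        omega
      have h4 : (4 : ℤ) ∣ p.1 * (∏ Q ∈ J, Q) ^ 2 - p.2 * (∏ Q ∈ J, Q) ^ 3 := by
        obtain ⟨k, hk⟩ : ∃ k, (∏ Q ∈ J, Q) = 8 * k + 1 := ⟨(∏ Q ∈ J, Q) / 8, by omega⟩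
        obtain ⟨l, hl⟩ := hp4
        have e : p.1 = p.2 + 4 * l := by linarith
        rw [hk, e]
        exact ⟨l * (8 * k + 1) ^ 2 - 2 * k * p.2 * (8 * k + 1) ^ 2, by ring⟩
      have htor := hTOR M R w₀ (hur w₀ hw₀) _ _ hAodd h4 hfin (by
        haveI := hfin
        exact odd_card (G := Pt (sW (((p.1 * (∏ Q ∈ J, Q) ^ 2 : ℤ)) : M)
          (((p.2 * (∏ Q ∈ J, Q) ^ 3 : ℤ)) : M)) M) h2)
      exact ⟨hcrv, hsel, htor, h3⟩) (by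
      intro J hJ x hx y hy hxy
      have hD0 : (∏ Q ∈ J, Q) ≠ 0 := by
        rw [Finset.prod_ne_zero_iff]
        exact fun Q hQ => (hS Q (hJ hQ)).1.2.ne_zero
      rw [Prod.mk.injEq] at hxy
      exact twist_inj hD0 hxy.1 hxy.2)
  have hcard' : (G.ncard : ℝ) ≤ 2 ^ S.card * Hs.ncard := by exact_mod_cast hcard
  calc c / 2 ^ S.card * (X : ℝ) ^ 5
      = c * (X : ℝ) ^ 5 / 2 ^ S.card := by ring
    _ ≤ (G.ncard : ℝ) / 2 ^ S.card := by gcongr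
    _ ≤ (2 ^ S.card * Hs.ncard) / 2 ^ S.card := by gcongr
    _ = Hs.ncard := by field_simp

end Pool.Agent.N922.PQ
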