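import Pool.Agent.N922.PQ.Stm

/-!
# The relaxed Selmer group of a curve which is not bad: the version in the cubic field

Project PQ (helper922), adapted from `Pool.Agent.N874.PM.Core` (helper874).
-/

set_option autoImplicit false
set_option linter.all false

open Polynomial IsDedekindDomain NumberField
open scoped Classical IntermediateField

namespace Pool.Agent.N922.PQ

open Pool.Agent.N874.PP (Tup chA chB gq tau Two Ev Sq1 U0)

section below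

variable {O : Type} [CommRing O] [IsDedekindDomain O]

/-- A prime of `O` lies over a prime number. -/
theorem exists_below [Algebra.IsIntegral ℤ O] [CharZero O] (𝔓 : HeightOneSpectrum O) :
    ∃ P : ℤ, IsPr P ∧ Ov P 𝔓 := by
  haveI := 𝔓.isPrime
  have hne : (𝔓.asIdeal.comap (algebraMap ℤ O)) ≠ ⊥ :=
    Ideal.comap_ne_bot_of_integral_mem (I := 𝔓.asIdeal)
      (x := (Submodule.exists_mem_ne_zero_of_ne_bot 𝔓.ne_bot).choose)
      (Submodule.exists_mem_ne_zero_of_ne_bot 𝔓.ne_bot).choose_spec.2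
      (Submodule.exists_mem_ne_zero_of_ne_bot 𝔓.ne_bot).choose_spec.1
      (Algebra.IsIntegral.isIntegral _)
  haveI hp : (𝔓.asIdeal.comap (algebraMap ℤ O)).IsPrime := Ideal.comap_isPrime _ _
  obtain ⟨g, hg⟩ := (IsPrincipalIdealRing.principal (𝔓.asIdeal.comap (algebraMap ℤ O))).principal
  change _ = Ideal.span {g} at hg
  have hg0 : g ≠ 0 := by
    rintro rfl
    apply hne
    rw [hg]
    simp
  have hgp : Prime g := by
    rw [hg] at hp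
    exact (Ideal.span_singleton_prime hg0).1 hp
  have hmem : ∀ x : ℤ, g ∣ x → Ov x 𝔓 := by
    intro x hx
    have : x ∈ 𝔓.asIdeal.comap (algebraMap ℤ O) := by
      rw [hg]
      exact Ideal.mem_span_singleton.2 hx
    have h2 : algebraMap ℤ O x ∈ 𝔓.asIdeal := this
    simpa [Ov] using h2
  refine ⟨|g|, ⟨abs_pos.2 hg0, ?_⟩, hmem _ ((dvd_abs _ _).2 dvd_rfl)⟩
  exact hgp.abs

theorem isCoprime_of {P Q : ℤ} (hP : IsPr P) (hQ : IsPr Q) (hne : P ≠ Q) : IsCoprime P Q := by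
  rw [hP.2.irreducible.coprime_iff_not_dvd]
  intro hd
  have h1 : Associated P Q := hP.2.irreducible.associated_of_dvd hQ.2.irreducible hd
  rw [Int.associated_iff] at h1
  rcases h1 with h | h
  · exact hne h
  · have := hP.1
    have := hQ.1
    omega

theorem one_mem_of {𝔓 : HeightOneSpectrum O} {P Q : ℤ} (h : IsCoprime P Q) (hP : Ov P 𝔓)
    (hQ : Ov Q 𝔓) : False := by
  obtain ⟨u, v, huv⟩ := h
  apply 𝔓.isPrime.ne_top
  rw [Ideal.eq_top_iff_one]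
  have h1 : ((u * P + v * Q : ℤ) : O) ∈ 𝔓.asIdeal := by
    push_cast
    exact Ideal.add_mem _ (Ideal.mul_mem_left _ _ hP) (Ideal.mul_mem_left _ _ hQ)
  rw [huv] at h1
  simpa using h1

/-- The prime number below is unique. -/
theorem below_unique {𝔓 : HeightOneSpectrum O} {P Q : ℤ} (hP : IsPr P) (hQ : IsPr Q) (h : Ov P 𝔓)
    (h' : Ov Q 𝔓) : P = Q := by
  by_contra hne
  exact one_mem_of (isCoprime_of hP hQ hne) h h'

end below

/-- The class of `x` at `𝔮`. -/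
noncomputable def cl {L O : Type} [Field L] [CommRing O] [IsDedekindDomain O] [Algebra O L]
    [IsFractionRing O L] (𝔮 : HeightOneSpectrum O) (ϖ x : L) : ZMod 2 × ZMod 2 :=
  (if Ev 𝔮 x then 0 else 1, if U0 𝔮 ϖ x then 0 else 1)

theorem cl_add_aux {p q r : Prop} (h : r ↔ (p ↔ q)) :
    (if r then (0 : ZMod 2) else 1) = (if p then 0 else 1) + (if q then 0 else 1) := by
  by_cases hp : p <;> by_cases hq : q
  · rw [if_pos (h.2 (by tauto)), if_pos hp, if_pos hq, add_zero]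
  · rw [if_neg (fun hr => hq ((h.1 hr).1 hp)), if_pos hp, if_neg hq, zero_add]
  · rw [if_neg (fun hr => hp ((h.1 hr).2 hq)), if_neg hp, if_pos hq, add_zero]
  · rw [if_pos (h.2 (by tauto)), if_neg hp, if_neg hq]
    decide

section loc2

/-- The cubic polynomial. -/
noncomputable def ff (F : Type) [Field F] (a b : ℤ) : F[X] := X ^ 3 + C (a : F) * X + C (b : F)

theorem ff_monic (F : Type) [Field F] (a b : ℤ) : (ff F a b).Monic := by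
  unfold ff
  monicity!

theorem ff_deg (F : Type) [Field F] (a b : ℤ) : (ff F a b).natDegree = 3 := by
  unfold ff
  compute_degree!

theorem ff_map {F F' : Type} [Field F] [Field F'] (φ : F →+* F') (a b : ℤ) :
    (ff F a b).map φ = ff F' a b := by
  simp [ff]

variable {L : Type} [Field L] [CharZero L] {a b : ℤ} {θ : L}

theorem IsCub.aeval_ff (h : IsCub a b θ) : aeval θ (ff ℚ a b) = 0 := by
  have := h.root
  simp only [ff, map_add, map_mul, map_pow, aeval_X, aeval_C]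
  simpa using this

theorem IsCub.fin (h : IsCub a b θ) : FiniteDimensional ℚ L :=
  FiniteDimensional.of_finrank_pos (by rw [h.rank]; norm_num)

theorem IsCub.minpoly_eq (h : IsCub a b θ) : minpoly ℚ θ = ff ℚ a b := by
  haveI := h.fin
  have hint : IsIntegral ℚ θ := Algebra.IsIntegral.isIntegral θ
  have hd : minpoly ℚ θ ∣ ff ℚ a b := minpoly.dvd _ _ h.aeval_ff
  have htop : ℚ⟮θ⟯ = ⊤ := by
    rw [eq_top_iff]
    rintro x -
    obtain ⟨r, s, t, rfl⟩ := h.gen x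
    have hθ := IntermediateField.mem_adjoin_simple_self ℚ θ
    have hc : ∀ q : ℚ, (q : L) ∈ ℚ⟮θ⟯ := fun q => by
      have := (ℚ⟮θ⟯).algebraMap_mem q
      simpa using this
    exact add_mem (add_mem (hc r) (mul_mem (hc s) hθ)) (mul_mem (hc t) (pow_mem hθ 2))
  have hdeg : (minpoly ℚ θ).natDegree = 3 := by
    rw [(Field.primitive_element_iff_minpoly_natDegree_eq ℚ θ).1 htop, h.rank]
  exact (Polynomial.eq_of_monic_of_dvd_of_natDegree_le (minpoly.monic hint) (ff_monic ℚ a b) hd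
    (by rw [hdeg, ff_deg])).symm

theorem IsCub.exists_poly (h : IsCub a b θ) (x : L) : ∃ p : ℚ[X], aeval θ p = x := by
  obtain ⟨r, s, t, rfl⟩ := h.gen x
  exact ⟨C r + C s * X + C t * X ^ 2, by simp⟩

theorem pl2_congr {a b : ℤ} {h h' : ℚ_[2][X]} (hd : ff ℚ_[2] a b ∣ h - h') (H : PL2 a b h) :
    PL2 a b h' := by
  rcases H with ⟨g, hg⟩ | ⟨x, y, hy, hxy, g, hg⟩
  · left
    refine ⟨g, ?_⟩
    have e : h' - g ^ 2 = (h - g ^ 2) - (h - h') := by ring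
    rw [e]
    exact dvd_sub hg hd
  · right
    refine ⟨x, y, hy, hxy, g, ?_⟩
    have e : (C x - X) * h' - g ^ 2 = ((C x - X) * h - g ^ 2) - (C x - X) * (h - h') := by ring
    rw [e]
    exact dvd_sub hg (dvd_mul_of_dvd_right hd _)

theorem loc2_mul (hPLM : S_PLM) (hc : IsCub a b θ) (h2 : ∀ z : ℤ, ¬ (2 : ℤ) ∣ z ^ 3 + a * z + b)
    {α β : L} (hα : Loc2 a b θ α) (hβ : Loc2 a b θ β) : Loc2 a b θ (α * β) := by
  intro h hh
  obtain ⟨p, hp⟩ := hc.exists_poly α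
  obtain ⟨q, hq⟩ := hc.exists_poly β
  have h1 := hPLM a b _ _ h2 (hα p hp) (hβ q hq)
  refine pl2_congr ?_ h1
  have h3 : ff ℚ a b ∣ p * q - h := by
    rw [← hc.minpoly_eq]
    apply minpoly.dvd
    rw [map_sub, map_mul, hp, hq, hh, sub_self]
  have h4 := Polynomial.map_dvd (algebraMap ℚ ℚ_[2]) h3
  rw [ff_map, Polynomial.map_sub, Polynomial.map_mul] at h4
  exact h4

theorem loc2_one (hc : IsCub a b θ) : Loc2 a b θ 1 := by
  intro h hh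
  left
  refine ⟨1, ?_⟩
  have h3 : ff ℚ a b ∣ h - 1 ^ 2 := by
    rw [← hc.minpoly_eq]
    apply minpoly.dvd
    rw [map_sub, hh, map_pow, map_one, one_pow, sub_self]
  have h4 := Polynomial.map_dvd (algebraMap ℚ ℚ_[2]) h3
  rw [ff_map, Polynomial.map_sub, Polynomial.map_pow, Polynomial.map_one] at h4
  exact h4

end loc2

theorem fam_ns {a b : ℤ} {X : ℕ} {S T : Finset ℤ} {s A B : ℤ → ℤ} (hS : GoodS S s)
    (hF : Fam X S s T A B a b) {Q : ℤ} (hQ : Q ∈ S) (z : ℤ) : ¬ Q ∣ z ^ 2 + a := by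
  intro h
  apply (hS Q hQ).2.2 z
  have := dvd_sub h (hF.ra Q hQ)
  have e : z ^ 2 + a - (a - s Q) = z ^ 2 + s Q := by ring
  rwa [e] at this

theorem fam_nt {a b : ℤ} {X : ℕ} {S T : Finset ℤ} {s A B : ℤ → ℤ} (hT : GoodT T A B)
    (hF : Fam X S s T A B a b) {P : ℤ} (hP : P ∈ T) (z : ℤ) : ¬ P ∣ z ^ 3 + a * z + b := by
  intro h
  apply (hT.2.2 P hP).2 z
  have h3 := dvd_sub (dvd_sub h (dvd_mul_of_dvd_left (hF.ta P hP) z)) (hF.tb P hP)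
  have e : z ^ 3 + a * z + b - (a - A P) * z - (b - B P) = z ^ 3 + A P * z + B P := by ring
  rwa [e] at h3

theorem not_dvd_two {Q : ℤ} (h : Q % 8 = 1) (hp : 0 < Q) (hpr : Prime Q) : ¬ Q ∣ 2 := by
  intro hd
  have h1 := Int.le_of_dvd (by norm_num) hd
  have h2 : Q = 1 := by omega
  exact hpr.ne_one h2

theorem core2 {L : Type} (O : Type) [Field L] [NumberField L] [CommRing O]
    [IsDedekindDomain O] [Algebra O L] [IsFractionRing O L] [IsIntegralClosure O ℤ L]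
    {a b : ℤ} {θ : L} {X κ : ℕ} {S T : Finset ℤ} {s A B : ℤ → ℤ} (hCLS : S_CLS) (hEXQ : S_EXQ)
    (hNS : S_NS) (hLIN : Pool.Agent.N874.PP.S_LIN) (hREC : S_REC) (hPLM : S_PLM)
    (hSD : S_SD) (hTTV : S_TTV) (hLB : ∀ (L : Type) [Field L] [NumberField L] (a b : ℤ) (θ : L)
      (X : ℕ) (S T : Finset ℤ) (s A B : ℤ → ℤ), IsCub a b θ → GoodS S s → Fam X S s T A B a b →
      ∀ (α : L) (e : Fin 3 → L), α ≠ 0 → IsSquare (Algebra.norm ℚ α) → ¬ IsSquare α → SD e α →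
      (∀ Q ∈ S, TTV Q θ e α) → LBad κ X S s a b)
    (hc : IsCub a b θ) (hS : GoodS S s) (hT : GoodT T A B)
    (hF : Fam X S s T A B a b) (hnb : ¬ LBad κ X S s a b) :
    ∃ J ⊆ S, ∀ α : L, α ≠ 0 → IsSquare (Algebra.norm ℚ α) → Loc2 a b θ α →
      (∀ 𝔓 : HeightOneSpectrum O, (∀ Q ∈ J, ¬ Ov Q 𝔓) → Ev 𝔓 α) →
      (∀ Q ∈ J, ∀ 𝔓 : HeightOneSpectrum O, Ov Q 𝔓 → 𝔓.valuation L θ = 1 →
        U0 𝔓 ((Q : L) * θ) α) →
      (∀ Q ∈ J, ∀ 𝔓 : HeightOneSpectrum O, Ov Q 𝔓 → 𝔓.valuation L θ < 1 → Ev 𝔓 α) →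
      IsSquare α := by
  have hd2 : ∀ Q ∈ S, ¬ Q ∣ 2 := fun Q hQ => not_dvd_two (hS Q hQ).2.1 (hS Q hQ).1.1 (hS Q hQ).1.2
  have hnt2 : ∀ z : ℤ, ¬ (2 : ℤ) ∣ z ^ 3 + a * z + b := fam_nt hT hF hT.1
  have hex : ∀ Q ∈ S, ∃ 𝔓₁ 𝔮 : HeightOneSpectrum O, Ov Q 𝔓₁ ∧ Ov Q 𝔮 ∧
      𝔓₁.valuation L θ < 1 ∧ 𝔮.valuation L θ = 1 ∧ ¬ Ev 𝔮 ((Q : L) * θ) ∧
      ∀ 𝔓 : HeightOneSpectrum O, Ov Q 𝔓 → 𝔓 = 𝔓₁ ∨ 𝔓 = 𝔮 := fun Q hQ =>
    hEXQ L O a b θ hc hF.sq Q (hS Q hQ).1.2 (hF.rb Q hQ) (fam_ns hS hF hQ)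
  haveI hcO : CharZero O := by
    have hinj := IsIntegralClosure.algebraMap_injective O ℤ L
    exact charZero_of_injective_algebraMap (R := O) (A := L) |> fun _ =>
      ⟨fun m n h => by
        have h2 := congrArg (algebraMap O L) h
        simpa using h2⟩
  haveI hne : Nonempty (HeightOneSpectrum O) := by
    haveI : Algebra.IsIntegral ℤ O := IsIntegralClosure.isIntegral_algebra ℤ L
    have hinj : Function.Injective (algebraMap ℤ O) := by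
      intro m n h
      simpa using h
    have hnf : ¬ IsField O := fun h => Int.not_isField
      (isField_of_isIntegral_of_isField hinj h)
    obtain ⟨m, hm⟩ := Ideal.exists_maximal O
    exact ⟨⟨m, hm.isPrime, Ring.ne_bot_of_isMaximal_of_not_isField hm hnf⟩⟩
  let 𝔭 : ℤ → HeightOneSpectrum O := fun Q =>
    if hQ : Q ∈ S then (hex Q hQ).choose else Classical.arbitrary _
  let 𝔮 : ℤ → HeightOneSpectrum O := fun Q =>
    if hQ : Q ∈ S then (hex Q hQ).choose_spec.choose else Classical.arbitrary _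
  have hpq : ∀ Q ∈ S, Ov Q (𝔭 Q) ∧ Ov Q (𝔮 Q) ∧ (𝔭 Q).valuation L θ < 1 ∧
      (𝔮 Q).valuation L θ = 1 ∧ ¬ Ev (𝔮 Q) ((Q : L) * θ) ∧
      ∀ 𝔓 : HeightOneSpectrum O, Ov Q 𝔓 → 𝔓 = 𝔭 Q ∨ 𝔓 = 𝔮 Q := by
    intro Q hQ
    have h := (hex Q hQ).choose_spec.choose_spec
    simp only [𝔭, 𝔮, dif_pos hQ]
    exact h
  -- the group `M`
  let M : Set L := {α | α ≠ 0 ∧ IsSquare (Algebra.norm ℚ α) ∧ Loc2 a b θ α ∧
    ∀ 𝔓 : HeightOneSpectrum O, (∀ Q ∈ S, 𝔓 ≠ 𝔮 Q) → Ev 𝔓 α}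
  let ψ : L → (S → ZMod 2 × ZMod 2) := fun α Q => cl (𝔮 Q) ((Q : ℤ) * θ) α
  have hϖ : ∀ Q ∈ S, (Q : L) * θ ≠ 0 := by
    intro Q hQ h0
    exact (hpq Q hQ).2.2.2.2.1 (by rw [h0]; exact ⟨0, by simp⟩)
  have hψ : ∀ α β : L, α ≠ 0 → β ≠ 0 → ψ (α * β) = ψ α + ψ β := by
    intro α β hα hβ
    funext Q
    have h := hCLS L O Q (𝔮 Q) ((Q : ℤ) * θ) (hS Q Q.2).1.2 (hd2 Q Q.2) (hpq Q Q.2).2.1
      (hϖ Q Q.2) (hpq Q Q.2).2.2.2.2.1 α β hα hβ
    exact Prod.ext (cl_add_aux h.1) (cl_add_aux h.2)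
  have hEvmul : ∀ (𝔓 : HeightOneSpectrum O) (x y : L), Ev 𝔓 x → Ev 𝔓 y → Ev 𝔓 (x * y) := by
    rintro 𝔓 x y ⟨u, hu⟩ ⟨v, hv⟩
    exact ⟨u * v, by rw [map_mul, map_mul, hu, hv, mul_pow]⟩
  have hMmul : ∀ α β, α ∈ M → β ∈ M → α * β ∈ M := by
    rintro α β ⟨h1, h2, h4, h3⟩ ⟨h1', h2', h4', h3'⟩
    refine ⟨mul_ne_zero h1 h1', ?_, loc2_mul hPLM hc hnt2 h4 h4',
      fun 𝔓 h𝔓 => hEvmul 𝔓 _ _ (h3 𝔓 h𝔓) (h3' 𝔓 h𝔓)⟩
    rw [map_mul]
    exact h2.mul h2'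
  have hM1 : (1 : L) ∈ M := ⟨one_ne_zero, by rw [map_one]; exact IsSquare.one, loc2_one hc,
    fun 𝔓 _ => ⟨1, by rw [map_one, one_pow]⟩⟩
  let Λ : AddSubgroup (S → ZMod 2 × ZMod 2) :=
    { carrier := {l | ∃ α ∈ M, ψ α = l}
      add_mem' := by
        rintro _ _ ⟨α, hα, rfl⟩ ⟨β, hβ, rfl⟩
        exact ⟨α * β, hMmul α β hα hβ, hψ α β hα.1 hβ.1⟩
      zero_mem' := by
        refine ⟨1, hM1, ?_⟩
        have h := hψ 1 1 one_ne_zero one_ne_zero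
        rw [mul_one] at h
        exact left_eq_add.1 h
      neg_mem' := by
        rintro _ ⟨α, hα, rfl⟩
        refine ⟨α, hα, ?_⟩
        rw [eq_neg_iff_add_eq_zero]
        funext Q
        exact Prod.ext (CharTwo.add_self_eq_zero _) (CharTwo.add_self_eq_zero _) }
  have hiso : ∀ l ∈ Λ, ∑ Q : S, (l Q).1 * (l Q).2 = 0 := by
    rintro _ ⟨α, hα, rfl⟩
    have h := hREC L O a b θ X S T s A B hc hS hT hF 𝔮
      (fun Q hQ => ⟨(hpq Q hQ).2.1, (hpq Q hQ).2.2.2.1⟩) α hα.1 hα.2.1 hα.2.2.1 hα.2.2.2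
    have e1 : ∑ Q : S, (ψ α Q).1 * (ψ α Q).2 = ∑ Q ∈ S,
        (if ¬ Ev (𝔮 Q) α ∧ ¬ Sq1 (𝔮 Q) (α * ((Q : L) * θ)) then (1 : ZMod 2) else 0) := by
      rw [← Finset.sum_coe_sort S]
      refine Finset.sum_congr rfl fun Q _ => ?_
      simp only [ψ, cl]
      by_cases he : Ev (𝔮 Q) α
      · rw [if_pos he, zero_mul, if_neg (fun h => h.1 he)]
      · by_cases hs : Sq1 (𝔮 Q) (α * (((Q : ℤ) : L) * θ))
        · have hu : U0 (𝔮 Q) (((Q : ℤ) : L) * θ) α := ⟨fun h => absurd h he, fun _ => hs⟩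
          rw [if_neg he, if_pos hu, mul_zero, if_neg (fun h => h.2 hs)]
        · have hu : ¬ U0 (𝔮 Q) (((Q : ℤ) : L) * θ) α := fun h => hs (h.2 he)
          rw [if_neg he, if_neg hu, mul_one, if_pos ⟨he, hs⟩]
    rw [e1, Finset.sum_ite, Finset.sum_const_zero, add_zero, Finset.sum_const, nsmul_eq_mul,
      mul_one]
    exact (ZMod.natCast_eq_zero_iff_even).2 h
  obtain ⟨J, hJ⟩ := hLIN S Λ hiso
  let J' : Finset ℤ := S.filter fun Q => ∃ h : Q ∈ S, (⟨Q, h⟩ : S) ∈ J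
  have hJ'S : J' ⊆ S := Finset.filter_subset _ _
  refine ⟨J', hJ'S, fun α hα hN hl2 hev0 hu0 hp0 => ?_⟩
  have hαM : α ∈ M := by
    refine ⟨hα, hN, hl2, fun 𝔓 h𝔓 => ?_⟩
    by_cases hex : ∃ Q ∈ J', Ov Q 𝔓
    · obtain ⟨Q, hQJ, hQ𝔓⟩ := hex
      rcases (hpq Q (hJ'S hQJ)).2.2.2.2.2 𝔓 hQ𝔓 with rfl | rfl
      · exact hp0 Q hQJ _ hQ𝔓 (hpq Q (hJ'S hQJ)).2.2.1
      · exact absurd rfl (h𝔓 Q (hJ'S hQJ))
    · exact hev0 𝔓 fun Q hQJ hQ𝔓 => hex ⟨Q, hQJ, hQ𝔓⟩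
  have hz : ψ α = 0 := by
    refine hJ _ ⟨α, hαM, rfl⟩ (fun Q hQ => ?_) (fun Q hQ => ?_)
    · have hQJ : (Q : ℤ) ∈ J' := Finset.mem_filter.2 ⟨Q.2, Q.2, hQ⟩
      exact if_pos (hu0 Q hQJ _ (hpq Q Q.2).2.1 (hpq Q Q.2).2.2.2.1)
    · have hQJ : (Q : ℤ) ∉ J' := fun h => hQ (Finset.mem_filter.1 h).2.2
      refine if_pos (hev0 (𝔮 Q) fun Q' hQ' hO => ?_)
      have hS' := hS Q' (hJ'S hQ')
      have : Q' = (Q : ℤ) := below_unique hS'.1 (hS Q Q.2).1 hO (hpq Q Q.2).2.1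
      rw [this] at hQ'
      exact hQJ hQ'
  have hz1 : ∀ Q ∈ S, Ev (𝔮 Q) α ∧ U0 (𝔮 Q) ((Q : L) * θ) α := by
    intro Q hQ
    have h1 := congrFun hz ⟨Q, hQ⟩
    have h2 := congrArg Prod.fst h1
    have h3 := congrArg Prod.snd h1
    constructor
    · by_contra hn
      have : (if Ev (𝔮 Q) α then (0 : ZMod 2) else 1) = 0 := h2
      rw [if_neg hn] at this
      exact one_ne_zero this
    · by_contra hn
      have : (if U0 (𝔮 Q) ((Q : L) * θ) α then (0 : ZMod 2) else 1) = 0 := h3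
      rw [if_neg hn] at this
      exact one_ne_zero this
  have hEv : ∀ 𝔓 : HeightOneSpectrum O, Ev 𝔓 α := by
    intro 𝔓
    by_cases h : ∀ Q ∈ S, 𝔓 ≠ 𝔮 Q
    · exact hαM.2.2.2 𝔓 h
    · push Not at h
      obtain ⟨Q, hQ, rfl⟩ := h
      exact (hz1 Q hQ).1
  have hSq : ∀ Q ∈ S, ∀ 𝔓 : HeightOneSpectrum O, Ov Q 𝔓 → Sq1 𝔓 α := by
    intro Q hQ
    refine hNS L O a b θ hc hF.sq Q (hS Q hQ).1.2 (hF.rb Q hQ) (fam_ns hS hF hQ) α hα hN
      (fun 𝔓 _ _ => hEv 𝔓) (fun 𝔓 h𝔓 hv => ?_)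
    rcases (hpq Q hQ).2.2.2.2.2 𝔓 h𝔓 with rfl | rfl
    · exact absurd hv (hpq Q hQ).2.2.1.ne
    · exact (hz1 Q hQ).2.1 (hz1 Q hQ).1
  by_contra hns
  obtain ⟨e, he⟩ := hSD L O hc.rank α hα hEv
  exact hnb (hLB L a b θ X S T s A B hc hS hF α e hα hN hns he fun Q hQ =>
    hTTV L O a b θ hc hF.sq α e hα he Q (hS Q hQ).1.2 (hF.rb Q hQ) (fam_ns hS hF hQ)
      (hSq Q hQ))

end Pool.Agent.N922.PQ
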