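import Pool.Agent.N874.PP.Def

/-!
# A positive proportion of all elliptic curves over `ℚ` has trivial 2-Selmer group over `M`:
# definitions and statements of the parts (counting)

Project PQ (helper922). `Tup`, `chA`, `chB`, `gq`, `tau`, `Two` and `Ev`, `Sq1`, `U0` are those of
`Pool.Agent.N874.PP` (file `N874/PP/Def.lean`). The statements `S_..` are the parts.
-/

set_option autoImplicit false
set_option linter.all false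

open IsDedekindDomain NumberField
open scoped Classical

namespace Pool.Agent.N922.PQ

open Pool.Agent.N874.PP (Tup chA chB gq tau Two)

/-- `4 a ^ 3 + 27 b ^ 2` -/
def dsc (a b : ℤ) : ℤ := 4 * a ^ 3 + 27 * b ^ 2

/-- Two different zeros on the projective line modulo `Q`. -/
def TT (Q : ℤ) (B : Tup ℤ) : Prop :=
  (∃ u u' : ℤ, ¬ Q ∣ u - u' ∧ Q ∣ gq B u ∧ Q ∣ gq B u') ∨ (Q ∣ B.x ∧ ∃ u : ℤ, Q ∣ gq B u)

/-- The box of type `T`. -/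
def InBox (κ X T : ℕ) (B : Tup ℤ) : Prop :=
  |B.x| * T ^ 2 ≤ κ * X ∧ |B.y| * T ≤ κ * X ∧ |B.c| ≤ κ * X ∧ |B.z| ≤ κ * X * T ∧
    |B.w| ≤ κ * X * T ^ 2

/-- A positive prime number, as an integer. -/
def IsPr (Q : ℤ) : Prop := 0 < Q ∧ Prime Q

/-- The set `S` of primes (`1` modulo `8`) and the residues `s Q` with `- s Q` not a square
modulo `Q`. -/
def GoodS (S : Finset ℤ) (s : ℤ → ℤ) : Prop :=
  ∀ Q ∈ S, IsPr Q ∧ Q % 8 = 1 ∧ ∀ z : ℤ, ¬ Q ∣ z ^ 2 + s Q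

/-- The primes in `T`, among them `2` and `3`, and the residues `A P`, `B P` for which
`X ^ 3 + A X + B` has no zero modulo `P`. -/
def GoodT (T : Finset ℤ) (A B : ℤ → ℤ) : Prop :=
  (2 : ℤ) ∈ T ∧ (3 : ℤ) ∈ T ∧ ∀ P ∈ T, IsPr P ∧ ∀ z : ℤ, ¬ P ∣ z ^ 3 + A P * z + B P

/-- The family. -/
structure Fam (X : ℕ) (S : Finset ℤ) (s : ℤ → ℤ) (T : Finset ℤ) (A B : ℤ → ℤ) (a b : ℤ) :
    Prop where
  pa : 0 < a
  da : a ≤ X ^ 2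
  db : |b| ≤ X ^ 3
  ra : ∀ Q ∈ S, Q ∣ a - s Q
  rb : ∀ Q ∈ S, Q ∣ b
  ta : ∀ P ∈ T, P ∣ a - A P
  tb : ∀ P ∈ T, P ∣ b - B P
  sq : Squarefree (dsc a b)

/-- The tuples over which we count. -/
structure Xset (κ X T : ℕ) (S : Finset ℤ) (s : ℤ → ℤ) (B : Tup ℤ) : Prop where
  box : InBox κ X T B
  nz : B.x ≠ 0
  tt : ∀ Q ∈ S, TT Q B
  ra : ∀ Q ∈ S, Q ∣ chA B - s Q
  rb : ∀ Q ∈ S, Q ∣ chB B

/-- The curve `(a, b)` is bad: it comes from a tuple. -/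
def LBad (κ X : ℕ) (S : Finset ℤ) (s : ℤ → ℤ) (a b : ℤ) : Prop :=
  ∃ (m : ℕ) (B : Tup ℤ), Xset κ X (2 ^ m) S s B ∧ chA B = a ∧ chB B = b

/-- Part BOX. The product of the primes in `S` is small. -/
def S_BOX : Prop := ∀ κ : ℕ, ∃ K : ℕ, ∀ (S : Finset ℤ) (s : ℤ → ℤ), GoodS S s →
  ∀ X T : ℕ, 1 ≤ T → (∏ Q ∈ S, Q) * T ^ 2 ≤ κ * X →
  {B : Tup ℤ | Xset κ X T S s B}.Finite ∧
  ((2 ^ S.card * (∏ Q ∈ S, Q) ^ 2 * ({B : Tup ℤ | Xset κ X T S s B}.ncard : ℤ)) : ℤ) ≤ K * X ^ 5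

/-- Part BOX0. The trivial bound. -/
def S_BOX0 : Prop := ∀ κ : ℕ, ∃ K : ℕ, ∀ (S : Finset ℤ) (s : ℤ → ℤ) (X T : ℕ), 1 ≤ T → 1 ≤ X →
  {B : Tup ℤ | Xset κ X T S s B}.Finite ∧ {B : Tup ℤ | Xset κ X T S s B}.ncard ≤ K * X ^ 5

/-- Part ORB. Every pair `(a, b)` comes from at least `T` tuples of a larger box. -/
def S_ORB : Prop := ∀ κ : ℕ, ∀ (S : Finset ℤ) (s : ℤ → ℤ) (X T : ℕ), 1 ≤ T →
  {B : Tup ℤ | Xset (29 * κ) X T S s B}.Finite →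
  {p : ℤ × ℤ | ∃ B : Tup ℤ, Xset κ X T S s B ∧ chA B = p.1 ∧ chB B = p.2}.ncard * T ≤
    {B : Tup ℤ | Xset (29 * κ) X T S s B}.ncard

/-- Part BAD. Few bad curves; the constant does not depend on `S`. -/
def S_BAD : Prop := ∀ κ : ℕ, ∃ K : ℕ, ∀ (S : Finset ℤ) (s : ℤ → ℤ), GoodS S s →
  ∃ X₀ : ℕ, ∀ X ≥ X₀, {p : ℤ × ℤ | LBad κ X S s p.1 p.2}.Finite ∧
  ((2 ^ S.card * (∏ Q ∈ S, Q) ^ 2 * ({p : ℤ × ℤ | LBad κ X S s p.1 p.2}.ncard : ℤ)) : ℤ) ≤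
    K * X ^ 5

/-- Part FAM. Many curves in the family; the constant does not depend on `S`. -/
def S_FAM : Prop := ∀ (T : Finset ℤ) (A B : ℤ → ℤ), GoodT T A B → ∃ c : ℝ, 0 < c ∧
  ∀ (S : Finset ℤ) (s : ℤ → ℤ), GoodS S s → Disjoint S T → ∃ X₀ : ℕ, ∀ X ≥ X₀,
    c * (X : ℝ) ^ 5 ≤ ((∏ Q ∈ S, (Q : ℝ) ^ 2)) *
      ({p : ℤ × ℤ | Fam X S s T A B p.1 p.2}.ncard : ℝ)

/-- Part TCH. Existence of the residues. -/
def S_TCH : Prop := ∀ T₀ : Finset ℤ, (∀ P ∈ T₀, IsPr P) →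
  ∃ (T : Finset ℤ) (A B : ℤ → ℤ), T₀ ⊆ T ∧ GoodT T A B

end Pool.Agent.N922.PQ
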