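import Pool.Agent.N922.PQ.Cnt
import Pool.Agent.N50.PQ.Box
import Pool.Agent.N50.PQ.Orb
import Pool.Agent.N50.PQ.Maj
import Pool.Agent.N415.PQ.Bad
import Pool.Agent.N415.PQ.SigLie
import Pool.Agent.N456.PQ.Fam
import Pool.Agent.N954.PQ.TCH
import Pool.Agent.N849.PQ.Int
import Pool.Agent.N400.PQ.SD
import Pool.Agent.N301.PQ.TTV
import Pool.Agent.N227.PQ.Det
import Pool.Agent.N945.PQ.RED
import Pool.Agent.N592.PQ.NRM
import Pool.Agent.N368.PQ.NF
import Pool.Agent.N738.PQ.Chi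
import Pool.Agent.N774.PQ.TTB
import Pool.Agent.N441.PQ.LB
import Pool.Agent.N747.PQ.Exq
import Pool.Agent.N42.PQ.Cls
import Pool.Agent.N42.PQ.C2p
import Pool.Agent.N667.PQ.Ns
import Pool.Agent.N667.PQ.P3
import Pool.Agent.N655.PQ.Diag
import Pool.Agent.N655.PQ.Hp
import Pool.Agent.N803.PQ.Unim
import Pool.Agent.N803.PQ.Loc2
import Pool.Agent.N803.PQ.Iso2
import Pool.Agent.N966.PQ.Ram
import Pool.Agent.N900.PQ.Rec
import Pool.Agent.N40.PQ.Gen
import Pool.Agent.N40.PQ.Spl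
import Pool.Agent.N362.PQ.UR
import Pool.Agent.N296.PQ.SPD
import Pool.Agent.N816.PQ.Emb
import Pool.Agent.N3.PQ.TW2
import Pool.Agent.N7.PQ.Glr2
import Pool.Agent.N273.PQ.FinM
import Pool.Agent.N707.PQ.Crv
import Pool.Agent.N607.PQ.Cnt
import Pool.Agent.N498.PP.Lin
import Pool.Agent.N187.PP.GB
import Pool.Agent.N187.PP.GN
import Pool.Agent.N630.PP.GP
import Pool.Agent.N426.PM.GLR
import Pool.Agent.N650.PM.GFR
import Pool.Agent.N692.PM.Tow
import Pool.Agent.N803.PM.QS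
import Pool.Agent.N75.PM.Loc1
import Pool.Agent.N849.PM.Loc2

/-!
# A positive proportion over a Galois 2-extension of `ℚ`: the theorem

Project PQ (helper922): the parts together.
-/

set_option autoImplicit false
set_option linter.all false

open Polynomial IsDedekindDomain WeierstrassCurve WeierstrassCurve.Affine NumberField
open Pool.Agent.TH115.GD
open scoped Classical IntermediateField

namespace Pool.Agent.N922.PQ

theorem parts : Parts := by
  have hINT : S_INT := Pool.Agent.N849.PQ.int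
  have hEXQ : S_EXQ := Pool.Agent.N747.PQ.exq hINT
  have hGP1 : N874.PP.S_GP1 := N630.PP.gp1
  have hGP2 : N874.PP.S_GP2 := N630.PP.gp2
  have hGP3 : N874.PP.S_GP3 := N630.PP.gp3
  have hGP4 : N874.PP.S_GP4 := N630.PP.gp4
  have hPLM : S_PLM := Pool.Agent.N803.PQ.plm
  have hREC : S_REC := Pool.Agent.N900.PQ.rec Pool.Agent.N655.PQ.diag Pool.Agent.N655.PQ.hp
    (Pool.Agent.N803.PQ.unim hINT) (Pool.Agent.N966.PQ.ram hINT hEXQ) hEXQ Pool.Agent.N803.PQ.iso2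
  exact
    { cls := Pool.Agent.N42.PQ.cls
      exq := hEXQ
      ns := Pool.Agent.N667.PQ.ns hINT hEXQ
      lin := N498.PP.lin
      recp := hREC
      plm := hPLM
      sd := Pool.Agent.N400.PQSD.sd
      ttv := Pool.Agent.N301.PQ.ttv hINT
      gb := N187.PP.gb hGP3 hGP4
      gn := N187.PP.gn hGP3 hGP4
      gt := N187.PP.gt hGP3 hGP4
      glr := N426.PM.glr hGP1 hGP2 hGP3 hGP4
      glr2 := Pool.Agent.N7.PQ.glr2
      ur := Pool.Agent.N362.PQ.ur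
      spd := Pool.Agent.N296.PQ.spd
      sig := Pool.Agent.N415.PQ.sig
      p3 := Pool.Agent.N667.PQ.p3 hINT
      tow := N692.PMTOW.tow N803.PM.qs
      lie := Pool.Agent.N415.PQ.lie
      loc1 := N75.PM.loc1m
      loc2 := N849.PM.loc2m
      emb := Pool.Agent.N816.PQ.Emb.emb
      tw2 := Pool.Agent.N3.PQ.tw2
      c2p := Pool.Agent.N42.PQ.c2p hPLM }

theorem lb : S_LB :=
  Pool.Agent.N441.PQ.lb (Pool.Agent.N227.PQ.det Pool.Agent.N849.PQ.int) Pool.Agent.N50.PQ.Maj.maj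
    Pool.Agent.N945.PQ.RED.main (Pool.Agent.N368.PQ.nf Pool.Agent.N592.PQ.nrm)
    Pool.Agent.N738.PQ.chi Pool.Agent.N738.PQ.nz Pool.Agent.N774.PQ.ttb

theorem bad : S_BAD :=
  Pool.Agent.N415.PQ.bad Pool.Agent.N50.PQ.box Pool.Agent.N50.PQ.box0 Pool.Agent.N50.PQ.orb

/-- A positive proportion of all elliptic curves over `ℚ` has trivial 2-Selmer group over `M`. -/
theorem final (M : Type) [Field M] [NumberField M]
    [IsGalois ℚ M] (R : Type) [CommRing R] [IsDedekindDomain R] [Algebra R M]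
    [IsFractionRing R M] [IsIntegralClosure R ℤ M] {n : ℕ}
    (hM : Module.finrank ℚ M = 2 ^ n) (hemb : Nonempty (M →+* ℚ_[2])) :
    ∃ c : ℝ, 0 < c ∧ ∃ H₀ : ℕ, ∀ H ≥ H₀, {p : ℤ × ℤ | Crv H p.1 p.2}.Finite ∧
    c * ({p : ℤ × ℤ | Crv H p.1 p.2}.ncard : ℝ) ≤
      ({p : ℤ × ℤ | Crv H p.1 p.2 ∧ GoodM (M := M) R p}.ncard : ℝ) :=
  mainQ parts lb Pool.Agent.N456.PQ.fam bad Pool.Agent.N954.PQ.tch Pool.Agent.N40.PQ.gen
    Pool.Agent.N40.PQ.spl N650.PM.gfr Pool.Agent.N273.PQ.finm Pool.Agent.N707.PQ.crv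
    Pool.Agent.N607.PQ.cnt M R hM hemb

end Pool.Agent.N922.PQ
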