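import Pool.Agent.N922.PQ.Final
import Pool.Agent.N922.PQ.Cnt2
import Pool.Agent.N615.PV.Fam2
import Pool.Agent.N559.PV.Plm2
import Pool.Agent.N667.PV.Ext
import Pool.Agent.N61.PV.C2w
import Pool.Agent.N301.PV.NR
import Pool.Agent.N279.PV.SQD
import Pool.Agent.N323.PV.CAL
import Pool.Agent.N907.PV.NF2
import Pool.Agent.N951.PV.PT2
import Pool.Agent.N137.PV.Tor

/-!
# A positive proportion over a Galois 2-extension of `ℚ` in which `2` is unramified: the theorem

Project PV (helper922): the parts together.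
-/

set_option autoImplicit false
set_option linter.all false

open Polynomial IsDedekindDomain WeierstrassCurve WeierstrassCurve.Affine NumberField
open Pool.Agent.TH115.GD
open scoped Classical IntermediateField

namespace Pool.Agent.N922.PQ

theorem parts2 : Parts2 where
  p := parts
  nr := Pool.Agent.N301.PV.nr
  sqd := Pool.Agent.N279.PV.sqd
  twg := Pool.Agent.N279.PV.twg
  c2w := Pool.Agent.N61.PV.c2w Pool.Agent.N559.PV.plm2 Pool.Agent.N667.PV.ext
  ud := Pool.Agent.N951.PV.ud Pool.Agent.N323.PV.t_CAL Pool.Agent.N907.PV.t_NF2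

/-- A positive proportion of all elliptic curves over `ℚ` has trivial 2-Selmer group over `M` and no
points over `M` except the point at infinity. -/
theorem finalV (M : Type) [Field M] [NumberField M]
    [IsGalois ℚ M] (R : Type) [CommRing R] [IsDedekindDomain R] [Algebra R M]
    [IsFractionRing R M] [IsIntegralClosure R ℤ M] {n : ℕ}
    (hM : Module.finrank ℚ M = 2 ^ n)
    (hur : ∀ w : HeightOneSpectrum R, Ov 2 w → w.valuation M 2 = WithZero.exp (-1 : ℤ)) :
    ∃ c : ℝ, 0 < c ∧ ∃ H₀ : ℕ, ∀ H ≥ H₀, {p : ℤ × ℤ | Crv H p.1 p.2}.Finite ∧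
    c * ({p : ℤ × ℤ | Crv H p.1 p.2}.ncard : ℝ) ≤
      ({p : ℤ × ℤ | Crv H p.1 p.2 ∧ GoodV (M := M) R p}.ncard : ℝ) := by
  obtain ⟨P, X₀, c, hc, hP, h⟩ := mainV parts2 lb Pool.Agent.N615.PV.fam2 bad
    Pool.Agent.N954.PQ.tch Pool.Agent.N40.PQ.gen Pool.Agent.N40.PQ.spl N650.PM.gfr
    Pool.Agent.N273.PQ.finm Pool.Agent.N137.PV.tor Pool.Agent.N707.PQ.crv M R hM hur
  exact Pool.Agent.N607.PQ.cnt (fun p => GoodV (M := M) R p) P X₀ c hc hP
    fun X hX Hh hHh => h X hX Hh hHh

end Pool.Agent.N922.PQ
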