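import Pool.Agent.N922.PQ.Lat
import Pool.Agent.N874.PM.Stm

/-!
# Statements of the parts over the extension `M`

Project PQ (helper922). `PLoc`, `Lies`, `SelR`, `ShaR` are in `N874/PM/Stm.lean`, `Pt`, `act`, `rs`,
`IsCoc`, `LocTriv`, `Comp`, `Sep` in `TH115/GD/Defs.lean`, `sW`, `IsBeta`, `Rt` in
`N874/PP/Gal.lean`.
-/

set_option autoImplicit false
set_option linter.all false

open Polynomial IsDedekindDomain WeierstrassCurve WeierstrassCurve.Affine NumberField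
open Pool.Agent.TH115.GD
open scoped Classical IntermediateField

namespace Pool.Agent.N922.PQ

open Pool.Agent.N874.PP (Tup chA chB gq tau Two Ev Sq1 U0 sW IsBeta Rt)
open Pool.Agent.N874.PM (PLoc Lies SelR ShaR)

/-! ### Generators, ramification, splitting -/

/-- `γ` generates `F'` over `F` and is a zero of the monic polynomial `g` over `ℤ`; `δ` is a
combination of `g` and its derivative. -/
structure Gen (F : Type) {F' : Type} [Field F] [Field F'] [Algebra F F'] (γ : F') (g : ℤ[X])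
    (δ : ℤ) : Prop where
  top : F⟮γ⟯ = ⊤
  monic : g.Monic
  root : aeval γ g = 0
  ne : δ ≠ 0
  comb : ∃ u w : ℤ[X], C δ = u * g + w * derivative g

/-- The polynomial `g` splits into linear factors modulo `Q`. -/
def SplitMod (Q : ℤ) (g : ℤ[X]) : Prop :=
  ∃ (l : Multiset ℤ) (h : ℤ[X]), g = (l.map fun c => X - C c).prod + C Q * h

/-- Part GEN. Existence of a generator. -/
def S_GEN : Prop := ∀ (M : Type) [Field M] [NumberField M],
  ∃ (γ : M) (g : ℤ[X]) (δ : ℤ), Gen ℚ γ g δ ∧ g.natDegree = Module.finrank ℚ M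

/-- Part SPL. Existence of primes, congruent to `1` modulo `8`, modulo which `g` splits. -/
def S_SPL : Prop := ∀ (M : Type) [Field M] [NumberField M] [IsGalois ℚ M] (γ : M) (g : ℤ[X])
  (δ : ℤ), Gen ℚ γ g δ → g.natDegree = Module.finrank ℚ M → ∀ (T : Finset ℤ) (r : ℕ),
  ∃ (S : Finset ℤ) (s : ℤ → ℤ), GoodS S s ∧ S.card = r ∧ Disjoint S T ∧ ∀ Q ∈ S, SplitMod Q g

/-- Part UR. The extension is unramified at the primes which do not divide `δ`. -/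
def S_UR : Prop := ∀ (F F' O O' : Type) [Field F] [NumberField F] [Field F'] [NumberField F']
  [Algebra F F'] [CommRing O] [IsDedekindDomain O] [Algebra O F] [IsFractionRing O F]
  [IsIntegralClosure O ℤ F] [CommRing O'] [IsDedekindDomain O'] [Algebra O' F']
  [IsFractionRing O' F'] [IsIntegralClosure O' ℤ F'] (γ : F') (g : ℤ[X]) (δ : ℤ), Gen F γ g δ →
  (∀ 𝔓' : HeightOneSpectrum O', ¬ Ov δ 𝔓' → ∃ 𝔓 : HeightOneSpectrum O,
    ∀ x : F, 𝔓'.valuation F' (algebraMap F F' x) = 𝔓.valuation F x) ∧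
  (∀ 𝔓 : HeightOneSpectrum O, ¬ Ov δ 𝔓 → ∃ 𝔓' : HeightOneSpectrum O',
    ∀ x : F, 𝔓'.valuation F' (algebraMap F F' x) = 𝔓.valuation F x)

/-- Part SPD. Density at the primes `Q` modulo which `g` splits. -/
def S_SPD : Prop := ∀ (F F' O' : Type) [Field F] [NumberField F] [Field F'] [NumberField F']
  [Algebra F F'] [CommRing O'] [IsDedekindDomain O'] [Algebra O' F'] [IsFractionRing O' F']
  (γ : F') (g : ℤ[X]) (δ : ℤ), Gen F γ g δ → ∀ Q : ℤ, Prime Q → SplitMod Q g →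
  ∀ 𝔓' : HeightOneSpectrum O', Ov Q 𝔓' → ¬ Ov δ 𝔓' → ∀ s : F', s ≠ 0 →
    ∃ s₀ : F, 𝔓'.valuation F' (s - algebraMap F F' s₀) < 𝔓'.valuation F' s

/-- Part SIG. The automorphisms permute the primes. -/
def S_SIG : Prop := ∀ (F' O' : Type) [Field F'] [NumberField F'] [CommRing O'] [IsDedekindDomain O']
  [Algebra O' F'] [IsFractionRing O' F'] [IsIntegralClosure O' ℤ F'] (σ : F' ≃+* F')
  (𝔓 : HeightOneSpectrum O'), ∃ 𝔓' : HeightOneSpectrum O',
    (∀ x : F', 𝔓'.valuation F' x = 𝔓.valuation F' (σ x)) ∧ ∀ P : ℤ, Ov P 𝔓' ↔ Ov P 𝔓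

/-- Part LIE. Every prime lies over a prime. -/
def S_LIE : Prop := ∀ (F F' O O' : Type) [Field F] [NumberField F] [Field F'] [NumberField F']
  [Algebra F F'] [CommRing O] [IsDedekindDomain O] [Algebra O F] [IsFractionRing O F]
  [IsIntegralClosure O ℤ F] [CommRing O'] [IsDedekindDomain O'] [Algebra O' F']
  [IsFractionRing O' F'] [IsIntegralClosure O' ℤ F'] (𝔓' : HeightOneSpectrum O'),
  ∃ 𝔓 : HeightOneSpectrum O, Lies (M := F) (Ω := F') 𝔓 𝔓' ∧ ∀ P : ℤ, Ov P 𝔓 ↔ Ov P 𝔓'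

/-! ### The place `2` -/

/-- Part EMB. An embedding of `M` in `ℚ_2` extends to the completion at a prime. -/
def S_EMB : Prop := ∀ (M R : Type) [Field M] [NumberField M] [CommRing R] [IsDedekindDomain R]
  [Algebra R M] [IsFractionRing R M] [IsIntegralClosure R ℤ M] (φ : M →+* ℚ_[2]),
  ∃ (w : HeightOneSpectrum R) (j : w.adicCompletion M →+* ℚ_[2]),
    ∀ x : M, j (algebraMap M (w.adicCompletion M) x) = φ x

/-- Part TW2. The local condition at `2` for the twist by `D = 1` modulo `8`. -/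
def S_TW2 : Prop := ∀ (M F : Type) [Field M] [CharZero M] [Field F] [Algebra M F]
  (j : F →+* ℚ_[2]) (φ : M →+* ℚ_[2]), (∀ x : M, j (algebraMap M F x) = φ x) →
  ∀ a b D : ℤ, 0 < D → D % 8 = 1 → ∀ h : M[X],
  PLoc F (((a * D ^ 2 : ℤ)) : M) (((b * D ^ 3 : ℤ)) : M) h →
    PL2 a b ((h.comp (C (D : M) * X)).map φ)

/-- The local condition at `2` for elements of an extension `Ω = M(θ)`. -/
def C2 (M : Type) {Ω : Type} [Field M] [Field Ω] [Algebra M Ω] (a b : ℤ) (θ x : Ω) : Prop :=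
  ∀ (φ : M →+* ℚ_[2]) (h : M[X]), aeval θ h = x → PL2 a b (h.map φ)

/-- Part C2P. Properties of `C2`: products and automorphisms. -/
def S_C2P : Prop := ∀ (L M Ω : Type) [Field L] [Field M] [Field Ω] [NumberField L] [NumberField M]
  [NumberField Ω] [Algebra L Ω] [Algebra M Ω] [IsGalois ℚ M] (a b : ℤ) (θ : L),
  (∀ z : ℤ, ¬ (2 : ℤ) ∣ z ^ 3 + a * z + b) → IsCub a b θ → Module.finrank M Ω = 3 →
  M⟮algebraMap L Ω θ⟯ = ⊤ →
  (∀ x : Ω, C2 M a b (algebraMap L Ω θ) (x ^ 2)) ∧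
  (∀ x y : Ω, C2 M a b (algebraMap L Ω θ) x → C2 M a b (algebraMap L Ω θ) y →
    C2 M a b (algebraMap L Ω θ) (x * y)) ∧
  (∀ (σ : Ω ≃ₐ[L] Ω) (x : Ω), C2 M a b (algebraMap L Ω θ) x →
    C2 M a b (algebraMap L Ω θ) (σ x)) ∧
  (Nonempty (M →+* ℚ_[2]) → ∀ x : L, C2 M a b (algebraMap L Ω θ) (algebraMap L Ω x) →
    Loc2 a b θ x)

/-! ### Galois cohomology over `M` -/

/-- Part GLR2. The local condition at a place where the cubic polynomial has no zero. -/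
def S_GLR2 : Prop := ∀ (M R : Type) [Field M] [CommRing R] [IsDedekindDomain R] [Algebra R M]
  [IsFractionRing R M] (A B : M), (6 : M) ≠ 0 → 4 * A ^ 3 + 27 * B ^ 2 ≠ 0 →
  ∀ f : (Sep M ≃ₐ[M] Sep M) → Pt (sW A B) (Sep M), IsCoc (sW A B) f → (∀ σ, (2 : ℕ) • f σ = 0) →
  ∀ (β : Sep M → Sep M) (h : M[X]), IsBeta A B f β →
    (∀ t : Sep M, Rt A B t → aeval t h = β t ^ 2) →
    ∀ v : HeightOneSpectrum R,
      (∀ t : v.adicCompletion M, t ^ 3 + algebraMap M (v.adicCompletion M) A * t +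
        algebraMap M (v.adicCompletion M) B ≠ 0) →
      LocTriv (sW A B) (Comp R M v) (Sep (Comp R M v)) f → PLoc (Comp R M v) A B h

/-- Part FINM. Finiteness from divisibility by two, over a number field. -/
def S_FINM : Prop := ∀ (M : Type) [Field M] [NumberField M] (A B : M),
  4 * A ^ 3 + 27 * B ^ 2 ≠ 0 →
  (∀ P : Pt (sW A B) M, ∃ Q : Pt (sW A B) M, P = (2 : ℕ) • Q) → Finite (Pt (sW A B) M)

/-! ### The curves -/

/-- Minimal curves of height at most `H`. -/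
structure Crv (H : ℕ) (A B : ℤ) : Prop where
  disc : 4 * A ^ 3 + 27 * B ^ 2 ≠ 0
  min : ∀ p : ℕ, p.Prime → ¬ ((p : ℤ) ^ 4 ∣ A ∧ (p : ℤ) ^ 6 ∣ B)
  hA : 4 * |A| ^ 3 ≤ H
  hB : 27 * B ^ 2 ≤ H

/-- Part CRV. From the family to the minimal curves. -/
def S_CRV : Prop := ∀ (X H : ℕ) (S T : Finset ℤ) (s A B : ℤ → ℤ) (a b : ℤ), GoodS S s →
  GoodT T A B → Fam X S s T A B a b → ∀ J ⊆ S, 27 * ((X : ℤ) * ∏ Q ∈ S, Q) ^ 6 ≤ H →
  Crv H (a * (∏ Q ∈ J, Q) ^ 2) (b * (∏ Q ∈ J, Q) ^ 3)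

/-- Part CNT. From a lower bound of order `X ^ 5` to a positive proportion. -/
def S_CNT : Prop := ∀ (good : ℤ × ℤ → Prop) (P X₀ : ℕ) (c : ℝ), 0 < c → 1 ≤ P →
  (∀ X : ℕ, X₀ ≤ X → ∀ H : ℕ, 27 * (X * P) ^ 6 ≤ H →
    c * (X : ℝ) ^ 5 ≤ ({p : ℤ × ℤ | Crv H p.1 p.2 ∧ good p}.ncard : ℝ)) →
  ∃ c' : ℝ, 0 < c' ∧ ∃ H₀ : ℕ, ∀ H ≥ H₀, {p : ℤ × ℤ | Crv H p.1 p.2}.Finite ∧
    c' * ({p : ℤ × ℤ | Crv H p.1 p.2}.ncard : ℝ) ≤
      ({p : ℤ × ℤ | Crv H p.1 p.2 ∧ good p}.ncard : ℝ)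

end Pool.Agent.N922.PQ
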