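import Pool.Agent.N922.PQ.Core

/-!
# Statements of the parts of the second version: `2` unramified in `M`

Project PV (helper922). The family is restricted to `a = b` modulo `4`.
-/

set_option autoImplicit false
set_option linter.all false

open Polynomial IsDedekindDomain WeierstrassCurve WeierstrassCurve.Affine NumberField
open Pool.Agent.TH115.GD
open scoped Classical IntermediateField

namespace Pool.Agent.N922.PQ

open Pool.Agent.N874.PP (Tup chA chB gq tau Two Ev Sq1 U0 sW IsBeta Rt)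
open Pool.Agent.N874.PM (PLoc Lies SelR ShaR)

/-- The class of the polynomial `h` is in the local image over `F` of `y ^ 2 = x ^ 3 + a x + b`
(for `F = ℚ_2` this is `PL2`). -/
def PL (F : Type) [Field F] (a b : ℤ) (h : F[X]) : Prop :=
  (∃ g : F[X], ff F a b ∣ h - g ^ 2) ∨
  ∃ x y : F, y ≠ 0 ∧ y ^ 2 = x ^ 3 + a * x + b ∧ ∃ g : F[X], ff F a b ∣ (C x - X) * h - g ^ 2

/-- Part FAM2. Many curves in the family with `4 ∣ a - b`. -/
def S_FAM2 : Prop := ∀ (T : Finset ℤ) (A B : ℤ → ℤ), GoodT T A B → ∃ c : ℝ, 0 < c ∧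
  ∀ (S : Finset ℤ) (s : ℤ → ℤ), GoodS S s → Disjoint S T → ∃ X₀ : ℕ, ∀ X ≥ X₀,
    c * (X : ℝ) ^ 5 ≤ ((∏ Q ∈ S, (Q : ℝ) ^ 2)) *
      ({p : ℤ × ℤ | Fam X S s T A B p.1 p.2 ∧ (4 : ℤ) ∣ p.1 - p.2}.ncard : ℝ)

/-- Part PLM2. The local image is a group. -/
def S_PLM2 : Prop := ∀ (F : Type) [Field F] [CharZero F] (a b : ℤ), dsc a b ≠ 0 →
  (∀ x : F, x ^ 3 + (a : F) * x + (b : F) ≠ 0) →
  ∀ h h' : F[X], PL F a b h → PL F a b h' → PL F a b (h * h')

/-- Part EXT. Automorphisms and completions. -/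
def S_EXT : Prop := ∀ (M R : Type) [Field M] [NumberField M] [CommRing R] [IsDedekindDomain R]
  [Algebra R M] [IsFractionRing R M] [IsIntegralClosure R ℤ M] (σ : M ≃+* M)
  (w : HeightOneSpectrum R), ∃ (w' : HeightOneSpectrum R)
    (s : w'.adicCompletion M →+* w.adicCompletion M),
    (∀ x : M, s (algebraMap M (w'.adicCompletion M) x) =
      algebraMap M (w.adicCompletion M) (σ x)) ∧ ∀ P : ℤ, Ov P w' ↔ Ov P w

/-- Part NR. The cubic polynomial has no zero in the completion at a prime over `2`. -/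
def S_NR : Prop := ∀ (M R : Type) [Field M] [NumberField M] [IsGalois ℚ M] [CommRing R]
  [IsDedekindDomain R] [Algebra R M] [IsFractionRing R M] [IsIntegralClosure R ℤ M] (n : ℕ),
  Module.finrank ℚ M = 2 ^ n → ∀ w : HeightOneSpectrum R, Ov 2 w → ∀ a b : ℤ, Odd a → Odd b →
  ∀ t : w.adicCompletion M, t ^ 3 + (a : w.adicCompletion M) * t + (b : w.adicCompletion M) ≠ 0

/-- Part SQD. `D = 1` modulo `8` is a square in the completion at a prime over `2`. -/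
def S_SQD : Prop := ∀ (M R : Type) [Field M] [NumberField M] [CommRing R] [IsDedekindDomain R]
  [Algebra R M] [IsFractionRing R M] [IsIntegralClosure R ℤ M] (w : HeightOneSpectrum R),
  Ov 2 w → ∀ D : ℤ, D % 8 = 1 → IsSquare ((D : ℤ) : w.adicCompletion M)

/-- Part TWG. The local condition for the twist by a square. -/
def S_TWG : Prop := ∀ (M F : Type) [Field M] [CharZero M] [Field F] [Algebra M F] (a b D : ℤ),
  D ≠ 0 → IsSquare ((D : ℤ) : F) → ∀ h : M[X],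
  PLoc F (((a * D ^ 2 : ℤ)) : M) (((b * D ^ 3 : ℤ)) : M) h →
    PL F a b ((h.comp (C (D : M) * X)).map (algebraMap M F))

/-- The local conditions at the primes over `2`, for elements of an extension `Ω = M(θ)`. -/
def C2w (M R : Type) {Ω : Type} [Field M] [Field Ω] [Algebra M Ω] [CommRing R]
    [IsDedekindDomain R] [Algebra R M] [IsFractionRing R M] (a b : ℤ) (θ x : Ω) : Prop :=
  ∀ w : HeightOneSpectrum R, Ov 2 w → ∀ h : M[X], aeval θ h = x →
    PL (w.adicCompletion M) a b (h.map (algebraMap M (w.adicCompletion M)))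

/-- Part C2W. Properties of `C2w`: products and automorphisms. -/
def S_C2W : Prop := ∀ (L M Ω R : Type) [Field L] [Field M] [Field Ω] [NumberField L]
  [NumberField M] [NumberField Ω] [Algebra L Ω] [Algebra M Ω] [IsGalois ℚ M] [CommRing R]
  [IsDedekindDomain R] [Algebra R M] [IsFractionRing R M] [IsIntegralClosure R ℤ M] (a b : ℤ)
  (θ : L), dsc a b ≠ 0 →
  (∀ w : HeightOneSpectrum R, Ov 2 w → ∀ t : w.adicCompletion M,
    t ^ 3 + (a : w.adicCompletion M) * t + (b : w.adicCompletion M) ≠ 0) →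
  IsCub a b θ → Module.finrank M Ω = 3 → M⟮algebraMap L Ω θ⟯ = ⊤ →
  (∀ x : Ω, C2w M R a b (algebraMap L Ω θ) (x ^ 2)) ∧
  (∀ x y : Ω, C2w M R a b (algebraMap L Ω θ) x → C2w M R a b (algebraMap L Ω θ) y →
    C2w M R a b (algebraMap L Ω θ) (x * y)) ∧
  ∀ (σ : Ω ≃ₐ[L] Ω) (x : Ω), C2w M R a b (algebraMap L Ω θ) x →
    C2w M R a b (algebraMap L Ω θ) (σ x)

/-- The polynomial `1 + 2 (g₁ X + g₂ X ^ 2) + 4 (r + s X + t X ^ 2)`. -/
noncomputable def pol (F : Type) [Field F] (g₁ g₂ : ℤ) (r s t : F) : F[X] :=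
  1 + C 2 * (C (g₁ : F) * X + C (g₂ : F) * X ^ 2) + C 4 * (C r + C s * X + C t * X ^ 2)

/-- Part CAL. The classes of the points modulo `4`. -/
def S_CAL : Prop := ∀ (F Γ : Type) [Field F] [CharZero F] [LinearOrderedCommGroupWithZero Γ]
  (v : Valuation F Γ), v 2 < 1 → (∀ x : F, v x < 1 → v x ≤ v 2) → ∀ a b : ℤ, Odd a →
  (4 : ℤ) ∣ a - b → ∀ (g₁ g₂ : ℤ) (r s t : F), v r ≤ 1 → v s ≤ 1 → v t ≤ 1 →
  PL F a b (pol F g₁ g₂ r s t) →
  (Even g₁ ∧ Even g₂) ∨ ((4 : ℤ) ∣ 2 * g₁ - (1 - a) ∧ (4 : ℤ) ∣ 2 * g₂ - (3 - a))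

/-- Part NF2. The normal form of elements of `L` with square norm. -/
def S_NF2 : Prop := ∀ (L : Type) [Field L] [NumberField L] (a b : ℤ) (θ : L), IsCub a b θ →
  Odd a → Odd b → ∀ α : L, α ≠ 0 → IsSquare (Algebra.norm ℚ α) →
  ∃ (c : L) (g₁ g₂ : ℤ) (r s t : ℚ), c ≠ 0 ∧ Odd r.den ∧ Odd s.den ∧ Odd t.den ∧
    α = c ^ 2 * aeval θ (pol ℚ g₁ g₂ ((g₁ * (1 + g₂) : ℤ) + 2 * r) s t)

/-- Part PT2. The class of a point over `ℚ_2`. -/
def S_PT2 : Prop := ∀ a b : ℤ, Odd a → (4 : ℤ) ∣ a - b → ∀ (g₁ g₂ : ℤ) (r s t : ℚ_[2]),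
  ‖r - ((g₁ * (1 + g₂) : ℤ) : ℚ_[2])‖ < 1 → ‖s‖ ≤ 1 → ‖t‖ ≤ 1 →
  (Even g₁ ∧ Even g₂) ∨ ((4 : ℤ) ∣ 2 * g₁ - (1 - a) ∧ (4 : ℤ) ∣ 2 * g₂ - (3 - a)) →
  PL2 a b (pol ℚ_[2] g₁ g₂ r s t)

/-- Part UD. Descent of the local condition at `2` in an unramified extension. -/
def S_UD : Prop := ∀ (L : Type) [Field L] [NumberField L] (a b : ℤ) (θ : L), IsCub a b θ →
  Odd a → (4 : ℤ) ∣ a - b → ∀ x : L, x ≠ 0 → IsSquare (Algebra.norm ℚ x) →
  ∀ (F Γ : Type) [Field F] [CharZero F] [LinearOrderedCommGroupWithZero Γ] (v : Valuation F Γ),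
  v 2 < 1 → (∀ x : F, v x < 1 → v x ≤ v 2) →
  (∀ h : ℚ[X], aeval θ h = x → PL F a b (h.map (algebraMap ℚ F))) → Loc2 a b θ x

/-- Part TOR. No points of odd order. -/
def S_TOR : Prop := ∀ (M R : Type) [Field M] [NumberField M] [CommRing R] [IsDedekindDomain R]
  [Algebra R M] [IsFractionRing R M] (w : HeightOneSpectrum R),
  w.valuation M 2 = WithZero.exp (-1 : ℤ) → ∀ A B : ℤ, Odd A → (4 : ℤ) ∣ A - B →
  Finite (Pt (sW (A : M) (B : M)) M) → Odd (Nat.card (Pt (sW (A : M) (B : M)) M)) →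
  Subsingleton (Pt (sW (A : M) (B : M)) M)

end Pool.Agent.N922.PQ
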