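import Pool.Agent.N922.PQ.Lat

/-! The valuation of `2` at an unramified prime over `2` (helper922, project PV). -/

set_option autoImplicit false
set_option linter.all false

open IsDedekindDomain NumberField

namespace Pool.Agent.N922.PQ

theorem val_two_of {F : Type} [Field F] [NumberField F]
    (h : ∀ 𝔭 : Ideal (𝓞 F), 𝔭.IsPrime → (2 : 𝓞 F) ∉ 𝔭 ^ 2) (w : HeightOneSpectrum (𝓞 F))
    (hw : Ov 2 w) : w.valuation F 2 = WithZero.exp (-1 : ℤ) := by
  have e : (2 : F) = algebraMap (𝓞 F) F 2 := by rw [map_ofNat]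
  rw [e, HeightOneSpectrum.valuation_of_algebraMap]
  have h2 : (2 : 𝓞 F) ∈ w.asIdeal := by
    have := hw
    unfold Ov at this
    simpa using this
  have h3 := h w.asIdeal w.isPrime
  have a1 : w.intValuation (2 : 𝓞 F) ≤ WithZero.exp (-((1 : ℕ) : ℤ)) := by
    rw [HeightOneSpectrum.intValuation_le_pow_iff_mem, pow_one]
    exact h2
  have a2 : ¬ w.intValuation (2 : 𝓞 F) ≤ WithZero.exp (-((2 : ℕ) : ℤ)) := by
    rw [HeightOneSpectrum.intValuation_le_pow_iff_mem]
    exact h3
  have h0 : w.intValuation (2 : 𝓞 F) ≠ 0 := by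
    intro h0
    apply a2
    rw [h0]
    exact zero_le'
  rw [← WithZero.exp_log h0] at a1 a2 ⊢
  rw [WithZero.exp_le_exp] at a1 a2
  congr 1
  push_cast at a1 a2
  omega

end Pool.Agent.N922.PQ
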